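import Mathlib
import Pool.Agent.W746.LD.Koebe

/-!
# Koebe distortion with margins
-/

set_option autoImplicit false

open Set Filter Metric

namespace Pool.Agent.Y298.SH.CE

open Pool.Agent.W746.LD (Univ KC exists_KC)

theorem KC.radial {C0 c0 : ℝ} (K : KC C0 c0) {φ : ℂ → ℂ} {z : ℂ} {r : ℝ} (hr : 0 < r)
    (hu : Univ φ z r) (j : ℕ) : ∀ w : ℂ, ‖w - z‖ ≤ r * (1 - (3 / 4) ^ j) →
      ‖deriv φ w‖ ≤ C0 ^ j * ‖deriv φ z‖ ∧ ‖deriv φ z‖ ≤ C0 ^ j * ‖deriv φ w‖ := by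
  have hC := K.one_le
  induction j with
  | zero =>
    intro w hw
    have h1 : ‖w - z‖ = 0 := le_antisymm (by simpa using hw) (norm_nonneg _)
    have h2 : w = z := by
      rw [norm_eq_zero, sub_eq_zero] at h1
      exact h1
    rw [h2]
    simp
  | succ j ih =>
    intro w hw
    have hp : (0 : ℝ) < (3 / 4) ^ j := by positivity
    have hp1 : (3 / 4 : ℝ) ^ j ≤ 1 := pow_le_one₀ (by norm_num) (by norm_num)
    by_cases h0 : ‖w - z‖ ≤ r * (1 - (3 / 4) ^ j)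
    · obtain ⟨h1, h2⟩ := ih w h0
      have h3 : C0 ^ j ≤ C0 ^ (j + 1) := pow_le_pow_right₀ hC (by omega)
      exact ⟨h1.trans (mul_le_mul_of_nonneg_right h3 (norm_nonneg _)),
        h2.trans (mul_le_mul_of_nonneg_right h3 (norm_nonneg _))⟩
    · rw [not_le] at h0
      have hnn : 0 ≤ r * (1 - (3 / 4) ^ j) := mul_nonneg hr.le (by linarith)
      have hpos : 0 < ‖w - z‖ := hnn.trans_lt h0
      set t : ℝ := r * (1 - (3 / 4) ^ j) / ‖w - z‖ with ht
      have ht0 : 0 ≤ t := by positivity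
      have ht1 : t < 1 := by rw [ht, div_lt_one hpos]; exact h0
      set w' : ℂ := z + t • (w - z) with hw'
      have e1 : ‖w' - z‖ = r * (1 - (3 / 4) ^ j) := by
        rw [hw', add_sub_cancel_left, norm_smul, Real.norm_of_nonneg ht0, ht]
        field_simp
      have e2 : ‖w - w'‖ ≤ (r * (3 / 4) ^ j) / 4 := by
        have e3 : w - w' = (1 - t) • (w - z) := by
          rw [hw', sub_smul, one_smul]
          ring
        rw [e3, norm_smul, Real.norm_of_nonneg (by linarith), sub_mul, one_mul]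
        have e4 : t * ‖w - z‖ = r * (1 - (3 / 4) ^ j) := by rw [ht]; field_simp
        rw [e4]
        have e5 : r * (1 - (3 / 4) ^ (j + 1)) - r * (1 - (3 / 4) ^ j) = (r * (3 / 4) ^ j) / 4 := by
          rw [pow_succ]; ring
        linarith
      obtain ⟨h1, h2⟩ := ih w' e1.le
      have hr' : 0 < r * (3 / 4) ^ j := by positivity
      have hu' : Univ φ w' (r * (3 / 4) ^ j) := by
        apply hu.mono
        intro x hx
        rw [mem_ball, dist_eq_norm] at hx ⊢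
        calc ‖x - z‖ = ‖(x - w') + (w' - z)‖ := by congr 1; ring
          _ ≤ ‖x - w'‖ + ‖w' - z‖ := norm_add_le _ _
          _ < r := by rw [e1]; linarith
      obtain ⟨h3, h4⟩ := K.kdist φ w' _ hr' hu' w e2
      have hCj : 0 ≤ C0 ^ j := by positivity
      constructor
      · calc ‖deriv φ w‖ ≤ C0 * ‖deriv φ w'‖ := h3
          _ ≤ C0 * (C0 ^ j * ‖deriv φ z‖) := by gcongr
          _ = _ := by ring
      · calc ‖deriv φ z‖ ≤ C0 ^ j * ‖deriv φ w'‖ := h2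
          _ ≤ C0 ^ j * (C0 * ‖deriv φ w‖) := by gcongr
          _ = _ := by ring

/-- The radii. -/
noncomputable def RR (R τ : ℝ) (k : ℕ) : ℝ := R * (1 + τ ^ k)

/-- Distortion constants with margins. -/
structure MG (C0 c0 θ τ A : ℝ) : Prop where
  t0 : 0 < τ
  t1 : τ < 1
  A1 : 1 ≤ A
  th : 1 < θ
  key : ∀ k : ℕ, ∃ j : ℕ, (3 / 4 : ℝ) ^ j ≤ (1 - τ) * τ ^ k / 2 ∧ C0 ^ (2 * j) ≤ A * θ ^ k
  low : ∀ k : ℕ, 1 ≤ A * θ ^ k * (c0 * (1 - τ) * τ ^ k / 4)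

theorem exists_MG {C0 c0 : ℝ} (K : KC C0 c0) {θ : ℝ} (hθ : 1 < θ) : ∃ τ A : ℝ, MG C0 c0 θ τ A := by
  have hC := K.one_le
  have hc := K.pos
  obtain ⟨p1, hp1⟩ := pow_unbounded_of_one_lt (C0 ^ 2) hθ
  obtain ⟨p2, hp2⟩ := pow_unbounded_of_one_lt (4 / 3 : ℝ) hθ
  set p : ℕ := max p1 p2 + 1 with hp
  have hp0 : 0 < p := by omega
  have hpR : (0 : ℝ) < p := by exact_mod_cast hp0
  have hpC : C0 ^ 2 ≤ θ ^ p := hp1.le.trans (pow_le_pow_right₀ hθ.le (by omega))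
  have hp4 : 4 / 3 ≤ θ ^ p := hp2.le.trans (pow_le_pow_right₀ hθ.le (by omega))
  set τ : ℝ := (3 / 4 : ℝ) ^ (1 / (p : ℝ)) with hτ
  have hτ0 : 0 < τ := by positivity
  have hτp : τ ^ p = 3 / 4 := by
    rw [hτ, ← Real.rpow_natCast, ← Real.rpow_mul (by norm_num), one_div_mul_cancel hpR.ne',
      Real.rpow_one]
  have hτ1 : τ < 1 := by
    rw [hτ]
    exact Real.rpow_lt_one (by norm_num) (by norm_num) (by positivity)
  have hθτ : 1 ≤ θ * τ := by
    have h1 : (1 : ℝ) ≤ (θ * τ) ^ p := by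
      rw [mul_pow, hτp]
      linarith
    by_contra hcon
    rw [not_le] at hcon
    have h2 : (θ * τ) ^ p < 1 := pow_lt_one₀ (by positivity) hcon hp0.ne'
    linarith
  obtain ⟨j₀, hj₀⟩ := exists_pow_lt_of_lt_one (by linarith : 0 < (1 - τ) / 2)
    (by norm_num : (3 / 4 : ℝ) < 1)
  refine ⟨τ, max (θ ^ (p * (1 + j₀))) (4 / (c0 * (1 - τ))), hτ0, hτ1, ?_, hθ, ?_, ?_⟩
  · exact (one_le_pow₀ hθ.le).trans (le_max_left _ _)
  · intro k
    refine ⟨k / p + 1 + j₀, ?_, ?_⟩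
    · have h1 : (3 / 4 : ℝ) ^ (k / p + 1) ≤ τ ^ k := by
        rw [← hτp, ← pow_mul]
        apply pow_le_pow_of_le_one hτ0.le hτ1.le
        have := Nat.div_add_mod k p
        have h2 := Nat.mod_lt k hp0
        nlinarith
      rw [pow_add]
      calc (3 / 4 : ℝ) ^ (k / p + 1) * (3 / 4) ^ j₀ ≤ τ ^ k * ((1 - τ) / 2) := by
            gcongr
        _ = _ := by ring
    · have h1 : C0 ^ (2 * (k / p + 1 + j₀)) ≤ θ ^ (p * (k / p + 1 + j₀)) := by
        rw [pow_mul, pow_mul]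
        gcongr
      refine h1.trans ?_
      have h2 : p * (k / p + 1 + j₀) ≤ p * (1 + j₀) + k := by
        have := Nat.div_mul_le_self k p
        nlinarith
      calc θ ^ (p * (k / p + 1 + j₀)) ≤ θ ^ (p * (1 + j₀) + k) := pow_le_pow_right₀ hθ.le h2
        _ = θ ^ (p * (1 + j₀)) * θ ^ k := pow_add _ _ _
        _ ≤ _ := by
            gcongr
            exact le_max_left _ _
  · intro k
    have h1 : 1 ≤ (θ * τ) ^ k := one_le_pow₀ hθτ
    have h2 : 0 < c0 * (1 - τ) := mul_pos hc (by linarith)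
    have h3 : 4 / (c0 * (1 - τ)) ≤ max (θ ^ (p * (1 + j₀))) (4 / (c0 * (1 - τ))) := le_max_right _ _
    calc (1 : ℝ) ≤ (θ * τ) ^ k := h1
      _ = 4 / (c0 * (1 - τ)) * θ ^ k * (c0 * (1 - τ) * τ ^ k / 4) := by
          have h4 : (1 - τ) ≠ 0 := by linarith
          rw [mul_pow]
          field_simp
      _ ≤ _ := by gcongr

variable {C0 c0 θ τ A : ℝ}

theorem MG.RR_pos (G : MG C0 c0 θ τ A) {R : ℝ} (hR : 0 < R) (k : ℕ) : 0 < RR R τ k := by
  have := G.t0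
  unfold RR
  positivity

theorem MG.RR_gt (G : MG C0 c0 θ τ A) {R : ℝ} (hR : 0 < R) (k : ℕ) : R < RR R τ k := by
  have := pow_pos G.t0 k
  unfold RR
  nlinarith

theorem MG.RR_le (G : MG C0 c0 θ τ A) {R : ℝ} (hR : 0 < R) (k : ℕ) : RR R τ k ≤ 2 * R := by
  have := pow_le_one₀ G.t0.le G.t1.le (n := k)
  unfold RR
  nlinarith

theorem MG.RR_sub (_G : MG C0 c0 θ τ A) (R : ℝ) (k : ℕ) :
    RR R τ k - RR R τ (k + 1) = R * ((1 - τ) * τ ^ k) := by
  unfold RR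
  rw [pow_succ]
  ring

theorem MG.RR_anti (G : MG C0 c0 θ τ A) {R : ℝ} (hR : 0 < R) (k : ℕ) :
    RR R τ (k + 1) < RR R τ k := by
  have h1 := G.RR_sub R k
  have h2 : 0 < R * ((1 - τ) * τ ^ k) := by
    have := G.t0
    have := G.t1
    have h3 : 0 < 1 - τ := by linarith
    positivity
  linarith

theorem MG.RR_ball (G : MG C0 c0 θ τ A) {R : ℝ} (hR : 0 < R) (k : ℕ) (w : ℂ) :
    ball w (RR R τ (k + 1)) ⊆ ball w (RR R τ k) := ball_subset_ball (G.RR_anti hR k).le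

/-- Distortion between any two points of the smaller ball. -/
theorem MG.dist (G : MG C0 c0 θ τ A) (K : KC C0 c0) {R : ℝ} (hR : 0 < R) {k : ℕ} {w : ℂ}
    {g : ℂ → ℂ} (hu : Univ g w (RR R τ k)) {x y : ℂ} (hx : x ∈ ball w (RR R τ (k + 1)))
    (hy : y ∈ ball w (RR R τ (k + 1))) : ‖deriv g x‖ ≤ A * θ ^ k * ‖deriv g y‖ := by
  obtain ⟨j, hj1, hj2⟩ := G.key k
  have hk := G.RR_pos hR k
  have hb : ∀ x ∈ ball w (RR R τ (k + 1)), ‖x - w‖ ≤ RR R τ k * (1 - (3 / 4) ^ j) := by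
    intro x hx
    rw [mem_ball, dist_eq_norm] at hx
    have h1 := G.RR_sub R k
    have h2 : RR R τ k * (3 / 4) ^ j ≤ R * ((1 - τ) * τ ^ k) := by
      calc RR R τ k * (3 / 4) ^ j ≤ (2 * R) * ((1 - τ) * τ ^ k / 2) := by
            apply mul_le_mul (G.RR_le hR k) hj1 (by positivity) (by positivity)
        _ = _ := by ring
    rw [mul_sub, mul_one]
    linarith
  have h1 := (KC.radial K hk hu j x (hb x hx)).1
  have h2 := (KC.radial K hk hu j y (hb y hy)).2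
  have hC := K.one_le
  calc ‖deriv g x‖ ≤ C0 ^ j * ‖deriv g w‖ := h1
    _ ≤ C0 ^ j * (C0 ^ j * ‖deriv g y‖) := by gcongr
    _ = C0 ^ (2 * j) * ‖deriv g y‖ := by rw [two_mul, pow_add]; ring
    _ ≤ _ := by gcongr

/-- Lower bound for the displacement. -/
theorem MG.lower (G : MG C0 c0 θ τ A) (K : KC C0 c0) {R : ℝ} (hR : 0 < R) {k : ℕ} {w : ℂ}
    {g : ℂ → ℂ} (hu : Univ g w (RR R τ k)) {x y : ℂ} (hx : x ∈ ball w (RR R τ (k + 1)))
    (hy : y ∈ ball w (RR R τ (k + 1))) :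
    ‖deriv g y‖ * ‖x - y‖ ≤ A * θ ^ k * ‖g x - g y‖ := by
  rcases eq_or_ne x y with rfl | hxy
  · simp
  have hxy0 : 0 < ‖x - y‖ := norm_pos_iff.mpr (sub_ne_zero.mpr hxy)
  have hc := K.pos
  have hτ0 := G.t0
  have hτ1 : 0 < 1 - τ := by have := G.t1; linarith
  have hτk : 0 < τ ^ k := pow_pos hτ0 k
  have hτk1 : τ ^ k ≤ 1 := pow_le_one₀ hτ0.le G.t1.le
  set m : ℝ := R * ((1 - τ) * τ ^ k) with hm
  have hm0 : 0 < m := by positivity
  have hlow := G.low k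
  have hnd := norm_nonneg (deriv g y)
  have hAθ : 0 < A * θ ^ k := by
    have := G.A1
    have := G.th
    positivity
  rw [mem_ball, dist_eq_norm] at hx hy
  have hsub := G.RR_sub R k
  -- the radius
  set t : ℝ := min ‖x - y‖ m with ht
  have ht0 : 0 < t := lt_min hxy0 hm0
  have hu' : Univ g y t := by
    apply hu.mono
    intro v hv
    rw [mem_ball, dist_eq_norm] at hv ⊢
    have h1 : t ≤ m := min_le_right _ _
    calc ‖v - w‖ = ‖(v - y) + (y - w)‖ := by congr 1; ring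
      _ ≤ ‖v - y‖ + ‖y - w‖ := norm_add_le _ _
      _ < _ := by linarith
  have hxk : x ∈ ball w (RR R τ k) := by
    rw [mem_ball, dist_eq_norm]
    linarith
  have homit : ∀ v ∈ ball y t, g v ≠ g x := by
    intro v hv hgv
    have hv' : v ∈ ball w (RR R τ k) := by
      rw [mem_ball, dist_eq_norm] at hv ⊢
      have h1 : t ≤ m := min_le_right _ _
      calc ‖v - w‖ = ‖(v - y) + (y - w)‖ := by congr 1; ring
        _ ≤ ‖v - y‖ + ‖y - w‖ := norm_add_le _ _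
        _ < _ := by linarith
    have h1 := hu.2 hv' hxk hgv
    rw [h1, mem_ball, dist_eq_norm] at hv
    have h2 : t ≤ ‖x - y‖ := min_le_left _ _
    linarith
  have h1 := K.komit g y t ht0 hu' (g x) homit
  rw [norm_sub_rev] at h1
  have hxy4 : ‖x - y‖ ≤ 4 * R := by
    have h2 := G.RR_le hR (k + 1)
    calc ‖x - y‖ = ‖(x - w) - (y - w)‖ := by congr 1; ring
      _ ≤ ‖x - w‖ + ‖y - w‖ := norm_sub_le _ _
      _ ≤ 4 * R := by linarith
  -- `t ≥ (1-τ)τ^k/4 * ‖x-y‖`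
  have ht2 : (1 - τ) * τ ^ k / 4 * ‖x - y‖ ≤ t := by
    apply le_min
    · have h3 : (1 - τ) * τ ^ k / 4 ≤ 1 := by
        have : (1 - τ) * τ ^ k ≤ 1 * 1 := mul_le_mul (by linarith) hτk1 hτk.le (by norm_num)
        linarith
      nlinarith
    · calc (1 - τ) * τ ^ k / 4 * ‖x - y‖ ≤ (1 - τ) * τ ^ k / 4 * (4 * R) := by gcongr
        _ = m := by rw [hm]; ring
  calc ‖deriv g y‖ * ‖x - y‖ ≤ (A * θ ^ k * (c0 * (1 - τ) * τ ^ k / 4)) * (‖deriv g y‖ * ‖x - y‖) :=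
        le_mul_of_one_le_left (by positivity) hlow
    _ = A * θ ^ k * (c0 * ((1 - τ) * τ ^ k / 4 * ‖x - y‖) * ‖deriv g y‖) := by ring
    _ ≤ A * θ ^ k * (c0 * t * ‖deriv g y‖) := by gcongr
    _ ≤ A * θ ^ k * ‖g x - g y‖ := by gcongr

/-- Upper bound for the displacement. -/
theorem MG.upper (G : MG C0 c0 θ τ A) (K : KC C0 c0) {R : ℝ} (hR : 0 < R) {k : ℕ} {w : ℂ}
    {g : ℂ → ℂ} (hu : Univ g w (RR R τ k)) {x y : ℂ} (hx : x ∈ ball w (RR R τ (k + 1)))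
    (hy : y ∈ ball w (RR R τ (k + 1))) :
    ‖g x - g y‖ ≤ A * θ ^ k * ‖deriv g y‖ * ‖x - y‖ := by
  have hconv : Convex ℝ (ball w (RR R τ (k + 1))) := convex_ball _ _
  refine hconv.norm_image_sub_le_of_norm_deriv_le (𝕜 := ℂ) (f := g)
    (C := A * θ ^ k * ‖deriv g y‖) ?_ ?_ hy hx
  · intro v hv
    exact hu.1.differentiableAt (isOpen_ball.mem_nhds (G.RR_ball hR k w hv))
  · intro v hv
    exact G.dist K hR hu hv hy

/-- Distance to an omitted value. -/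
theorem MG.omit (G : MG C0 c0 θ τ A) (K : KC C0 c0) {R : ℝ} (hR : 0 < R) {k : ℕ} {w : ℂ}
    {g : ℂ → ℂ} (hu : Univ g w (RR R τ k)) {y : ℂ} (hy : ‖y - w‖ ≤ R / 8) {v : ℂ}
    (hv : ∀ x ∈ ball w (RR R τ (k + 1)), g x ≠ v) :
    ‖deriv g y‖ * R ≤ A * θ ^ k * ‖g y - v‖ := by
  have h1 := G.RR_gt hR (k + 1)
  have hu' : Univ g y (R / 2) := by
    apply hu.mono
    intro x hx
    rw [mem_ball, dist_eq_norm] at hx ⊢
    have h2 := G.RR_gt hR k
    calc ‖x - w‖ = ‖(x - y) + (y - w)‖ := by congr 1; ring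
      _ ≤ ‖x - y‖ + ‖y - w‖ := norm_add_le _ _
      _ < _ := by linarith
  have h2 := K.komit g y (R / 2) (by positivity) hu' v (by
    intro x hx
    apply hv
    rw [mem_ball, dist_eq_norm] at hx ⊢
    calc ‖x - w‖ = ‖(x - y) + (y - w)‖ := by congr 1; ring
      _ ≤ ‖x - y‖ + ‖y - w‖ := norm_add_le _ _
      _ < _ := by linarith)
  have hlow := G.low k
  have hτ0 := G.t0
  have hτ1 : 0 < 1 - τ := by have := G.t1; linarith
  have hτk : 0 < τ ^ k := pow_pos hτ0 k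
  have hτk1 : τ ^ k ≤ 1 := pow_le_one₀ hτ0.le G.t1.le
  have hc := K.pos
  have h3 : c0 * (1 - τ) * τ ^ k / 4 ≤ c0 / 2 := by
    have h4 : (1 - τ) * τ ^ k ≤ 1 * 1 := mul_le_mul (by linarith) hτk1 hτk.le (by norm_num)
    nlinarith
  have hnd := norm_nonneg (deriv g y)
  have hAθ : 0 < A * θ ^ k := by
    have := G.A1
    have := G.th
    positivity
  calc ‖deriv g y‖ * R ≤ (A * θ ^ k * (c0 * (1 - τ) * τ ^ k / 4)) * (‖deriv g y‖ * R) :=
        le_mul_of_one_le_left (by positivity) hlow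
    _ ≤ (A * θ ^ k * (c0 / 2)) * (‖deriv g y‖ * R) := by gcongr
    _ = A * θ ^ k * (c0 * (R / 2) * ‖deriv g y‖) := by ring
    _ ≤ A * θ ^ k * ‖g y - v‖ := by gcongr

end Pool.Agent.Y298.SH.CE
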