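import Mathlib
import Pool.Agent.Y298.SH.Cut
import Pool.Agent.Y298.CE.Kmar

/-!
# Trees of inverse branches over shrinking balls
-/

set_option autoImplicit false

open Set Filter Metric MeasureTheory

namespace Pool.Agent.Y298.SH.CE

open Pool.Agent.TH279.MD Pool.Agent.Y298.SH
open Pool.Agent.W746.LD (Univ KC exists_KC)

/-- one step: the roots of a branch -/
theorem root_sum {d : ℕ} (hd : 2 ≤ d) {c w : ℂ} {R : ℝ} {g h : ℂ → ℂ}
    (hh1 : DifferentiableOn ℂ h (ball w R)) (hh2 : ∀ x ∈ ball w R, h x ^ d = g x - c)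
    (hh3 : ∀ x ∈ ball w R, h x ≠ 0) (φ : ℂ → ENNReal) {x : ℂ} (hx : x ∈ ball w R) :
    ∑ ζ : (RU d), ENNReal.ofReal (‖deriv (fun y => (ζ : ℂ) * h y) x‖ ^ 2) * φ ((ζ : ℂ) * h x) =
      ENNReal.ofReal (‖deriv g x‖ ^ 2) * LE d c φ (g x) := by
  have hdR : (0 : ℝ) < d := by exact_mod_cast (by omega : 0 < d)
  rw [LE_root hd (hh2 x hx), Finset.sum_coe_sort (RU d)
    (fun ζ => ENNReal.ofReal (‖deriv (fun y => ζ * h y) x‖ ^ 2) * φ (ζ * h x)),
    ← mul_assoc, mul_comm (ENNReal.ofReal _) (∑ ζ ∈ RU d, _), mul_assoc,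
    ← ENNReal.ofReal_mul (by positivity), Finset.sum_mul]
  apply Finset.sum_congr rfl
  intro ζ hζ
  rw [mul_comm]
  congr 2
  have h1 : DifferentiableAt ℂ h x := hh1.differentiableAt (isOpen_ball.mem_nhds hx)
  rw [deriv_const_mul _ h1, norm_mul, RU_norm hd hζ, one_mul,
    deriv_root hh1 hh2 hx, norm_mul, norm_mul, norm_pow, Complex.norm_natCast]
  have h2 : 0 < ‖h x‖ := norm_pos_iff.mpr (hh3 x hx)
  rw [pow_mul' ‖h x‖ 2 (d - 1)]
  field_simp

/-- The families of inverse branches over shrinking balls. -/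
theorem fam' {d : ℕ} (hd : 2 ≤ d) (c w : ℂ) (Rk : ℕ → ℝ) (hRk : ∀ k, 0 < Rk k)
    (hanti : ∀ k, Rk (k + 1) ≤ Rk k) (T : ℂ → ENNReal)
    (hT : ∀ y, T y ≤ 1) (m : ℕ)
    (hit : ∀ j < m, ∀ g : ℂ → ℂ, DifferentiableOn ℂ g (ball w (Rk j)) →
      (∀ x ∈ ball w (Rk j), (f d c)^[j] (g x) = x) → (∃ ζ ∈ RU d, T (ζ * rt d (g w - c)) ≠ 0) →
      ∀ x ∈ ball w (Rk (j + 1)), g x ≠ c) :
    ∃ (ι : Type) (_ : Fintype ι) (g : ι → ℂ → ℂ), (∀ i, DifferentiableOn ℂ (g i) (ball w (Rk m))) ∧
      (∀ i, ∀ x ∈ ball w (Rk m), (f d c)^[m] (g i x) = x) ∧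
      (∀ φ : ℂ → ENNReal, (LT d T c)^[m] φ w ≤
        ∑ i, ENNReal.ofReal (‖deriv (g i) w‖ ^ 2) * φ (g i w)) ∧
      (∀ φ : ℂ → ENNReal, ∀ x ∈ ball w (Rk m),
        ∑ i, ENNReal.ofReal (‖deriv (g i) x‖ ^ 2) * φ (g i x) ≤ (LE d c)^[m] φ x) := by
  classical
  induction m with
  | zero =>
    refine ⟨Unit, inferInstance, fun _ x => x, fun _ => differentiableOn_id, fun _ x _ => rfl,
      ?_, ?_⟩
    · intro φ
      simp
    · intro φ x _
      simp
  | succ m ih =>
    obtain ⟨ι, _, g, hg, hgm, hup, hlow⟩ := ih (fun j hj => hit j (by omega))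
    have hsub : ball w (Rk (m + 1)) ⊆ ball w (Rk m) := ball_subset_ball (hanti m)
    have hwR : w ∈ ball w (Rk (m + 1)) := mem_ball_self (hRk _)
    have hroot : ∀ i : {i : ι // ∀ x ∈ ball w (Rk (m + 1)), g i x ≠ c}, ∃ h : ℂ → ℂ,
        DifferentiableOn ℂ h (ball w (Rk (m + 1))) ∧
        (∀ x ∈ ball w (Rk (m + 1)), h x ^ d = g i x - c) ∧
        ∀ x ∈ ball w (Rk (m + 1)), h x ≠ 0 := fun i =>
      exists_root_ball hd (hRk _) (((hg i).sub_const c).mono hsub)
        (fun x hx => sub_ne_zero.mpr (i.2 x hx))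
    choose h hh1 hh2 hh3 using hroot
    -- the key identity
    have key : ∀ (φ : ℂ → ENNReal), ∀ x ∈ ball w (Rk (m + 1)),
        ∑ p : {i : ι // ∀ x ∈ ball w (Rk (m + 1)), g i x ≠ c} × (RU d),
          ENNReal.ofReal (‖deriv (fun y => (p.2 : ℂ) * h p.1 y) x‖ ^ 2) *
            φ ((p.2 : ℂ) * h p.1 x) =
        ∑ i : {i : ι // ∀ x ∈ ball w (Rk (m + 1)), g i x ≠ c},
          ENNReal.ofReal (‖deriv (g i) x‖ ^ 2) * LE d c φ (g i x) := by
      intro φ x hx
      rw [Fintype.sum_prod_type]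
      apply Finset.sum_congr rfl
      intro i _
      exact root_sum hd (hh1 i) (hh2 i) (hh3 i) φ hx
    refine ⟨{i : ι // ∀ x ∈ ball w (Rk (m + 1)), g i x ≠ c} × (RU d), inferInstance,
      fun p y => (p.2 : ℂ) * h p.1 y, ?_, ?_, ?_, ?_⟩
    · intro p
      exact (hh1 p.1).const_mul _
    · intro p x hx
      beta_reduce
      rw [Function.iterate_succ_apply]
      have h1 : f d c ((p.2 : ℂ) * h p.1 x) = g p.1 x := by
        unfold f
        rw [mul_pow, (mem_RU hd).mp p.2.2, one_mul, hh2 p.1 x hx]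
        ring
      rw [h1, hgm _ x (hsub hx)]
    · intro φ
      rw [Function.iterate_succ_apply, key φ w hwR]
      refine (hup (LT d T c φ)).trans ?_
      have h1 : ∀ i : ι, ENNReal.ofReal (‖deriv (g i) w‖ ^ 2) * LT d T c φ (g i w) ≤
          if ∀ x ∈ ball w (Rk (m + 1)), g i x ≠ c then
            ENNReal.ofReal (‖deriv (g i) w‖ ^ 2) * LE d c φ (g i w) else 0 := by
        intro i
        split_ifs with hi
        · gcongr
          exact LT_le hT φ _
        · have h2 : ∀ ζ ∈ RU d, T (ζ * rt d (g i w - c)) = 0 := by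
            intro ζ hζ
            by_contra h3
            exact hi (hit m (by omega) (g i) (hg i) (hgm i) ⟨ζ, hζ, h3⟩)
          have h3 : LT d T c φ (g i w) = 0 := by
            unfold LT LE
            rw [Finset.sum_eq_zero, zero_mul]
            intro ζ hζ
            beta_reduce
            rw [h2 ζ hζ, zero_mul]
          rw [h3, mul_zero]
      refine (Finset.sum_le_sum fun i _ => h1 i).trans (le_of_eq ?_)
      rw [← Finset.sum_filter, ← Finset.sum_subtype_eq_sum_filter]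
      apply Finset.sum_congr _ (fun _ _ => rfl)
      ext i
      simp
    · intro φ x hx
      rw [Function.iterate_succ_apply, key φ x hx]
      refine le_trans ?_ (hlow (LE d c φ) x (hsub hx))
      calc ∑ i : {i : ι // ∀ x ∈ ball w (Rk (m + 1)), g i x ≠ c},
            ENNReal.ofReal (‖deriv (g i) x‖ ^ 2) * LE d c φ (g i x)
          = ∑ i with (∀ x ∈ ball w (Rk (m + 1)), g i x ≠ c),
            ENNReal.ofReal (‖deriv (g i) x‖ ^ 2) * LE d c φ (g i x) := by
              rw [← Finset.sum_subtype_eq_sum_filter]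
              apply Finset.sum_congr _ (fun _ _ => rfl)
              ext i
              simp
        _ ≤ ∑ i, ENNReal.ofReal (‖deriv (g i) x‖ ^ 2) * LE d c φ (g i x) :=
              Finset.sum_le_sum_of_subset (Finset.filter_subset _ _)

/-- The tree with the hits of the critical value treated separately. -/
theorem tree {d : ℕ} (hd : 2 ≤ d) (c w x' : ℂ) (Rk : ℕ → ℝ) (hRk : ∀ k, 0 < Rk k)
    (hanti : ∀ k, Rk (k + 1) ≤ Rk k) {S : ℕ → ℂ → ENNReal}
    (hS : ∀ M x, S (M + 1) x = 1 + LE d c (S M) x) (B : ℕ → ℂ → ENNReal) (X : Set ℂ)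
    (hX : ∀ k, X ⊆ ball w (Rk k)) (hx' : ∀ k, x' ∈ ball w (Rk k)) (C : ℝ)
    (hK : ∀ k, ∀ g : ℂ → ℂ, DifferentiableOn ℂ g (ball w (Rk k)) →
      (∀ x ∈ ball w (Rk k), (f d c)^[k] (g x) = x) → ∀ x ∈ X,
        ‖deriv g x‖ ^ 2 ≤ C * ‖deriv g x'‖ ^ 2) (hC : 0 ≤ C) (M : ℕ)
    (hB : ∀ k < M, ∀ g : ℂ → ℂ, DifferentiableOn ℂ g (ball w (Rk k)) →
      (∀ x ∈ ball w (Rk k), (f d c)^[k] (g x) = x) → (f d c)^[k] c ∈ ball w (Rk (k + 1)) →
      g ((f d c)^[k] c) = c → ∀ x ∈ X,
        ENNReal.ofReal (‖deriv g x‖ ^ 2) * LE d c (S (M - (k + 1))) (g x) ≤ B k x) (k : ℕ)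
    (hk : k ≤ M) :
    ∃ (ι : Type) (_ : Fintype ι) (g : ι → ℂ → ℂ), (∀ i, DifferentiableOn ℂ (g i) (ball w (Rk k))) ∧
      (∀ i, ∀ x ∈ ball w (Rk k), (f d c)^[k] (g i x) = x) ∧
      (∀ i i', i ≠ i' → ∀ x ∈ ball w (Rk k), g i x ≠ g i' x) ∧
      (∀ φ : ℂ → ENNReal, ∀ x ∈ ball w (Rk k),
        ∑ i, ENNReal.ofReal (‖deriv (g i) x‖ ^ 2) * φ (g i x) ≤ (LE d c)^[k] φ x) ∧
      (∀ x ∈ X, S M x ≤ ENNReal.ofReal C * ∑ j ∈ Finset.range k, UU d c j x' +
        ∑ i, ENNReal.ofReal (‖deriv (g i) x‖ ^ 2) * S (M - k) (g i x) +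
        ∑ j ∈ Finset.range k, B j x) := by
  classical
  induction k with
  | zero =>
    refine ⟨Unit, inferInstance, fun _ x => x, fun _ => differentiableOn_id, fun _ x _ => rfl,
      fun i i' h => absurd (Subsingleton.elim i i') h, ?_, ?_⟩
    · intro φ x _
      simp
    · intro x _
      simp
  | succ k ih =>
    obtain ⟨ι, _, g, hg, hgm, hdist, hlow, hmain⟩ := ih (by omega)
    have hsub : ball w (Rk (k + 1)) ⊆ ball w (Rk k) := ball_subset_ball (hanti k)
    have hroot : ∀ i : {i : ι // ∀ x ∈ ball w (Rk (k + 1)), g i x ≠ c}, ∃ h : ℂ → ℂ,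
        DifferentiableOn ℂ h (ball w (Rk (k + 1))) ∧
        (∀ x ∈ ball w (Rk (k + 1)), h x ^ d = g i x - c) ∧
        ∀ x ∈ ball w (Rk (k + 1)), h x ≠ 0 := fun i =>
      exists_root_ball hd (hRk _) (((hg i).sub_const c).mono hsub)
        (fun x hx => sub_ne_zero.mpr (i.2 x hx))
    choose h hh1 hh2 hh3 using hroot
    -- the key identity
    have key : ∀ (φ : ℂ → ENNReal), ∀ x ∈ ball w (Rk (k + 1)),
        ∑ p : {i : ι // ∀ x ∈ ball w (Rk (k + 1)), g i x ≠ c} × (RU d),
          ENNReal.ofReal (‖deriv (fun y => (p.2 : ℂ) * h p.1 y) x‖ ^ 2) *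
            φ ((p.2 : ℂ) * h p.1 x) =
        ∑ i : {i : ι // ∀ x ∈ ball w (Rk (k + 1)), g i x ≠ c},
          ENNReal.ofReal (‖deriv (g i) x‖ ^ 2) * LE d c φ (g i x) := by
      intro φ x hx
      rw [Fintype.sum_prod_type]
      apply Finset.sum_congr rfl
      intro i _
      exact root_sum hd (hh1 i) (hh2 i) (hh3 i) φ hx
    refine ⟨{i : ι // ∀ x ∈ ball w (Rk (k + 1)), g i x ≠ c} × (RU d), inferInstance,
      fun p y => (p.2 : ℂ) * h p.1 y, ?_, ?_, ?_, ?_, ?_⟩
    · intro p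
      exact (hh1 p.1).const_mul _
    · intro p x hx
      beta_reduce
      rw [Function.iterate_succ_apply]
      have h1 : f d c ((p.2 : ℂ) * h p.1 x) = g p.1 x := by
        unfold f
        rw [mul_pow, (mem_RU hd).mp p.2.2, one_mul, hh2 p.1 x hx]
        ring
      rw [h1, hgm _ x (hsub hx)]
    · rintro ⟨i, ζ⟩ ⟨i', ζ'⟩ hne x hx heq
      beta_reduce at heq
      dsimp only at heq
      have h1 : ((ζ : ℂ) * h i x) ^ d = ((ζ' : ℂ) * h i' x) ^ d := by rw [heq]
      rw [mul_pow, mul_pow, (mem_RU hd).mp ζ.2, (mem_RU hd).mp ζ'.2, one_mul, one_mul,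
        hh2 i x hx, hh2 i' x hx, sub_left_inj] at h1
      have h2 : i = i' := by
        by_contra h3
        exact hdist i i' (fun h4 => h3 (Subtype.ext h4)) x (hsub hx) h1
      subst h2
      have h3 : (ζ : ℂ) = ζ' := mul_right_cancel₀ (hh3 i x hx) heq
      exact hne (by rw [Subtype.ext h3])
    · intro φ x hx
      rw [Function.iterate_succ_apply, key φ x hx]
      refine le_trans ?_ (hlow (LE d c φ) x (hsub hx))
      calc ∑ i : {i : ι // ∀ x ∈ ball w (Rk (k + 1)), g i x ≠ c},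
            ENNReal.ofReal (‖deriv (g i) x‖ ^ 2) * LE d c φ (g i x)
          = ∑ i with (∀ x ∈ ball w (Rk (k + 1)), g i x ≠ c),
            ENNReal.ofReal (‖deriv (g i) x‖ ^ 2) * LE d c φ (g i x) := by
              rw [← Finset.sum_subtype_eq_sum_filter]
              apply Finset.sum_congr _ (fun _ _ => rfl)
              ext i
              simp
        _ ≤ ∑ i, ENNReal.ofReal (‖deriv (g i) x‖ ^ 2) * LE d c φ (g i x) :=
              Finset.sum_le_sum_of_subset (Finset.filter_subset _ _)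
    · intro x hx
      refine (hmain x hx).trans ?_
      have hMk : M - k = (M - (k + 1)) + 1 := by omega
      have e1 : ∀ i, S (M - k) (g i x) = 1 + LE d c (S (M - (k + 1))) (g i x) := by
        intro i
        rw [hMk, hS]
      simp only [e1, mul_add, mul_one]
      rw [Finset.sum_add_distrib, Finset.sum_range_succ, Finset.sum_range_succ]
      -- the constant term
      have h1 : ∑ i, ENNReal.ofReal (‖deriv (g i) x‖ ^ 2) ≤ ENNReal.ofReal C * UU d c k x' := by
        have h2 := hlow (fun _ => 1) x' (hx' k)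
        calc ∑ i, ENNReal.ofReal (‖deriv (g i) x‖ ^ 2)
            ≤ ∑ i, ENNReal.ofReal C * (ENNReal.ofReal (‖deriv (g i) x'‖ ^ 2) * 1) := by
              apply Finset.sum_le_sum
              intro i _
              rw [mul_one, ← ENNReal.ofReal_mul hC]
              exact ENNReal.ofReal_le_ofReal (hK k (g i) (hg i) (hgm i) x hx)
          _ = ENNReal.ofReal C * ∑ i, ENNReal.ofReal (‖deriv (g i) x'‖ ^ 2) * 1 := by
              rw [Finset.mul_sum]
          _ ≤ _ := by
              gcongr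
              exact h2
      -- the remaining terms
      have h2 : ∑ i, ENNReal.ofReal (‖deriv (g i) x‖ ^ 2) * LE d c (S (M - (k + 1))) (g i x) ≤
          (∑ p : {i : ι // ∀ x ∈ ball w (Rk (k + 1)), g i x ≠ c} × (RU d),
            ENNReal.ofReal (‖deriv (fun y => (p.2 : ℂ) * h p.1 y) x‖ ^ 2) *
              S (M - (k + 1)) ((p.2 : ℂ) * h p.1 x)) + B k x := by
        rw [key _ x (hX (k + 1) hx)]
        rw [← Finset.sum_filter_add_sum_filter_not Finset.univ
          (fun i => ∀ x ∈ ball w (Rk (k + 1)), g i x ≠ c)]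
        gcongr
        · apply le_of_eq
          rw [← Finset.sum_subtype_eq_sum_filter]
          apply Finset.sum_congr _ (fun _ _ => rfl)
          ext i
          simp
        · -- at most one hit
          have h3 : ∀ i ∈ Finset.filter (fun i => ¬ ∀ x ∈ ball w (Rk (k + 1)), g i x ≠ c)
              (Finset.univ : Finset ι), (f d c)^[k] c ∈ ball w (Rk (k + 1)) ∧
                g i ((f d c)^[k] c) = c := by
            intro i hi
            have h4 := (Finset.mem_filter.mp hi).2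
            push Not at h4
            obtain ⟨y, hy, hyc⟩ := h4
            have h5 := hgm i y (hsub hy)
            rw [hyc] at h5
            rw [h5]
            exact ⟨hy, hyc⟩
          rcases (Finset.filter (fun i => ¬ ∀ x ∈ ball w (Rk (k + 1)), g i x ≠ c)
              (Finset.univ : Finset ι)).eq_empty_or_nonempty with h4 | ⟨i₀, hi₀⟩
          · rw [h4, Finset.sum_empty]
            exact bot_le
          · have h5 : Finset.filter (fun i => ¬ ∀ x ∈ ball w (Rk (k + 1)), g i x ≠ c)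
                (Finset.univ : Finset ι) = {i₀} := by
              rw [Finset.eq_singleton_iff_unique_mem]
              refine ⟨hi₀, ?_⟩
              intro i hi
              by_contra h6
              obtain ⟨h7, h8⟩ := h3 i hi
              obtain ⟨-, h9⟩ := h3 i₀ hi₀
              exact hdist i i₀ h6 _ (hsub h7) (by rw [h8, h9])
            rw [h5, Finset.sum_singleton]
            obtain ⟨h7, h8⟩ := h3 i₀ hi₀
            exact hB k (by omega) (g i₀) (hg i₀) (hgm i₀) h7 h8 x hx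
      calc ENNReal.ofReal C * ∑ j ∈ Finset.range k, UU d c j x' +
            (∑ i, ENNReal.ofReal (‖deriv (g i) x‖ ^ 2) +
              ∑ i, ENNReal.ofReal (‖deriv (g i) x‖ ^ 2) * LE d c (S (M - (k + 1))) (g i x)) +
            ∑ j ∈ Finset.range k, B j x
          ≤ ENNReal.ofReal C * ∑ j ∈ Finset.range k, UU d c j x' +
            (ENNReal.ofReal C * UU d c k x' +
              ((∑ p : {i : ι // ∀ x ∈ ball w (Rk (k + 1)), g i x ≠ c} × (RU d),
                ENNReal.ofReal (‖deriv (fun y => (p.2 : ℂ) * h p.1 y) x‖ ^ 2) *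
                  S (M - (k + 1)) ((p.2 : ℂ) * h p.1 x)) + B k x)) +
            ∑ j ∈ Finset.range k, B j x := by gcongr
        _ = _ := by
            rw [mul_add]
            ring

end Pool.Agent.Y298.SH.CE
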