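import Mathlib
import Pool.Agent.Y298.CE.Tree
import Pool.Agent.Y298.SH.Trans2

/-!
# Estimates for a branch which hits the critical value (degree two)
-/

set_option autoImplicit false

open Set Filter Metric MeasureTheory

namespace Pool.Agent.Y298.SH.CE

open Pool.Agent.TH279.MD Pool.Agent.Y298.SH
open Pool.Agent.W746.LD (Univ KC exists_KC)

/-- The orbit of the critical value. -/
def zz (c : ℂ) (k : ℕ) : ℂ := (f 2 c)^[k] c

/-- The derivatives along the orbit of the critical value. -/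
noncomputable def Pd (c : ℂ) (k : ℕ) : ℝ := ‖deriv ((f 2 c)^[k]) c‖

theorem zz_zero (c : ℂ) : zz c 0 = c := rfl

theorem f_two (c z : ℂ) : f 2 c z = z ^ 2 + c := rfl

theorem zz_succ (c : ℂ) (k : ℕ) : zz c (k + 1) = zz c k ^ 2 + c := by
  unfold zz
  rw [Function.iterate_succ_apply']
  rfl

theorem zz_add (c : ℂ) (m k : ℕ) : (f 2 c)^[m] (zz c k) = zz c (m + k) := by
  unfold zz
  rw [Function.iterate_add_apply]

theorem Pd_zero (c : ℂ) : Pd c 0 = 1 := by simp [Pd]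

theorem Pd_nonneg (c : ℂ) (k : ℕ) : 0 ≤ Pd c k := norm_nonneg _

theorem Pd_succ (c : ℂ) (k : ℕ) : Pd c (k + 1) = 2 * ‖zz c k‖ * Pd c k := by
  unfold Pd zz
  rw [add_comm, deriv_iter_add, Function.iterate_one, deriv_f, norm_mul, norm_mul]
  norm_num

theorem Pd_add (c : ℂ) (m k : ℕ) : Pd c (m + k) = ‖deriv ((f 2 c)^[m]) (zz c k)‖ * Pd c k := by
  unfold Pd zz
  rw [deriv_iter_add, norm_mul]

/-- derivative of a branch -/
theorem branch_deriv {c w : ℂ} {R : ℝ} {k : ℕ} {g : ℂ → ℂ}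
    (hg : DifferentiableOn ℂ g (ball w R)) (hgk : ∀ x ∈ ball w R, (f 2 c)^[k] (g x) = x) {x : ℂ}
    (hx : x ∈ ball w R) : ‖deriv ((f 2 c)^[k]) (g x)‖ * ‖deriv g x‖ = 1 := by
  have h1 : DifferentiableAt ℂ g x := hg.differentiableAt (isOpen_ball.mem_nhds hx)
  have h2 : deriv ((f 2 c)^[k] ∘ g) x = deriv ((f 2 c)^[k]) (g x) * deriv g x :=
    deriv_comp x (differentiable_fn 2 c k _) h1
  have h3 : (f 2 c)^[k] ∘ g =ᶠ[nhds x] id := by
    filter_upwards [isOpen_ball.mem_nhds hx] with y hy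
    exact hgk y hy
  have h4 : deriv ((f 2 c)^[k] ∘ g) x = 1 := by
    rw [h3.deriv_eq]
    simp
  rw [← norm_mul, ← h2, h4, norm_one]

theorem RU_two : RU 2 = {1, -1} := by
  ext z
  rw [mem_RU le_rfl, Finset.mem_insert, Finset.mem_singleton]
  constructor
  · intro h
    have h1 : z ^ 2 = 1 ^ 2 := by rw [h, one_pow]
    exact sq_eq_sq_iff_eq_or_eq_neg.mp h1
  · rintro (h | h) <;> rw [h] <;> norm_num

theorem LE_two {c h w : ℂ} (hw : h ^ 2 = w - c) (φ : ℂ → ENNReal) :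
    LE 2 c φ w = (φ h + φ (-h)) * ENNReal.ofReal (1 / (4 * ‖h‖ ^ 2)) := by
  rw [LE_root le_rfl hw, RU_two, Finset.sum_pair (by norm_num : (1 : ℂ) ≠ -1)]
  norm_num

variable {C0 c0 θ τ A : ℝ}

/-- The data of a hit at time `k`. -/
structure HitAt (c w : ℂ) (R τ : ℝ) (k : ℕ) (g : ℂ → ℂ) : Prop where
  diff : DifferentiableOn ℂ g (ball w (RR R τ k))
  inv : ∀ x ∈ ball w (RR R τ k), (f 2 c)^[k] (g x) = x
  mem : zz c k ∈ ball w (RR R τ (k + 1))
  val : g (zz c k) = c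

theorem HitAt.univ {c w : ℂ} {R : ℝ} {k : ℕ} {g : ℂ → ℂ} (H : HitAt c w R τ k g) :
    Univ g w (RR R τ k) := univ_branch H.diff H.inv

theorem HitAt.deriv_val (G : MG C0 c0 θ τ A) {c w : ℂ} {R : ℝ} (hR : 0 < R) {k : ℕ} {g : ℂ → ℂ}
    (H : HitAt c w R τ k g) : Pd c k * ‖deriv g (zz c k)‖ = 1 := by
  have h := branch_deriv H.diff H.inv (G.RR_ball hR k w H.mem)
  rw [H.val] at h
  exact h

/-- the constant `Q` -/
theorem MG.Q_pos (G : MG C0 c0 θ τ A) (k : ℕ) : 1 ≤ A * θ ^ k := by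
  have h1 : 1 ≤ θ ^ k := one_le_pow₀ G.th.le
  have h2 := G.A1
  nlinarith

theorem mem_small (G : MG C0 c0 θ τ A) {R : ℝ} (hR : 0 < R) {w y : ℂ} (hy : ‖y - w‖ ≤ R / 8)
    (k : ℕ) : y ∈ ball w (RR R τ k) := by
  rw [mem_ball, dist_eq_norm]
  have := G.RR_gt hR k
  linarith

theorem HitAt.est (G : MG C0 c0 θ τ A) (K : KC C0 c0) {c w : ℂ} {R : ℝ} (hR : 0 < R) {k : ℕ}
    {g : ℂ → ℂ} (H : HitAt c w R τ k g) (hP : 0 < Pd c k) {y : ℂ} (hy : ‖y - w‖ ≤ R / 8)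
    {h : ℂ} (hh : h ^ 2 = g y - c) :
    ‖deriv g y‖ ≤ A * θ ^ k / Pd c k ∧ 1 / (A * θ ^ k * Pd c k) ≤ ‖deriv g y‖ ∧
    ‖h‖ ^ 2 ≤ A * θ ^ k / Pd c k * ‖y - zz c k‖ ∧
    ‖h‖ ^ 2 ≤ 3 * R * (A * θ ^ k) / Pd c k ∧
    ‖y - zz c k‖ ≤ (A * θ ^ k) ^ 2 * Pd c k * ‖h‖ ^ 2 := by
  have hQ := G.Q_pos k
  have hQ0 : 0 < A * θ ^ k := by linarith
  have hyk := mem_small G hR hy (k + 1)
  have hd := H.deriv_val G hR
  have h1 := G.dist K hR H.univ hyk H.mem
  have h2 := G.dist K hR H.univ H.mem hyk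
  have hdz : ‖deriv g (zz c k)‖ = 1 / Pd c k := by
    rw [eq_div_iff hP.ne']
    linarith
  rw [hdz] at h1 h2
  have e1 : ‖h‖ ^ 2 = ‖g y - g (zz c k)‖ := by rw [← norm_pow, hh, H.val]
  have h3 := G.upper K hR H.univ hyk H.mem
  rw [← e1, hdz] at h3
  have h4 := G.lower K hR H.univ H.mem hyk
  rw [norm_sub_rev (g (zz c k)), ← e1] at h4
  have h5 : 1 / (A * θ ^ k * Pd c k) ≤ ‖deriv g y‖ := by
    rw [div_le_iff₀ (by positivity)]
    rw [div_le_iff₀ hP] at h2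
    linarith
  have h6 : ‖h‖ ^ 2 ≤ A * θ ^ k / Pd c k * ‖y - zz c k‖ := by
    refine h3.trans (le_of_eq ?_)
    ring
  have h7 : ‖y - zz c k‖ ≤ 3 * R := by
    have h8 := H.mem
    rw [mem_ball, dist_eq_norm] at h8
    have h9 := G.RR_le hR (k + 1)
    calc ‖y - zz c k‖ = ‖(y - w) - (zz c k - w)‖ := by congr 1; ring
      _ ≤ ‖y - w‖ + ‖zz c k - w‖ := norm_sub_le _ _
      _ ≤ _ := by linarith
  refine ⟨h1.trans (le_of_eq (by ring)), h5, h6, ?_, ?_⟩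
  · refine h6.trans ?_
    calc A * θ ^ k / Pd c k * ‖y - zz c k‖ ≤ A * θ ^ k / Pd c k * (3 * R) := by gcongr
      _ = _ := by ring
  · have h8 : 1 / (A * θ ^ k * Pd c k) * ‖zz c k - y‖ ≤ A * θ ^ k * ‖h‖ ^ 2 :=
      (mul_le_mul_of_nonneg_right h5 (norm_nonneg _)).trans h4
    rw [norm_sub_rev, div_mul_eq_mul_div, one_mul, div_le_iff₀ (by positivity)] at h8
    linarith

/-- **Transport of a singularity by a hitting branch.** -/
theorem HitAt.transport (G : MG C0 c0 θ τ A) (K : KC C0 c0) {c : ℂ} {R : ℝ} (hR : 0 < R) {k : ℕ}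
    {g : ℂ → ℂ} (H : HitAt c 0 R τ k g) (hP : ∀ j, 0 < Pd c j) {y : ℂ} (hy : ‖y‖ ≤ R / 8)
    (hyk : y ≠ zz c k) {h : ℂ} (hh : h ^ 2 = g y - c) (i : ℕ) (hzi : zz c i ≠ 0)
    (hhi : h ≠ zz c i) :
    (‖deriv g y‖ ^ 2 / (4 * ‖h‖ ^ 2) / ‖h - zz c i‖ ≤
      8 * (A * θ ^ k) ^ 7 / (‖zz c i‖ * Pd c k * ‖y - zz c k‖)) ∨
    (‖zz c (k + 1 + i)‖ < 2 * R ∧ y ≠ zz c (k + 1 + i) ∧
      ‖deriv g y‖ ^ 2 / (4 * ‖h‖ ^ 2) / ‖h - zz c i‖ ≤
      5 * (A * θ ^ k) ^ 8 * (Pd c i / Pd c (k + 1 + i)) / ‖y - zz c (k + 1 + i)‖) := by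
  set Q : ℝ := A * θ ^ k with hQ
  have hQ1 : 1 ≤ Q := G.Q_pos k
  have hQ0 : 0 < Q := by linarith
  have hPk := hP k
  obtain ⟨E1, E2, E3, E4, E5⟩ := H.est G K hR hPk (by rwa [sub_zero]) hh
  rw [← hQ] at E1 E2 E3 E4 E5
  have hyk0 : 0 < ‖y - zz c k‖ := norm_pos_iff.mpr (sub_ne_zero.mpr hyk)
  have hzi0 : 0 < ‖zz c i‖ := norm_pos_iff.mpr hzi
  have ha0 : 0 < ‖h - zz c i‖ := norm_pos_iff.mpr (sub_ne_zero.mpr hhi)
  have hh0 : 0 < ‖h‖ ^ 2 := by
    have h1 : 0 < Q ^ 2 * Pd c k * ‖h‖ ^ 2 := hyk0.trans_le E5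
    by_contra hcon
    have h2 : ‖h‖ ^ 2 = 0 := le_antisymm (not_lt.mp hcon) (by positivity)
    rw [h2, mul_zero] at h1
    exact lt_irrefl _ h1
  -- the prefactor
  have hpre : ‖deriv g y‖ ^ 2 / (4 * ‖h‖ ^ 2) ≤ Q ^ 4 / (4 * Pd c k * ‖y - zz c k‖) := by
    rw [div_le_div_iff₀ (by positivity) (by positivity)]
    have h1 : ‖deriv g y‖ ^ 2 ≤ (Q / Pd c k) ^ 2 := by gcongr
    calc ‖deriv g y‖ ^ 2 * (4 * Pd c k * ‖y - zz c k‖)
        ≤ (Q / Pd c k) ^ 2 * (4 * Pd c k * (Q ^ 2 * Pd c k * ‖h‖ ^ 2)) := by gcongr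
      _ = Q ^ 4 * (4 * ‖h‖ ^ 2) := by field_simp
  have hpre0 : 0 ≤ ‖deriv g y‖ ^ 2 / (4 * ‖h‖ ^ 2) := by positivity
  have hone : ∀ n : ℕ, n ≤ 7 → Q ^ n ≤ Q ^ 7 := fun n hn => pow_le_pow_right₀ hQ1 hn
  by_cases hcase : ‖zz c i‖ / 2 ≤ ‖h - zz c i‖
  · left
    have h1 : 1 / ‖h - zz c i‖ ≤ 2 / ‖zz c i‖ := by
      rw [div_le_div_iff₀ ha0 hzi0]
      linarith
    calc ‖deriv g y‖ ^ 2 / (4 * ‖h‖ ^ 2) / ‖h - zz c i‖
        = ‖deriv g y‖ ^ 2 / (4 * ‖h‖ ^ 2) * (1 / ‖h - zz c i‖) := by ring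
      _ ≤ Q ^ 4 / (4 * Pd c k * ‖y - zz c k‖) * (2 / ‖zz c i‖) := by gcongr
      _ = (1 / 2) * Q ^ 4 / (‖zz c i‖ * Pd c k * ‖y - zz c k‖) := by field_simp; norm_num
      _ ≤ 8 * Q ^ 7 / (‖zz c i‖ * Pd c k * ‖y - zz c k‖) := by
          have := hone 4 (by norm_num)
          have h7 : 0 < Q ^ 7 := by positivity
          gcongr
          norm_num
  · rw [not_le] at hcase
    -- sizes
    have hhl : ‖zz c i‖ / 2 ≤ ‖h‖ := by
      have h1 : ‖zz c i‖ ≤ ‖h‖ + ‖h - zz c i‖ := by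
        calc ‖zz c i‖ = ‖h - (h - zz c i)‖ := by congr 1; ring
          _ ≤ _ := norm_sub_le _ _
      linarith
    have hhu : ‖h + zz c i‖ ≤ 5 / 2 * ‖zz c i‖ := by
      calc ‖h + zz c i‖ = ‖(h - zz c i) + 2 * zz c i‖ := by congr 1; ring
        _ ≤ ‖h - zz c i‖ + ‖2 * zz c i‖ := norm_add_le _ _
        _ = ‖h - zz c i‖ + 2 * ‖zz c i‖ := by rw [norm_mul]; norm_num
        _ ≤ _ := by linarith
    have hprod : ‖g y - zz c (i + 1)‖ ≤ 5 / 2 * ‖zz c i‖ * ‖h - zz c i‖ := by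
      have h1 : g y - zz c (i + 1) = (h + zz c i) * (h - zz c i) := by
        rw [zz_succ]
        have : g y = h ^ 2 + c := by rw [hh]; ring
        rw [this]
        ring
      rw [h1, norm_mul]
      gcongr
    have hsq : ‖zz c i‖ ^ 2 ≤ 4 * ‖h‖ ^ 2 := by nlinarith
    by_cases hin : ∃ x ∈ ball (0 : ℂ) (RR R τ (k + 1)), g x = zz c (i + 1)
    · right
      obtain ⟨x, hx, hgx⟩ := hin
      have hxk := G.RR_ball hR k 0 hx
      have hxz : x = zz c (k + 1 + i) := by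
        have h1 := H.inv x hxk
        rw [hgx, zz_add] at h1
        rw [← h1]
        congr 1
        omega
      have hx2 : ‖zz c (k + 1 + i)‖ < 2 * R := by
        rw [← hxz]
        rw [mem_ball_zero_iff] at hx
        exact hx.trans_le (G.RR_le hR (k + 1))
      have hyx : y ≠ x := by
        rintro rfl
        have h1 : g y - c = zz c i ^ 2 := by
          rw [hgx, zz_succ]
          ring
        rw [← hh] at h1
        rcases sq_eq_sq_iff_eq_or_eq_neg.mp h1 with h2 | h2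
        · exact hhi h2
        · rw [h2] at hcase
          have h3 : ‖-zz c i - zz c i‖ = 2 * ‖zz c i‖ := by
            rw [show -zz c i - zz c i = -(2 * zz c i) by ring, norm_neg, norm_mul]
            norm_num
          rw [h3] at hcase
          linarith
      have hyx0 : 0 < ‖y - x‖ := norm_pos_iff.mpr (sub_ne_zero.mpr hyx)
      refine ⟨hx2, by rwa [← hxz], ?_⟩
      -- lower bound
      have hyk' := mem_small G hR (w := 0) (y := y) (by rwa [sub_zero]) (k + 1)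
      have h1 := G.lower K hR H.univ hx hyk'
      rw [hgx, norm_sub_rev (zz c (i + 1)), norm_sub_rev x] at h1
      have h2 : ‖y - x‖ ≤ Q ^ 2 * Pd c k * (5 / 2 * ‖zz c i‖ * ‖h - zz c i‖) := by
        have h3 : 1 / (Q * Pd c k) * ‖y - x‖ ≤ Q * (5 / 2 * ‖zz c i‖ * ‖h - zz c i‖) :=
          (mul_le_mul_of_nonneg_right E2 (norm_nonneg _)).trans
            (h1.trans (mul_le_mul_of_nonneg_left hprod hQ0.le))
        rw [div_mul_eq_mul_div, one_mul, div_le_iff₀ (by positivity)] at h3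
        linarith
      -- the derivative at the singularity
      have h4 := branch_deriv H.diff H.inv hxk
      rw [hgx] at h4
      have h5 : 1 / (Q * Pd c k) ≤ ‖deriv g x‖ := by
        have h6 := G.dist K hR H.univ H.mem hx
        have h7 := H.deriv_val G hR
        rw [div_le_iff₀ (by positivity)]
        calc (1 : ℝ) = Pd c k * ‖deriv g (zz c k)‖ := h7.symm
          _ ≤ Pd c k * (Q * ‖deriv g x‖) := by gcongr
          _ = _ := by ring
      have h6 : ‖deriv ((f 2 c)^[k]) (zz c (i + 1))‖ ≤ Q * Pd c k := by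
        have h7 : 0 < ‖deriv g x‖ := lt_of_lt_of_le (by positivity) h5
        have h8 : ‖deriv ((f 2 c)^[k]) (zz c (i + 1))‖ = 1 / ‖deriv g x‖ := by
          rw [eq_div_iff h7.ne']
          exact h4
        rw [h8, div_le_iff₀ h7]
        rw [div_le_iff₀ (by positivity)] at h5
        linarith
      have h7 : Pd c (k + 1 + i) ≤ 2 * ‖zz c i‖ * Pd c i * (Q * Pd c k) := by
        rw [show k + 1 + i = k + (i + 1) by ring, Pd_add, Pd_succ]
        have := Pd_nonneg c i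
        calc ‖deriv ((f 2 c)^[k]) (zz c (i + 1))‖ * (2 * ‖zz c i‖ * Pd c i)
            ≤ (Q * Pd c k) * (2 * ‖zz c i‖ * Pd c i) := by gcongr
          _ = _ := by ring
      rw [← hxz]
      have hPi := hP i
      have hPl := hP (k + 1 + i)
      -- `‖y - z_k‖` from below
      have h8 : ‖zz c i‖ ^ 2 * Pd c k ≤ 4 * Q * ‖y - zz c k‖ := by
        have h9 : ‖h‖ ^ 2 * Pd c k ≤ Q * ‖y - zz c k‖ := by
          have := mul_le_mul_of_nonneg_right E3 hPk.le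
          calc ‖h‖ ^ 2 * Pd c k ≤ Q / Pd c k * ‖y - zz c k‖ * Pd c k := this
            _ = _ := by field_simp
        nlinarith
      calc ‖deriv g y‖ ^ 2 / (4 * ‖h‖ ^ 2) / ‖h - zz c i‖
          ≤ Q ^ 4 / (4 * Pd c k * ‖y - zz c k‖) / ‖h - zz c i‖ := by gcongr
        _ ≤ Q ^ 4 / (4 * Pd c k * ‖y - zz c k‖) / (‖y - x‖ / (Q ^ 2 * Pd c k * (5 / 2 * ‖zz c i‖))) := by
            gcongr
            rw [div_le_iff₀ (by positivity)]
            linarith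
        _ = 5 / 8 * Q ^ 6 * ‖zz c i‖ / (‖y - zz c k‖ * ‖y - x‖) := by field_simp; norm_num
        _ ≤ 5 / 8 * Q ^ 6 * ‖zz c i‖ / ((‖zz c i‖ ^ 2 * Pd c k / (4 * Q)) * ‖y - x‖) := by
            gcongr
            rw [div_le_iff₀ (by positivity)]
            linarith
        _ = 5 / 2 * Q ^ 7 / (‖zz c i‖ * Pd c k) / ‖y - x‖ := by field_simp; norm_num
        _ ≤ 5 * Q ^ 8 * (Pd c i / Pd c (k + 1 + i)) / ‖y - x‖ := by
            gcongr ?_ / _
            rw [mul_div_assoc', div_le_div_iff₀ (by positivity) hPl]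
            calc 5 / 2 * Q ^ 7 * Pd c (k + 1 + i)
                ≤ 5 / 2 * Q ^ 7 * (2 * ‖zz c i‖ * Pd c i * (Q * Pd c k)) := by gcongr
              _ = 5 * Q ^ 8 * Pd c i * (‖zz c i‖ * Pd c k) := by ring
    · left
      push Not at hin
      have h1 := G.omit K hR H.univ (by rwa [sub_zero]) hin
      have h2 : R ≤ Q ^ 2 * Pd c k * (5 / 2 * ‖zz c i‖ * ‖h - zz c i‖) := by
        have h3 : 1 / (Q * Pd c k) * R ≤ Q * (5 / 2 * ‖zz c i‖ * ‖h - zz c i‖) :=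
          (mul_le_mul_of_nonneg_right E2 hR.le).trans
            (h1.trans (mul_le_mul_of_nonneg_left hprod hQ0.le))
        rw [div_mul_eq_mul_div, one_mul, div_le_iff₀ (by positivity)] at h3
        linarith
      have h4 : ‖zz c i‖ ^ 2 * Pd c k ≤ 12 * R * Q := by
        have h9 : ‖h‖ ^ 2 * Pd c k ≤ 3 * R * Q := by
          have := mul_le_mul_of_nonneg_right E4 hPk.le
          calc ‖h‖ ^ 2 * Pd c k ≤ 3 * R * Q / Pd c k * Pd c k := this
            _ = _ := by field_simp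
        nlinarith
      -- `‖z_i‖ ≤ 30 Q^3 ‖h - z_i‖`
      have h5 : ‖zz c i‖ ≤ 30 * Q ^ 3 * ‖h - zz c i‖ := by
        have h6 : ‖zz c i‖ ^ 2 * Pd c k ≤
            12 * (Q ^ 2 * Pd c k * (5 / 2 * ‖zz c i‖ * ‖h - zz c i‖)) * Q := by
          refine h4.trans ?_
          gcongr
        have h7 : ‖zz c i‖ * (‖zz c i‖ * Pd c k) ≤
            (30 * Q ^ 3 * ‖h - zz c i‖) * (‖zz c i‖ * Pd c k) := by
          calc ‖zz c i‖ * (‖zz c i‖ * Pd c k) = ‖zz c i‖ ^ 2 * Pd c k := by ring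
            _ ≤ _ := h6
            _ = _ := by ring
        exact le_of_mul_le_mul_right h7 (by positivity)
      calc ‖deriv g y‖ ^ 2 / (4 * ‖h‖ ^ 2) / ‖h - zz c i‖
          ≤ Q ^ 4 / (4 * Pd c k * ‖y - zz c k‖) / ‖h - zz c i‖ := by gcongr
        _ ≤ Q ^ 4 / (4 * Pd c k * ‖y - zz c k‖) / (‖zz c i‖ / (30 * Q ^ 3)) := by
            gcongr
            rw [div_le_iff₀ (by positivity)]
            linarith
        _ = 30 / 4 * Q ^ 7 / (‖zz c i‖ * Pd c k * ‖y - zz c k‖) := by field_simp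
        _ ≤ 8 * Q ^ 7 / (‖zz c i‖ * Pd c k * ‖y - zz c k‖) := by
            gcongr
            norm_num

end Pool.Agent.Y298.SH.CE
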