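import Mathlib
import Pool.Agent.Y298.CE.Hit

/-!
# The majorant of the Green function near the critical point
-/

set_option autoImplicit false

open Set Filter Metric MeasureTheory

namespace Pool.Agent.Y298.SH.CE

open Pool.Agent.TH279.MD Pool.Agent.Y298.SH
open Pool.Agent.W746.LD (Univ KC exists_KC)

/-- the weights -/
noncomputable def qq (c : ℂ) (t : ℝ) (i : ℕ) : ℝ := t ^ i / Pd c i

/-- the singular terms -/
noncomputable def tt (c : ℂ) (t R : ℝ) (i : ℕ) (y : ℂ) : ENNReal :=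
  if ‖zz c i‖ < 2 * R then ENNReal.ofReal (qq c t i) * (ENNReal.ofReal ‖y - zz c i‖)⁻¹ else 0

/-- the singular part of the majorant -/
noncomputable def Ps (c : ℂ) (t R : ℝ) (y : ℂ) : ENNReal := ∑' i, tt c t R i y

variable {C0 c0 θ τ A : ℝ}

theorem tt_le_Ps (c : ℂ) (t R : ℝ) (i : ℕ) (y : ℂ) : tt c t R i y ≤ Ps c t R y :=
  ENNReal.le_tsum i

theorem tt_self {c : ℂ} {t R : ℝ} (ht : 0 < t) (hP : ∀ j, 0 < Pd c j) {i : ℕ}
    (hi : ‖zz c i‖ < 2 * R) : tt c t R i (zz c i) = ⊤ := by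
  unfold tt
  rw [if_pos hi, sub_self, norm_zero, ENNReal.ofReal_zero, ENNReal.inv_zero, ENNReal.mul_top]
  have h1 := hP i
  have h2 : 0 < qq c t i := by unfold qq; positivity
  exact (ENNReal.ofReal_pos.mpr h2).ne'

theorem tt_eq {c : ℂ} {t R : ℝ} {i : ℕ} (hi : ‖zz c i‖ < 2 * R) {y : ℂ} (hy : y ≠ zz c i)
    (hq : 0 ≤ qq c t i) : tt c t R i y = ENNReal.ofReal (qq c t i / ‖y - zz c i‖) := by
  unfold tt
  have h1 : 0 < ‖y - zz c i‖ := norm_pos_iff.mpr (sub_ne_zero.mpr hy)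
  rw [if_pos hi, ← ENNReal.ofReal_inv_of_pos h1, ← ENNReal.ofReal_mul hq]
  rfl

theorem HitAt.mem2 (G : MG C0 c0 θ τ A) {c : ℂ} {R : ℝ} (hR : 0 < R) {k : ℕ} {g : ℂ → ℂ}
    (H : HitAt c 0 R τ k g) : ‖zz c k‖ < 2 * R := by
  have := H.mem
  rw [mem_ball_zero_iff] at this
  exact this.trans_le (G.RR_le hR (k + 1))

theorem HitAt.pre (G : MG C0 c0 θ τ A) (K : KC C0 c0) {c w : ℂ} {R : ℝ} (hR : 0 < R) {k : ℕ}
    {g : ℂ → ℂ} (H : HitAt c w R τ k g) (hP : 0 < Pd c k) {y : ℂ} (hy : ‖y - w‖ ≤ R / 8)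
    (hyk : y ≠ zz c k) {h : ℂ} (hh : h ^ 2 = g y - c) :
    ‖deriv g y‖ ^ 2 / (4 * ‖h‖ ^ 2) ≤ (A * θ ^ k) ^ 4 / (4 * Pd c k * ‖y - zz c k‖) := by
  set Q : ℝ := A * θ ^ k with hQ
  have hQ1 : 1 ≤ Q := G.Q_pos k
  have hQ0 : 0 < Q := by linarith
  obtain ⟨E1, E2, E3, E4, E5⟩ := H.est G K hR hP hy hh
  rw [← hQ] at E1 E2 E3 E4 E5
  have hyk0 : 0 < ‖y - zz c k‖ := norm_pos_iff.mpr (sub_ne_zero.mpr hyk)
  have hh0 : 0 < ‖h‖ ^ 2 := by
    have h1 : 0 < Q ^ 2 * Pd c k * ‖h‖ ^ 2 := hyk0.trans_le E5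
    by_contra hcon
    have h2 : ‖h‖ ^ 2 = 0 := le_antisymm (not_lt.mp hcon) (by positivity)
    rw [h2, mul_zero] at h1
    exact lt_irrefl _ h1
  rw [div_le_div_iff₀ (by positivity) (by positivity)]
  have h1 : ‖deriv g y‖ ^ 2 ≤ (Q / Pd c k) ^ 2 := by gcongr
  calc ‖deriv g y‖ ^ 2 * (4 * Pd c k * ‖y - zz c k‖)
      ≤ (Q / Pd c k) ^ 2 * (4 * Pd c k * (Q ^ 2 * Pd c k * ‖h‖ ^ 2)) := by gcongr
    _ = Q ^ 4 * (4 * ‖h‖ ^ 2) := by field_simp

/-- the constant term -/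
theorem HitAt.const_term (G : MG C0 c0 θ τ A) (K : KC C0 c0) {c : ℂ} {R t : ℝ} (hR : 0 < R)
    (ht : 1 ≤ t) {k : ℕ} {g : ℂ → ℂ} (H : HitAt c 0 R τ k g) (hP : ∀ j, 0 < Pd c j) {y : ℂ}
    (hy : ‖y‖ ≤ R / 8) {h : ℂ} (hh : h ^ 2 = g y - c) :
    ENNReal.ofReal (‖deriv g y‖ ^ 2) * ENNReal.ofReal (1 / (4 * ‖h‖ ^ 2)) ≤
      ENNReal.ofReal ((A * θ ^ k) ^ 4 / t ^ k) * tt c t R k y := by
  have ht0 : 0 < t := by linarith
  have hm := H.mem2 G hR
  have hQ1 : 1 ≤ A * θ ^ k := G.Q_pos k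
  have hQ0 : 0 < A * θ ^ k := by linarith
  rcases eq_or_ne y (zz c k) with rfl | hyk
  · rw [tt_self ht0 hP hm, ENNReal.mul_top]
    · exact le_top
    · exact (ENNReal.ofReal_pos.mpr (by positivity)).ne'
  have hPk := hP k
  have hyk0 : 0 < ‖y - zz c k‖ := norm_pos_iff.mpr (sub_ne_zero.mpr hyk)
  have hq0 : 0 ≤ qq c t k := by unfold qq; positivity
  rw [tt_eq hm hyk hq0, ← ENNReal.ofReal_mul (by positivity), ← ENNReal.ofReal_mul (by positivity)]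
  apply ENNReal.ofReal_le_ofReal
  have h1 := H.pre G K hR hPk (by rwa [sub_zero]) hyk hh
  calc ‖deriv g y‖ ^ 2 * (1 / (4 * ‖h‖ ^ 2)) = ‖deriv g y‖ ^ 2 / (4 * ‖h‖ ^ 2) := by ring
    _ ≤ _ := h1
    _ ≤ (A * θ ^ k) ^ 4 / (Pd c k * ‖y - zz c k‖) := by
        gcongr
        linarith
    _ = _ := by
        unfold qq
        field_simp

/-- the singular terms -/
theorem HitAt.sing_term (G : MG C0 c0 θ τ A) (K : KC C0 c0) {c : ℂ} {R t : ℝ} (hR : 0 < R)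
    (ht : 1 ≤ t) {k : ℕ} {g : ℂ → ℂ} (H : HitAt c 0 R τ k g) (hP : ∀ j, 0 < Pd c j)
    (hz : ∀ j, zz c j ≠ 0) {y : ℂ}
    (hy : ‖y‖ ≤ R / 8) {h : ℂ} (hh : h ^ 2 = g y - c) (i : ℕ) :
    ENNReal.ofReal (‖deriv g y‖ ^ 2) * ENNReal.ofReal (1 / (4 * ‖h‖ ^ 2)) * tt c t R i h ≤
      ENNReal.ofReal (8 * (A * θ ^ k) ^ 7 / t ^ k) *
        (if ‖zz c i‖ < 2 * R then ENNReal.ofReal (qq c t i / ‖zz c i‖) else 0) * tt c t R k y +
      ENNReal.ofReal (5 * (A * θ ^ k) ^ 8 / t ^ k) * tt c t R (k + 1 + i) y := by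
  have ht0 : 0 < t := by linarith
  have hm := H.mem2 G hR
  have hQ1 : 1 ≤ A * θ ^ k := G.Q_pos k
  have hQ0 : 0 < A * θ ^ k := by linarith
  by_cases hi : ‖zz c i‖ < 2 * R
  swap
  · have h1 : tt c t R i h = 0 := if_neg hi
    rw [h1, mul_zero]
    exact bot_le
  rw [if_pos hi]
  have hPi := hP i
  have hPk := hP k
  have hPl := hP (k + 1 + i)
  have hzi0 : 0 < ‖zz c i‖ := norm_pos_iff.mpr (hz i)
  have hqi : 0 < qq c t i := by unfold qq; positivity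
  rcases eq_or_ne y (zz c k) with hyk | hyk
  · have h1 : tt c t R k y = ⊤ := by rw [hyk]; exact tt_self ht0 hP hm
    rw [h1, ENNReal.mul_top, top_add]
    · exact le_top
    · apply mul_ne_zero
      · exact (ENNReal.ofReal_pos.mpr (by positivity)).ne'
      · exact (ENNReal.ofReal_pos.mpr (by positivity)).ne'
  rcases eq_or_ne h (zz c i) with hhi | hhi
  · have hyb := mem_small G hR (w := 0) (y := y) (by rwa [sub_zero]) k
    have h1 : y = zz c (k + 1 + i) := by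
      have h2 := H.inv y hyb
      have h3 : g y = zz c (i + 1) := by
        rw [zz_succ, ← hhi, hh]
        ring
      rw [h3, zz_add] at h2
      rw [← h2]
      congr 1
      omega
    have h2 : tt c t R (k + 1 + i) y = ⊤ := by
      rw [h1]
      apply tt_self ht0 hP
      rw [← h1]
      linarith
    rw [h2, ENNReal.mul_top, add_top]
    · exact le_top
    · exact (ENNReal.ofReal_pos.mpr (by positivity)).ne'
  have hyk0 : 0 < ‖y - zz c k‖ := norm_pos_iff.mpr (sub_ne_zero.mpr hyk)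
  have hhi0 : 0 < ‖h - zz c i‖ := norm_pos_iff.mpr (sub_ne_zero.mpr hhi)
  rw [tt_eq hi hhi hqi.le, ← ENNReal.ofReal_mul (by positivity),
    ← ENNReal.ofReal_mul (by positivity)]
  rcases H.transport G K hR hP hy hyk hh i (hz i) hhi with h1 | ⟨h1, h2, h3⟩
  · refine le_trans ?_ (le_add_of_nonneg_right bot_le)
    have hq0 : 0 ≤ qq c t k := by unfold qq; positivity
    rw [tt_eq hm hyk hq0, ← ENNReal.ofReal_mul (by positivity),
      ← ENNReal.ofReal_mul (by positivity)]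
    apply ENNReal.ofReal_le_ofReal
    calc ‖deriv g y‖ ^ 2 * (1 / (4 * ‖h‖ ^ 2)) * (qq c t i / ‖h - zz c i‖)
        = (‖deriv g y‖ ^ 2 / (4 * ‖h‖ ^ 2) / ‖h - zz c i‖) * qq c t i := by ring
      _ ≤ (8 * (A * θ ^ k) ^ 7 / (‖zz c i‖ * Pd c k * ‖y - zz c k‖)) * qq c t i := by gcongr
      _ = _ := by
          have : qq c t k = t ^ k / Pd c k := rfl
          rw [this]
          field_simp
  · refine le_trans ?_ (le_add_of_nonneg_left bot_le)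
    have hq0 : 0 ≤ qq c t (k + 1 + i) := by unfold qq; positivity
    have hyl0 : 0 < ‖y - zz c (k + 1 + i)‖ := norm_pos_iff.mpr (sub_ne_zero.mpr h2)
    rw [tt_eq h1 h2 hq0, ← ENNReal.ofReal_mul (by positivity)]
    apply ENNReal.ofReal_le_ofReal
    calc ‖deriv g y‖ ^ 2 * (1 / (4 * ‖h‖ ^ 2)) * (qq c t i / ‖h - zz c i‖)
        = (‖deriv g y‖ ^ 2 / (4 * ‖h‖ ^ 2) / ‖h - zz c i‖) * qq c t i := by ring
      _ ≤ (5 * (A * θ ^ k) ^ 8 * (Pd c i / Pd c (k + 1 + i)) / ‖y - zz c (k + 1 + i)‖) *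
          qq c t i := by gcongr
      _ = 5 * (A * θ ^ k) ^ 8 * t ^ i / (Pd c (k + 1 + i) * ‖y - zz c (k + 1 + i)‖) := by
          unfold qq
          field_simp
      _ ≤ 5 * (A * θ ^ k) ^ 8 * (t ^ (k + 1 + i) / t ^ k) /
          (Pd c (k + 1 + i) * ‖y - zz c (k + 1 + i)‖) := by
          gcongr
          rw [le_div_iff₀ (by positivity), ← pow_add]
          exact pow_le_pow_right₀ ht (by omega)
      _ = _ := by
          unfold qq
          field_simp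

/-- one sign -/
theorem HitAt.one_sign (G : MG C0 c0 θ τ A) (K : KC C0 c0) {c : ℂ} {R t : ℝ} (hR : 0 < R)
    (ht : 1 ≤ t) {k : ℕ} {g : ℂ → ℂ} (H : HitAt c 0 R τ k g) (hP : ∀ j, 0 < Pd c j)
    (hz : ∀ j, zz c j ≠ 0)
    (hsum : ∑' i, (if ‖zz c i‖ < 2 * R then ENNReal.ofReal (qq c t i / ‖zz c i‖) else 0) ≤ 1)
    {y : ℂ} (hy : ‖y‖ ≤ R / 8) {h : ℂ} (hh : h ^ 2 = g y - c) :
    ENNReal.ofReal (‖deriv g y‖ ^ 2) * ENNReal.ofReal (1 / (4 * ‖h‖ ^ 2)) * (1 + Ps c t R h) ≤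
      ENNReal.ofReal (14 * (A * θ ^ k) ^ 8 / t ^ k) * Ps c t R y := by
  have ht0 : 0 < t := by linarith
  have hQ1 : 1 ≤ A * θ ^ k := G.Q_pos k
  have hQ0 : 0 < A * θ ^ k := by linarith
  rw [mul_add, mul_one]
  have h1 := (H.const_term G K hR ht hP hy hh).trans
    (mul_le_mul_right (tt_le_Ps c t R k y) _)
  have h2 : ENNReal.ofReal (‖deriv g y‖ ^ 2) * ENNReal.ofReal (1 / (4 * ‖h‖ ^ 2)) * Ps c t R h ≤
      ENNReal.ofReal (8 * (A * θ ^ k) ^ 7 / t ^ k) * Ps c t R y +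
      ENNReal.ofReal (5 * (A * θ ^ k) ^ 8 / t ^ k) * Ps c t R y := by
    have h3 : ENNReal.ofReal (‖deriv g y‖ ^ 2) * ENNReal.ofReal (1 / (4 * ‖h‖ ^ 2)) * Ps c t R h =
        ∑' i, ENNReal.ofReal (‖deriv g y‖ ^ 2) * ENNReal.ofReal (1 / (4 * ‖h‖ ^ 2)) *
          tt c t R i h := by
      unfold Ps
      rw [ENNReal.tsum_mul_left]
    rw [h3]
    refine (ENNReal.tsum_le_tsum fun i => H.sing_term G K hR ht hP hz hy hh i).trans ?_
    rw [ENNReal.tsum_add, ENNReal.tsum_mul_right, ENNReal.tsum_mul_left, ENNReal.tsum_mul_left]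
    refine add_le_add ?_ (mul_le_mul_right ?_ _)
    · calc ENNReal.ofReal (8 * (A * θ ^ k) ^ 7 / t ^ k) *
            (∑' i, (if ‖zz c i‖ < 2 * R then ENNReal.ofReal (qq c t i / ‖zz c i‖) else 0)) *
            tt c t R k y
          ≤ ENNReal.ofReal (8 * (A * θ ^ k) ^ 7 / t ^ k) * 1 * Ps c t R y := by
            gcongr
            exact tt_le_Ps c t R k y
        _ = _ := by rw [mul_one]
    · unfold Ps
      exact ENNReal.tsum_comp_le_tsum_of_injective (f := fun i => k + 1 + i)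
        (fun a b hab => by simpa using hab) (fun i => tt c t R i y)
  calc _ ≤ ENNReal.ofReal ((A * θ ^ k) ^ 4 / t ^ k) * Ps c t R y +
        (ENNReal.ofReal (8 * (A * θ ^ k) ^ 7 / t ^ k) * Ps c t R y +
        ENNReal.ofReal (5 * (A * θ ^ k) ^ 8 / t ^ k) * Ps c t R y) := add_le_add h1 h2
    _ = ENNReal.ofReal ((A * θ ^ k) ^ 4 / t ^ k + (8 * (A * θ ^ k) ^ 7 / t ^ k +
        5 * (A * θ ^ k) ^ 8 / t ^ k)) * Ps c t R y := by
        rw [ENNReal.ofReal_add (by positivity) (by positivity),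
          ENNReal.ofReal_add (by positivity) (by positivity)]
        ring
    _ ≤ _ := by
        gcongr
        have e4 : (A * θ ^ k) ^ 4 ≤ (A * θ ^ k) ^ 8 := pow_le_pow_right₀ hQ1 (by norm_num)
        have e7 : (A * θ ^ k) ^ 7 ≤ (A * θ ^ k) ^ 8 := pow_le_pow_right₀ hQ1 (by norm_num)
        rw [← add_div, ← add_div]
        gcongr
        linarith

/-- **The bound of a hitting term.** -/
theorem HitAt.bound (G : MG C0 c0 θ τ A) (K : KC C0 c0) {c : ℂ} {R t : ℝ} (hR : 0 < R)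
    (ht : 1 ≤ t) {k : ℕ} {g : ℂ → ℂ} (H : HitAt c 0 R τ k g) (hP : ∀ j, 0 < Pd c j)
    (hz : ∀ j, zz c j ≠ 0)
    (hsum : ∑' i, (if ‖zz c i‖ < 2 * R then ENNReal.ofReal (qq c t i / ‖zz c i‖) else 0) ≤ 1)
    (hsmall : 3 * R * (A * θ ^ k) / Pd c k ≤ (R / 8) ^ 2) {κ : ENNReal} {S : ℂ → ENNReal}
    (hS : ∀ v, ‖v‖ ≤ R / 8 → S v ≤ κ * (1 + Ps c t R v))
    {y : ℂ} (hy : ‖y‖ ≤ R / 8) :
    ENNReal.ofReal (‖deriv g y‖ ^ 2) * LE 2 c S (g y) ≤
      κ * (ENNReal.ofReal (28 * (A * θ ^ k) ^ 8 / t ^ k) * Ps c t R y) := by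
  have hQ1 : 1 ≤ A * θ ^ k := G.Q_pos k
  have hQ0 : 0 < A * θ ^ k := by linarith
  have ht0 : 0 < t := by linarith
  set h : ℂ := rt 2 (g y - c) with hh'
  have hh : h ^ 2 = g y - c := rt_pow le_rfl _
  have hhn : (-h) ^ 2 = g y - c := by rw [neg_sq, hh]
  obtain ⟨E1, E2, E3, E4, E5⟩ := H.est G K hR (hP k) (y := y) (by rwa [sub_zero]) hh
  have hhs : ‖h‖ ≤ R / 8 := by
    have h1 : ‖h‖ ^ 2 ≤ (R / 8) ^ 2 := E4.trans hsmall
    exact (sq_le_sq₀ (norm_nonneg _) (by positivity)).mp h1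
  rw [LE_two hh]
  have h1 := hS h hhs
  have h2 := hS (-h) (by rwa [norm_neg])
  have h3 := H.one_sign G K hR ht hP hz hsum hy hh
  have h4 := H.one_sign G K hR ht hP hz hsum hy hhn
  rw [norm_neg] at h4
  calc ENNReal.ofReal (‖deriv g y‖ ^ 2) * ((S h + S (-h)) * ENNReal.ofReal (1 / (4 * ‖h‖ ^ 2)))
      ≤ ENNReal.ofReal (‖deriv g y‖ ^ 2) * ((κ * (1 + Ps c t R h) + κ * (1 + Ps c t R (-h))) *
          ENNReal.ofReal (1 / (4 * ‖h‖ ^ 2))) := by gcongr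
    _ = κ * (ENNReal.ofReal (‖deriv g y‖ ^ 2) * ENNReal.ofReal (1 / (4 * ‖h‖ ^ 2)) *
          (1 + Ps c t R h) + ENNReal.ofReal (‖deriv g y‖ ^ 2) *
          ENNReal.ofReal (1 / (4 * ‖h‖ ^ 2)) * (1 + Ps c t R (-h))) := by ring
    _ ≤ κ * (ENNReal.ofReal (14 * (A * θ ^ k) ^ 8 / t ^ k) * Ps c t R y +
          ENNReal.ofReal (14 * (A * θ ^ k) ^ 8 / t ^ k) * Ps c t R y) := by gcongr
    _ = _ := by
        rw [← add_mul, ← ENNReal.ofReal_add (by positivity) (by positivity)]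
        congr 3
        ring

/-- the partial sums of the Green function -/
noncomputable def SU (c : ℂ) (M : ℕ) (x : ℂ) : ENNReal := ∑ n ∈ Finset.range M, UU 2 c n x

theorem LE_sum {d : ℕ} {c : ℂ} {ι : Type*} (s : Finset ι) (φ : ι → ℂ → ENNReal) (w : ℂ) :
    LE d c (fun y => ∑ i ∈ s, φ i y) w = ∑ i ∈ s, LE d c (φ i) w := by
  unfold LE
  rw [← Finset.sum_mul, Finset.sum_comm]

theorem UU_succ (d : ℕ) (c : ℂ) (n : ℕ) (x : ℂ) : UU d c (n + 1) x = LE d c (UU d c n) x := by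
  unfold UU
  rw [Function.iterate_succ_apply']

theorem SU_succ (c : ℂ) (M : ℕ) (x : ℂ) : SU c (M + 1) x = 1 + LE 2 c (SU c M) x := by
  unfold SU
  rw [Finset.sum_range_succ', LE_sum, add_comm]
  congr 1
  apply Finset.sum_congr rfl
  intro n _
  exact UU_succ 2 c n x

/-- distortion at the small ball -/
theorem small_dist (G : MG C0 c0 θ τ A) (K : KC C0 c0) {c w : ℂ} {R : ℝ} (hR : 0 < R) {k : ℕ}
    {g : ℂ → ℂ} (hg : DifferentiableOn ℂ g (ball w (RR R τ k)))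
    (hgk : ∀ x ∈ ball w (RR R τ k), (f 2 c)^[k] (g x) = x) {x x' : ℂ} (hx : ‖x - w‖ ≤ R / 8)
    (hx' : ‖x' - w‖ ≤ R / 8) : ‖deriv g x‖ ^ 2 ≤ C0 ^ 4 * ‖deriv g x'‖ ^ 2 := by
  have hu : Univ g w R := (univ_branch hg hgk).mono (ball_subset_ball (G.RR_gt hR k).le)
  have h1 := (K.kdist g w R hR hu x (by linarith)).1
  have h2 := (K.kdist g w R hR hu x' (by linarith)).2
  have hC := K.one_le
  calc ‖deriv g x‖ ^ 2 ≤ (C0 * (C0 * ‖deriv g x'‖)) ^ 2 := by gcongr; exact h1.trans (by gcongr)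
    _ = _ := by ring

/-- **The majorant.** -/
theorem majorant (G : MG C0 c0 θ τ A) (K : KC C0 c0) {c : ℂ} {R t : ℝ} (hR : 0 < R)
    (ht : 1 ≤ t) (hP : ∀ j, 0 < Pd c j) (hz : ∀ j, zz c j ≠ 0)
    (hsum : ∑' i, (if ‖zz c i‖ < 2 * R then ENNReal.ofReal (qq c t i / ‖zz c i‖) else 0) ≤ 1)
    (hsmall : ∀ k, ‖zz c k‖ < 2 * R → 3 * R * (A * θ ^ k) / Pd c k ≤ (R / 8) ^ 2)
    (heps : ∑' k, (if ‖zz c k‖ < 2 * R then ENNReal.ofReal (28 * (A * θ ^ k) ^ 8 / t ^ k) else 0)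
      ≤ 1) {x' : ℂ} (hx' : ‖x'‖ ≤ R / 8) (M : ℕ) : ∀ y : ℂ, ‖y‖ ≤ R / 8 →
    SU c M y ≤ (ENNReal.ofReal (C0 ^ 4) * ∑' j, UU 2 c j x') * (1 + Ps c t R y) := by
  have hC := K.one_le
  set κ : ENNReal := ENNReal.ofReal (C0 ^ 4) * ∑' j, UU 2 c j x' with hκ
  induction M using Nat.strong_induction_on with
  | _ M ih =>
    intro y hy
    obtain ⟨ι, _, g, -, -, -, -, hmain⟩ := tree (d := 2) le_rfl c 0 x' (RR R τ)
      (G.RR_pos hR) (fun k => (G.RR_anti hR k).le) (S := SU c) (SU_succ c)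
      (fun k y => κ * ((if ‖zz c k‖ < 2 * R then
        ENNReal.ofReal (28 * (A * θ ^ k) ^ 8 / t ^ k) else 0) * Ps c t R y))
      {y | ‖y‖ ≤ R / 8}
      (fun k y hy => mem_small G hR (by rwa [sub_zero]) k)
      (fun k => mem_small G hR (by rwa [sub_zero]) k) (C0 ^ 4)
      (fun k g hg hgk x hx => small_dist G K hR hg hgk (by rwa [sub_zero]) (by rwa [sub_zero]))
      (by positivity) M (by
        intro k hk g hg hgk hmem hval x hx
        have H : HitAt c 0 R τ k g := ⟨hg, hgk, hmem, hval⟩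
        have h2 := H.mem2 G hR
        beta_reduce
        rw [if_pos h2]
        exact H.bound G K hR ht hP hz hsum (hsmall k h2) (ih (M - (k + 1)) (by omega)) hx)
      M le_rfl
    refine (hmain y hy).trans ?_
    have e1 : ∀ x, SU c (M - M) x = 0 := by
      intro x
      rw [Nat.sub_self]
      rfl
    simp only [e1, mul_zero, Finset.sum_const_zero, add_zero]
    rw [mul_add, mul_one]
    gcongr
    · rw [hκ]
      gcongr
      exact ENNReal.sum_le_tsum _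
    · rw [← Finset.mul_sum, ← Finset.sum_mul]
      calc κ * ((∑ k ∈ Finset.range M, if ‖zz c k‖ < 2 * R then
            ENNReal.ofReal (28 * (A * θ ^ k) ^ 8 / t ^ k) else 0) * Ps c t R y)
          ≤ κ * (1 * Ps c t R y) := by
            gcongr
            exact (ENNReal.sum_le_tsum _).trans heps
        _ = _ := by rw [one_mul]

end Pool.Agent.Y298.SH.CE
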