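import Mathlib
import Pool.Agent.Y298.CE.Major

/-!
# Collet-Eckmann parameters: choice of the constants
-/

set_option autoImplicit false

open Set Filter Metric MeasureTheory

namespace Pool.Agent.Y298.SH.CE

open Pool.Agent.TH279.MD Pool.Agent.Y298.SH
open Pool.Agent.W746.LD (Univ KC exists_KC)

/-- The Collet-Eckmann condition with explicit constants. -/
structure CEp (C₁ lam : ℝ) (c : ℂ) : Prop where
  bd : ∀ j, ‖zz c j‖ ≤ 2
  C1 : 1 ≤ C₁
  lam1 : 1 < lam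
  exp : ∀ n, lam ^ n ≤ C₁ * Pd c n

variable {C₁ lam : ℝ} {c : ℂ}

theorem CEp.Pd_pos (h : CEp C₁ lam c) (n : ℕ) : 0 < Pd c n := by
  have h1 := h.exp n
  have h2 : 0 < lam ^ n := pow_pos (by linarith [h.lam1]) n
  have h3 := h.C1
  by_contra hcon
  have h4 : Pd c n ≤ 0 := not_lt.mp hcon
  nlinarith

theorem CEp.zz_ne (h : CEp C₁ lam c) (n : ℕ) : zz c n ≠ 0 := by
  intro h0
  have h1 := h.Pd_pos (n + 1)
  rw [Pd_succ, h0, norm_zero] at h1
  simp at h1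

/-- tails of geometric series -/
theorem tail_geom {B r ε : ℝ} (hB : 0 ≤ B) (hr0 : 0 < r) (hr1 : r < 1) (hε : 0 < ε) :
    ∃ k₀ : ℕ, ∀ I : ℕ → Prop, ∀ [DecidablePred I], (∀ i, I i → k₀ ≤ i) → ∀ a : ℕ → ℝ,
      (∀ i, I i → a i ≤ B * r ^ i) →
      ∑' i, (if I i then ENNReal.ofReal (a i) else 0) ≤ ENNReal.ofReal ε := by
  set s : ℝ := √r with hs
  have hs0 : 0 < s := Real.sqrt_pos.mpr hr0
  have hs1 : s < 1 := by
    rw [hs, Real.sqrt_lt' one_pos]
    simpa using hr1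
  have hss : s * s = r := Real.mul_self_sqrt hr0.le
  have h1s : 0 < 1 - s := by linarith
  obtain ⟨k₀, hk₀⟩ := exists_pow_lt_of_lt_one (by positivity : 0 < ε * (1 - s) / (B + 1)) hs1
  refine ⟨k₀, ?_⟩
  intro I _ hI a ha
  have h1 : ∀ i, (if I i then ENNReal.ofReal (a i) else 0) ≤
      ENNReal.ofReal (B * s ^ k₀) * ENNReal.ofReal (s ^ i) := by
    intro i
    split_ifs with hi
    · rw [← ENNReal.ofReal_mul (by positivity)]
      apply ENNReal.ofReal_le_ofReal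
      refine (ha i hi).trans ?_
      rw [← hss, mul_pow, mul_assoc]
      have h2 : s ^ i ≤ s ^ k₀ := pow_le_pow_of_le_one hs0.le hs1.le (hI i hi)
      gcongr
    · exact bot_le
  refine (ENNReal.tsum_le_tsum h1).trans ?_
  rw [ENNReal.tsum_mul_left, ← ENNReal.ofReal_tsum_of_nonneg (fun n => by positivity)
    (summable_geometric_of_lt_one hs0.le hs1), tsum_geometric_of_lt_one hs0.le hs1,
    ← ENNReal.ofReal_mul (by positivity)]
  apply ENNReal.ofReal_le_ofReal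
  rw [← div_eq_mul_inv, div_le_iff₀ h1s]
  rw [lt_div_iff₀ (by positivity)] at hk₀
  nlinarith [pow_pos hs0 k₀]

/-- finitely many orbit points stay away from zero -/
theorem CEp.away (h : CEp C₁ lam c) (k₀ : ℕ) : ∃ r : ℝ, 0 < r ∧ ∀ k, ‖zz c k‖ < r → k₀ ≤ k := by
  induction k₀ with
  | zero => exact ⟨1, one_pos, fun k _ => Nat.zero_le k⟩
  | succ k₀ ih =>
    obtain ⟨r, hr, H⟩ := ih
    have h1 : 0 < ‖zz c k₀‖ := norm_pos_iff.mpr (h.zz_ne k₀)
    refine ⟨min r ‖zz c k₀‖, lt_min hr h1, fun k hk => ?_⟩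
    have h2 := H k (hk.trans_le (min_le_left _ _))
    have h3 : k ≠ k₀ := by
      rintro rfl
      exact absurd (hk.trans_le (min_le_right _ _)) (lt_irrefl _)
    omega

/-- The constants for the majorant. -/
structure Mj (C0 c0 θ τ A t : ℝ) (c : ℂ) (R₀ : ℝ) : Prop where
  G : MG C0 c0 θ τ A
  R0 : 0 < R₀
  t1 : 1 ≤ t
  hsum : ∀ R, 0 < R → R ≤ R₀ →
    ∑' i, (if ‖zz c i‖ < 2 * R then ENNReal.ofReal (qq c t i / ‖zz c i‖) else 0) ≤ 1
  sum_all : ∃ X : ℝ, ∑' i, ENNReal.ofReal (qq c t i / ‖zz c i‖) ≤ ENNReal.ofReal X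
  heps : ∀ R, 0 < R → R ≤ R₀ →
    ∑' k, (if ‖zz c k‖ < 2 * R then ENNReal.ofReal (28 * (A * θ ^ k) ^ 8 / t ^ k) else 0) ≤ 1
  hsmall : ∀ k, ‖zz c k‖ < 2 * R₀ → 1000 * (A * θ ^ k) ≤ Pd c (k + 1)
  hall : ∃ Y : ℝ, 0 < Y ∧ ∀ k, A * θ ^ k ≤ Y * Pd c k
  hroot : ∃ Z r : ℝ, 0 < Z ∧ 0 < r ∧ r < 1 ∧ ∀ k, A * θ ^ k / Pd c k ≤ Z * r ^ k

theorem CEp.exists_Mj (h : CEp C₁ lam c) {C0 c0 : ℝ} (K : KC C0 c0) :
    ∃ θ τ A t R₀ : ℝ, Mj C0 c0 θ τ A t c R₀ := by
  have hl := h.lam1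
  have hl0 : 0 < lam := by linarith
  have hC1 := h.C1
  set θ : ℝ := lam ^ (1 / 18 : ℝ) with hθ
  have hθ1 : 1 < θ := Real.one_lt_rpow hl (by norm_num)
  have hθ0 : 0 < θ := by linarith
  have hθ18 : θ ^ 18 = lam := by
    rw [hθ, ← Real.rpow_natCast, ← Real.rpow_mul hl0.le]
    norm_num
  obtain ⟨τ, A, G⟩ := exists_MG K hθ1
  have hA := G.A1
  set t : ℝ := θ ^ 9 with ht
  have ht1 : 1 < t := one_lt_pow₀ hθ1 (by norm_num)
  have htt : t * t = lam := by rw [ht, ← pow_add]; exact hθ18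
  have hqb : ∀ i, qq c t i / ‖zz c i‖ ≤ 2 * C₁ * (1 / t) ^ i := by
    intro i
    have h1 := h.exp (i + 1)
    rw [Pd_succ] at h1
    have h2 := h.Pd_pos i
    have h3 : 0 < ‖zz c i‖ := norm_pos_iff.mpr (h.zz_ne i)
    unfold qq
    rw [div_div, one_div, inv_pow, ← div_eq_mul_inv, div_le_div_iff₀ (by positivity) (by positivity)]
    have h4 : t ^ i * t ^ i = lam ^ i := by rw [← mul_pow, htt]
    rw [h4]
    have h5 : lam ^ i ≤ lam ^ (i + 1) := pow_le_pow_right₀ hl.le (by omega)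
    calc lam ^ i ≤ lam ^ (i + 1) := h5
      _ ≤ _ := h1
      _ = _ := by ring
  have hr0 : 0 < 1 / t := by positivity
  have hr1 : 1 / t < 1 := by rw [div_lt_one (by positivity)]; exact ht1
  have hs0 : 0 < 1 / θ := by positivity
  have hs1 : 1 / θ < 1 := by rw [div_lt_one (by positivity)]; exact hθ1
  obtain ⟨k₁, hk₁⟩ := tail_geom (B := 2 * C₁) (r := 1 / t) (ε := 1) (by positivity) hr0 hr1 one_pos
  obtain ⟨k₂, hk₂⟩ := tail_geom (B := 28 * A ^ 8) (r := 1 / θ) (ε := 1) (by positivity) hs0 hs1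
    one_pos
  have hθl : 0 < θ / lam := by positivity
  have hθl1 : θ / lam < 1 := by
    rw [div_lt_one hl0, ← hθ18]
    calc θ = θ ^ 1 := (pow_one θ).symm
      _ < θ ^ 18 := pow_lt_pow_right₀ hθ1 (by norm_num)
  obtain ⟨k₃, hk₃⟩ := exists_pow_lt_of_lt_one (by positivity : 0 < 1 / (1000 * A * C₁)) hθl1
  obtain ⟨r, hr, hrk⟩ := h.away (max k₁ (max k₂ k₃))
  have hQ : ∀ k, A * θ ^ k / Pd c k ≤ A * C₁ * (θ / lam) ^ k := by
    intro k
    have h1 := h.exp k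
    have h2 := h.Pd_pos k
    rw [div_pow, div_le_iff₀ h2]
    calc A * θ ^ k = A * (θ ^ k / lam ^ k) * lam ^ k := by field_simp
      _ ≤ A * (θ ^ k / lam ^ k) * (C₁ * Pd c k) := by gcongr
      _ = _ := by ring
  refine ⟨θ, τ, A, t, r / 2, G, by positivity, ht1.le, ?_, ?_, ?_, ?_, ?_, ?_⟩
  · intro R hR hRr
    rw [← ENNReal.ofReal_one]
    refine hk₁ _ (fun i hi => ?_) _ (fun i _ => hqb i)
    exact (le_max_left _ _).trans (hrk i (by linarith))
  · refine ⟨2 * C₁ * (1 - 1 / t)⁻¹, ?_⟩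
    refine (ENNReal.tsum_le_tsum fun i => ENNReal.ofReal_le_ofReal (hqb i)).trans ?_
    rw [← ENNReal.ofReal_tsum_of_nonneg (fun n => by positivity)
      ((summable_geometric_of_lt_one hr0.le hr1).mul_left _), tsum_mul_left,
      tsum_geometric_of_lt_one hr0.le hr1]
  · intro R hR hRr
    rw [← ENNReal.ofReal_one]
    refine hk₂ _ (fun i hi => ?_) _ (fun i _ => ?_)
    · exact (le_max_left _ _).trans ((le_max_right _ _).trans (hrk i (by linarith)))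
    · apply le_of_eq
      rw [ht, one_div, inv_pow]
      field_simp
      ring
  · intro k hk
    have h1 := (le_max_right _ _).trans ((le_max_right _ _).trans (hrk k (by linarith)))
    have h2 := h.exp (k + 1)
    have h3 : (θ / lam) ^ k ≤ 1 / (1000 * A * C₁) :=
      (pow_le_pow_of_le_one hθl.le hθl1.le h1).trans hk₃.le
    rw [div_pow, div_le_div_iff₀ (by positivity) (by positivity), one_mul] at h3
    have h4 : lam ^ k ≤ lam ^ (k + 1) := pow_le_pow_right₀ hl.le (by omega)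
    have h5 : C₁ * (1000 * (A * θ ^ k)) ≤ C₁ * Pd c (k + 1) := by
      calc C₁ * (1000 * (A * θ ^ k)) = θ ^ k * (1000 * A * C₁) := by ring
        _ ≤ lam ^ k := h3
        _ ≤ lam ^ (k + 1) := h4
        _ ≤ _ := h2
    exact le_of_mul_le_mul_left h5 (by positivity)
  · refine ⟨A * C₁, by positivity, fun k => ?_⟩
    have h1 := hQ k
    have h2 := h.Pd_pos k
    rw [div_le_iff₀ h2] at h1
    refine h1.trans ?_
    have h3 : (θ / lam) ^ k ≤ 1 := pow_le_one₀ hθl.le hθl1.le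
    calc A * C₁ * (θ / lam) ^ k * Pd c k ≤ A * C₁ * 1 * Pd c k := by gcongr
      _ = _ := by ring
  · exact ⟨A * C₁, θ / lam, by positivity, hθl, hθl1, hQ⟩

theorem Mj.small {C0 c0 θ τ A t R₀ : ℝ} (J : Mj C0 c0 θ τ A t c R₀) (hP : ∀ j, 0 < Pd c j)
    {R : ℝ} (hR : 0 < R) (hRR : R ≤ R₀) (k : ℕ)
    (hk : ‖zz c k‖ < 2 * R) : 3 * R * (A * θ ^ k) / Pd c k ≤ (R / 8) ^ 2 := by
  have h1 := J.hsmall k (by linarith)
  rw [Pd_succ] at h1
  have h2 := hP k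
  rw [div_le_iff₀ h2]
  have h3 : 1000 * (A * θ ^ k) ≤ 4 * R * Pd c k := by
    refine h1.trans ?_
    have : 2 * ‖zz c k‖ ≤ 4 * R := by linarith
    exact mul_le_mul_of_nonneg_right this h2.le
  nlinarith

end Pool.Agent.Y298.SH.CE
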