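import Mathlib
import Pool.Agent.Y298.CE.Out

/-!
# Integral bounds near boundary points of the filled Julia set
-/

set_option autoImplicit false

open Set Filter Metric MeasureTheory

namespace Pool.Agent.Y298.SH.CE

open Pool.Agent.TH279.MD Pool.Agent.Y298.SH
open Pool.Agent.W746.LD (Univ KC exists_KC)

variable {C0 c0 θ τ A t R₀ C₁ lam : ℝ} {c : ℂ}

theorem CEp.c_le (h : CEp C₁ lam c) : ‖c‖ ≤ 2 := h.bd 0

/-- there are escaping points near every point of the critical orbit -/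
theorem CEp.esc_near (h : CEp C₁ lam c) (k : ℕ) {s : ℝ} (hs : 0 < s) :
    ∃ y ∈ ball (zz c k) s, Esc c y := by
  by_contra hcon
  push Not at hcon
  have hb : ∀ n, ∀ y ∈ ball (zz c k) s, ‖(f 2 c)^[n] y‖ ≤ 2 := by
    intro n y hy
    have h1 := hcon y hy
    unfold Esc at h1
    push Not at h1
    exact h1 n
  have hPk := h.Pd_pos k
  have hC1 := h.C1
  obtain ⟨n, hn⟩ := pow_unbounded_of_one_lt (C₁ * (4 / s * Pd c k)) h.lam1
  have h1 := cauchy_iter (d := 2) (c := c) hs (n := n) (hb n)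
  have h2 := Pd_add c n k
  have h3 := h.exp (n + k)
  have h4 : lam ^ n ≤ lam ^ (n + k) := pow_le_pow_right₀ h.lam1.le (by omega)
  have h5 : Pd c (n + k) ≤ 4 / s * Pd c k := by
    rw [h2]
    exact mul_le_mul_of_nonneg_right h1 hPk.le
  nlinarith

theorem Esc_f {c y : ℂ} (h : Esc c (f 2 c y)) : Esc c y := by
  obtain ⟨n, hn⟩ := h
  exact ⟨n + 1, by rwa [Function.iterate_succ_apply]⟩

theorem Esc_iter {c y : ℂ} (m : ℕ) (h : Esc c ((f 2 c)^[m] y)) : Esc c y := by
  obtain ⟨n, hn⟩ := h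
  exact ⟨n + m, by rwa [Function.iterate_add_apply]⟩

/-- there are escaping points near the critical point -/
theorem CEp.esc_zero (h : CEp C₁ lam c) {s : ℝ} (hs : 0 < s) : ∃ y ∈ ball (0 : ℂ) s, Esc c y := by
  obtain ⟨w, hw, hwe⟩ := h.esc_near 0 (s := s ^ 2) (by positivity)
  rw [zz_zero, mem_ball, dist_eq_norm] at hw
  refine ⟨rt 2 (w - c), ?_, ?_⟩
  · rw [mem_ball_zero_iff]
    have h1 : ‖rt 2 (w - c)‖ ^ 2 = ‖w - c‖ := by rw [← norm_pow, rt_pow le_rfl]
    rw [← h1] at hw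
    exact (sq_lt_sq₀ (norm_nonneg _) hs.le).mp hw
  · apply Esc_f
    have h1 : f 2 c (rt 2 (w - c)) = w := by
      rw [f_two, rt_pow le_rfl]
      ring
    rwa [h1]

theorem LE_iter_ge (c : ℂ) (φ : ℂ → ENNReal) (k : ℕ) (y : ℂ)
    (hy : deriv ((f 2 c)^[k]) y ≠ 0) :
    φ y * ENNReal.ofReal (1 / ‖deriv ((f 2 c)^[k]) y‖ ^ 2) ≤ (LE 2 c)^[k] φ ((f 2 c)^[k] y) := by
  induction k generalizing φ y with
  | zero => simp
  | succ k ih =>
    have h1 : deriv ((f 2 c)^[k + 1]) y = deriv ((f 2 c)^[k]) (f 2 c y) * (2 * y) := by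
      have := deriv_iter_add 2 c k 1 y
      rw [Function.iterate_one, deriv_f] at this
      rw [this]
      norm_num
    have h2 : deriv ((f 2 c)^[k]) (f 2 c y) ≠ 0 := by
      intro h0
      rw [h1, h0, zero_mul] at hy
      exact hy rfl
    have hy0 : y ≠ 0 := by
      rintro rfl
      rw [h1, mul_zero, mul_zero] at hy
      exact hy rfl
    have h3 := ih (LE 2 c φ) (f 2 c y) h2
    rw [Function.iterate_succ_apply, Function.iterate_succ_apply]
    refine le_trans ?_ h3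
    have hy1 : 0 < ‖y‖ := norm_pos_iff.mpr hy0
    have hd1 : 0 < ‖deriv ((f 2 c)^[k]) (f 2 c y)‖ := norm_pos_iff.mpr h2
    calc φ y * ENNReal.ofReal (1 / ‖deriv ((f 2 c)^[k + 1]) y‖ ^ 2)
        = (φ y * ENNReal.ofReal (1 / (4 * ‖y‖ ^ 2))) *
            ENNReal.ofReal (1 / ‖deriv ((f 2 c)^[k]) (f 2 c y)‖ ^ 2) := by
          rw [mul_assoc, ← ENNReal.ofReal_mul (by positivity), h1, norm_mul, norm_mul]
          congr 2
          have : ‖(2 : ℂ)‖ = 2 := by norm_num
          rw [this]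
          field_simp
          norm_num
      _ ≤ _ := by
          gcongr
          exact LE_ge c φ y

/-- bathtub bound for the Cauchy kernel -/
theorem inv_int : ∃ C : ℝ, 0 < C ∧ ∀ (z y : ℂ) (ρ : ℝ), 0 ≤ ρ →
    ∫⁻ x in closedBall y ρ, (ENNReal.ofReal ‖x - z‖)⁻¹ ≤ ENNReal.ofReal (C * ρ) := by
  obtain ⟨C, hC, H⟩ := Pool.Agent.TH279.MD.area_rpow 1 one_pos (by norm_num)
  refine ⟨C * √Real.pi, by positivity, ?_⟩
  intro z y ρ hρ
  have h1 := H z (closedBall y ρ) (ρ ^ 2 * Real.pi) measurableSet_closedBall (by positivity) (by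
    rw [Complex.volume_closedBall, ENNReal.ofReal_mul (by positivity), ← ENNReal.ofReal_pow hρ]
    gcongr
    rw [← NNReal.coe_real_pi, ENNReal.ofReal_coe_nnreal])
  have h2 : (ρ ^ 2 * Real.pi) ^ ((1 : ℝ) - 1 / 2) = ρ * √Real.pi := by
    have : (1 : ℝ) - 1 / 2 = 1 / 2 := by norm_num
    rw [this, ← Real.sqrt_eq_rpow, Real.sqrt_mul (by positivity), Real.sqrt_sq hρ]
  rw [h2] at h1
  have h3 : ∫⁻ x in closedBall y ρ, (ENNReal.ofReal ‖x - z‖)⁻¹ =
      ∫⁻ x in closedBall y ρ, ENNReal.ofReal (1 / ‖x - z‖ ^ (1 : ℝ)) := by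
    apply lintegral_congr_ae
    have h4 : ∀ᵐ x : ℂ, x ≠ z := by
      rw [ae_iff]
      simp
    filter_upwards [ae_restrict_of_ae h4] with x hx
    have h5 : 0 < ‖x - z‖ := norm_pos_iff.mpr (sub_ne_zero.mpr hx)
    rw [Real.rpow_one, one_div, ENNReal.ofReal_inv_of_pos h5]
  rw [h3]
  refine h1.trans (ENNReal.ofReal_le_ofReal (le_of_eq ?_))
  ring

theorem measurable_tt (c : ℂ) (t R : ℝ) (i : ℕ) : Measurable (tt c t R i) := by
  unfold tt
  by_cases h : ‖zz c i‖ < 2 * R
  · simp only [if_pos h]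
    exact ((ENNReal.measurable_ofReal.comp (continuous_id.sub continuous_const).norm.measurable).inv).const_mul _
  · simp only [if_neg h]
    exact measurable_const

theorem measurable_Ps (c : ℂ) (t R : ℝ) : Measurable (Ps c t R) :=
  Measurable.ennreal_tsum fun i => measurable_tt c t R i

theorem measurable_SU (c : ℂ) (M : ℕ) : Measurable (SU c M) := by
  unfold SU
  exact Finset.measurable_fun_sum _ fun n _ => measurable_LE_iter n measurable_const

/-- integral of the majorant over balls around the critical point -/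
theorem Mj.int_Ps (h : CEp C₁ lam c) (J : Mj C0 c0 θ τ A t c R₀) : ∃ C : ℝ, 0 < C ∧
    ∀ R : ℝ, ∀ ρ : ℝ, 0 ≤ ρ → ρ ≤ 1 →
      ∫⁻ x in closedBall (0 : ℂ) ρ, (1 + Ps c t R x) ≤ ENNReal.ofReal (C * ρ) := by
  obtain ⟨Ci, hCi, HC⟩ := inv_int
  obtain ⟨X, hX⟩ := J.sum_all
  have ht0 : 0 < t := lt_of_lt_of_le one_pos J.t1
  refine ⟨4 + 2 * (|X| + 1) * Ci, by positivity, ?_⟩
  intro R ρ hρ hρ1
  rw [lintegral_add_left measurable_const]
  have h1 : ∫⁻ x in closedBall (0 : ℂ) ρ, (1 : ENNReal) ≤ ENNReal.ofReal (4 * ρ) := by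
    rw [lintegral_one, Measure.restrict_apply_univ, Complex.volume_closedBall,
      ENNReal.ofReal_mul (by norm_num), ← ENNReal.ofReal_pow hρ]
    have h2 : (NNReal.pi : ENNReal) ≤ ENNReal.ofReal 4 := by
      rw [← ENNReal.ofReal_coe_nnreal, NNReal.coe_real_pi]
      exact ENNReal.ofReal_le_ofReal Real.pi_le_four
    rw [mul_comm]
    gcongr
    nlinarith
  have h2 : ∫⁻ x in closedBall (0 : ℂ) ρ, Ps c t R x ≤
      ENNReal.ofReal (2 * (|X| + 1) * (Ci * ρ)) := by
    unfold Ps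
    rw [lintegral_tsum (fun i => (measurable_tt c t R i).aemeasurable)]
    have h3 : ∀ i, ∫⁻ x in closedBall (0 : ℂ) ρ, tt c t R i x ≤
        (ENNReal.ofReal 2 * ENNReal.ofReal (qq c t i / ‖zz c i‖)) * ENNReal.ofReal (Ci * ρ) := by
      intro i
      unfold tt
      by_cases hi : ‖zz c i‖ < 2 * R
      · simp only [if_pos hi]
        rw [lintegral_const_mul' _ _ ENNReal.ofReal_ne_top]
        refine mul_le_mul' ?_ (HC _ _ _ hρ)
        rw [← ENNReal.ofReal_mul (by norm_num)]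
        apply ENNReal.ofReal_le_ofReal
        have h4 : 0 < ‖zz c i‖ := norm_pos_iff.mpr (h.zz_ne i)
        have h5 := h.bd i
        have h6 : 0 ≤ qq c t i := by
          have := h.Pd_pos i
          unfold qq
          positivity
        rw [mul_div_assoc', le_div_iff₀ h4]
        nlinarith
      · simp only [if_neg hi, lintegral_zero]
        exact bot_le
    refine (ENNReal.tsum_le_tsum h3).trans ?_
    rw [ENNReal.tsum_mul_right, ENNReal.tsum_mul_left]
    calc ENNReal.ofReal 2 * (∑' i, ENNReal.ofReal (qq c t i / ‖zz c i‖)) * ENNReal.ofReal (Ci * ρ)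
        ≤ ENNReal.ofReal 2 * ENNReal.ofReal (|X| + 1) * ENNReal.ofReal (Ci * ρ) := by
          gcongr
          refine hX.trans (ENNReal.ofReal_le_ofReal ?_)
          linarith [le_abs_self X]
      _ = _ := by
          rw [← ENNReal.ofReal_mul (by norm_num), ← ENNReal.ofReal_mul (by positivity)]
  calc _ ≤ ENNReal.ofReal (4 * ρ) + ENNReal.ofReal (2 * (|X| + 1) * (Ci * ρ)) := add_le_add h1 h2
    _ = _ := by
        rw [← ENNReal.ofReal_add (by positivity) (by positivity)]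
        congr 1
        ring

/-- **Local integrability of the Green function near the boundary.** -/
theorem Mj.tree_int (h : CEp C₁ lam c) (K : KC C0 c0) (J : Mj C0 c0 θ τ A t c R₀) :
    ∃ R₁ : ℝ, 0 < R₁ ∧ ∀ w x' : ℂ, ‖x' - w‖ ≤ R₁ / 8 → Esc c x' →
      ∃ C : ENNReal, C ≠ ⊤ ∧ ∀ M, ∫⁻ x in closedBall w (R₁ / 8), SU c M x ≤ C := by
  have hP := h.Pd_pos
  have G := J.G
  have hR₀ := J.R0
  obtain ⟨Y, hY0, hY⟩ := J.hall
  obtain ⟨Z, r, hZ, hr0, hr1, hroot⟩ := J.hroot
  obtain ⟨CP, hCP, HP⟩ := J.int_Ps h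
  obtain ⟨x₀, hx₀, hx₀e⟩ := h.esc_zero (s := R₀ / 8) (by positivity)
  rw [mem_ball_zero_iff] at hx₀
  set κ : ENNReal := ENNReal.ofReal (C0 ^ 4) * ∑' j, UU 2 c j x₀ with hκ
  have hκt : κ ≠ ⊤ := ENNReal.mul_ne_top ENNReal.ofReal_ne_top (hx₀e.sum K h.bd)
  have hmaj : ∀ M y, ‖y‖ ≤ R₀ / 8 → SU c M y ≤ κ * (1 + Ps c t R₀ y) := fun M =>
    majorant G K hR₀ J.t1 hP h.zz_ne (J.hsum R₀ hR₀ le_rfl) (fun k hk => J.small hP hR₀ le_rfl k hk)
      (J.heps R₀ hR₀ le_rfl) hx₀.le M
  set R₁ : ℝ := min 1 (min (1 / (3 * Y)) ((R₀ / 8) ^ 2 / (3 * Y))) with hR₁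
  have hR₁0 : 0 < R₁ := by positivity
  have hR₁1 : 3 * R₁ * Y ≤ 1 := by
    have : R₁ ≤ 1 / (3 * Y) := (min_le_right _ _).trans (min_le_left _ _)
    rw [le_div_iff₀ (by positivity)] at this
    linarith
  have hR₁2 : 3 * R₁ * Y ≤ (R₀ / 8) ^ 2 := by
    have : R₁ ≤ (R₀ / 8) ^ 2 / (3 * Y) := (min_le_right _ _).trans (min_le_right _ _)
    rw [le_div_iff₀ (by positivity)] at this
    linarith
  set ρ : ℕ → ℝ := fun k => √(3 * R₁ * (A * θ ^ k) / Pd c k) with hρ
  have hQ := G.Q_pos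
  have harg0 : ∀ k, 0 ≤ 3 * R₁ * (A * θ ^ k) / Pd c k := fun k => by
    have := hP k
    have := hQ k
    positivity
  have hargY : ∀ k, 3 * R₁ * (A * θ ^ k) / Pd c k ≤ 3 * R₁ * Y := by
    intro k
    rw [div_le_iff₀ (hP k)]
    have := hY k
    nlinarith
  have hρ1 : ∀ k, ρ k ≤ 1 := fun k => by
    rw [hρ]
    exact Real.sqrt_le_one.mpr ((hargY k).trans hR₁1)
  have hρ2 : ∀ k, ρ k ≤ R₀ / 8 := fun k => by
    rw [hρ]
    exact Real.sqrt_le_left (by positivity) |>.mpr ((hargY k).trans hR₁2)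
  have hρ0 : ∀ k, 0 ≤ ρ k := fun k => Real.sqrt_nonneg _
  -- the functions
  set S' : ℂ → ENNReal := fun v => ∑' n, UU 2 c n v with hS'
  have hS'm : Measurable S' := Measurable.ennreal_tsum fun n => measurable_LE_iter n measurable_const
  have hS'b : ∀ v, ‖v‖ ≤ R₀ / 8 → S' v ≤ κ * (1 + Ps c t R₀ v) := by
    intro v hv
    rw [hS']
    beta_reduce
    rw [ENNReal.tsum_eq_iSup_nat]
    exact iSup_le fun M => hmaj M v hv
  set D : ℕ → Set ℂ := fun k => closedBall c (3 * R₁ * (A * θ ^ k) / Pd c k) with hD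
  set B : ℕ → ℂ → ENNReal := fun k => (LE 2 c)^[k] ((D k).indicator (LE 2 c S')) with hB
  have hBm : ∀ k, Measurable (B k) := fun k =>
    measurable_LE_iter k ((measurable_LE hS'm).indicator measurableSet_closedBall)
  have hBint : ∀ k, ∫⁻ x, B k x ≤ κ * ENNReal.ofReal (CP * ρ k) := by
    intro k
    have h1 := dual_iter (d := 2) le_rfl c k (S := univ) MeasurableSet.univ
      (ψ := (D k).indicator (LE 2 c S')) ((measurable_LE hS'm).indicator measurableSet_closedBall)
    rw [preimage_univ, setLIntegral_univ, setLIntegral_univ,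
      lintegral_indicator measurableSet_closedBall,
      ← dualE le_rfl c measurableSet_closedBall hS'm] at h1
    rw [hB]
    beta_reduce
    rw [← h1]
    have h2 : f 2 c ⁻¹' D k = closedBall 0 (ρ k) := by
      ext y
      rw [mem_preimage, hD, mem_closedBall, mem_closedBall, dist_eq_norm, dist_zero_right, f_two,
        add_sub_cancel_right, norm_pow, hρ]
      beta_reduce
      rw [Real.le_sqrt (norm_nonneg _) (harg0 k)]
    rw [h2]
    calc ∫⁻ x in closedBall 0 (ρ k), S' x ≤ ∫⁻ x in closedBall 0 (ρ k), κ * (1 + Ps c t R₀ x) := by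
          apply setLIntegral_mono' measurableSet_closedBall
          intro x hx
          rw [mem_closedBall_zero_iff] at hx
          exact hS'b x (hx.trans (hρ2 k))
      _ = κ * ∫⁻ x in closedBall 0 (ρ k), (1 + Ps c t R₀ x) := lintegral_const_mul' _ _ hκt
      _ ≤ _ := by
          gcongr
          exact HP R₀ (ρ k) (hρ0 k) (hρ1 k)
  have hsumB : ∑' k, κ * ENNReal.ofReal (CP * ρ k) ≠ ⊤ := by
    rw [ENNReal.tsum_mul_left]
    apply ENNReal.mul_ne_top hκt
    have hrs : ∀ k : ℕ, √(r ^ k) = √r ^ k := by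
      intro k
      have h2 : r ^ k = (√r ^ k) ^ 2 := by
        rw [← pow_mul, mul_comm k 2, pow_mul, Real.sq_sqrt hr0.le]
      rw [h2, Real.sqrt_sq (by positivity)]
    have h1 : ∀ k, CP * ρ k ≤ CP * √(3 * R₁ * Z) * (√r) ^ k := by
      intro k
      rw [hρ]
      beta_reduce
      rw [mul_assoc CP, ← hrs, ← Real.sqrt_mul (by positivity)]
      gcongr
      have := hroot k
      calc 3 * R₁ * (A * θ ^ k) / Pd c k = 3 * R₁ * (A * θ ^ k / Pd c k) := by ring
        _ ≤ 3 * R₁ * (Z * r ^ k) := by gcongr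
        _ = _ := by ring
    have hr2 : √r < 1 := by
      rw [Real.sqrt_lt' one_pos]
      simpa using hr1
    refine ne_top_of_le_ne_top ?_ (ENNReal.tsum_le_tsum fun k => ENNReal.ofReal_le_ofReal (h1 k))
    rw [← ENNReal.ofReal_tsum_of_nonneg (fun n => by positivity)
      ((summable_geometric_of_lt_one (Real.sqrt_nonneg r) hr2).mul_left _)]
    exact ENNReal.ofReal_ne_top
  refine ⟨R₁, hR₁0, ?_⟩
  intro w x' hx' hx'e
  have hx's := hx'e.sum K h.bd
  have hC := K.one_le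
  refine ⟨(ENNReal.ofReal (C0 ^ 4) * ∑' j, UU 2 c j x') * volume (closedBall w (R₁ / 8)) +
    ∑' k, κ * ENNReal.ofReal (CP * ρ k), ?_, ?_⟩
  · apply ENNReal.add_ne_top.mpr
    refine ⟨ENNReal.mul_ne_top (ENNReal.mul_ne_top ENNReal.ofReal_ne_top hx's) ?_, hsumB⟩
    exact (isCompact_closedBall _ _).measure_lt_top.ne
  intro M
  have hpt : ∀ x ∈ closedBall w (R₁ / 8), SU c M x ≤
      ENNReal.ofReal (C0 ^ 4) * ∑' j, UU 2 c j x' + ∑' k, B k x := by
    intro x hx
    rw [mem_closedBall, dist_eq_norm] at hx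
    obtain ⟨ι, _, g, -, -, -, -, hmain⟩ := tree (d := 2) le_rfl c w x' (RR R₁ τ)
      (G.RR_pos hR₁0) (fun k => (G.RR_anti hR₁0 k).le) (S := SU c) (SU_succ c)
      B {x | ‖x - w‖ ≤ R₁ / 8}
      (fun k y hy => mem_small G hR₁0 hy k)
      (fun k => mem_small G hR₁0 hx' k) (C0 ^ 4)
      (fun k g hg hgk x hx => small_dist G K hR₁0 hg hgk hx hx')
      (by positivity) M (by
        intro k hk g hg hgk hmem hval y hy
        have H : HitAt c w R₁ τ k g := ⟨hg, hgk, hmem, hval⟩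
        have hyb := mem_small G hR₁0 hy k
        obtain ⟨E1, E2, E3, E4, E5⟩ := H.est G K hR₁0 (hP k) hy
          (h := rt 2 (g y - c)) (rt_pow le_rfl _)
        have h1 : g y ∈ D k := by
          rw [hD, mem_closedBall, dist_eq_norm]
          rw [← norm_pow, rt_pow le_rfl] at E4
          exact E4
        have h2 := branch_deriv hg hgk hyb
        have h3 : deriv ((f 2 c)^[k]) (g y) ≠ 0 := by
          intro h0
          rw [h0, norm_zero, zero_mul] at h2
          exact zero_ne_one h2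
        have h4 := LE_iter_ge c ((D k).indicator (LE 2 c S')) k (g y) h3
        rw [hgk y hyb, indicator_of_mem h1] at h4
        refine le_trans ?_ h4
        rw [mul_comm]
        have h5 : ‖deriv g y‖ ^ 2 = 1 / ‖deriv ((f 2 c)^[k]) (g y)‖ ^ 2 := by
          have h6 : 0 < ‖deriv ((f 2 c)^[k]) (g y)‖ := norm_pos_iff.mpr h3
          rw [eq_div_iff (by positivity), ← mul_pow, mul_comm, h2, one_pow]
        rw [h5]
        gcongr
        apply LE_mono
        intro v
        exact ENNReal.sum_le_tsum _)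
      M le_rfl
    refine (hmain x hx).trans ?_
    have e1 : ∀ x, SU c (M - M) x = 0 := by
      intro x
      rw [Nat.sub_self]
      rfl
    simp only [e1, mul_zero, Finset.sum_const_zero, add_zero]
    gcongr
    · exact ENNReal.sum_le_tsum _
    · exact ENNReal.sum_le_tsum _
  calc ∫⁻ x in closedBall w (R₁ / 8), SU c M x
      ≤ ∫⁻ x in closedBall w (R₁ / 8), (ENNReal.ofReal (C0 ^ 4) * ∑' j, UU 2 c j x' +
          ∑' k, B k x) := setLIntegral_mono' measurableSet_closedBall hpt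
    _ = (ENNReal.ofReal (C0 ^ 4) * ∑' j, UU 2 c j x') * volume (closedBall w (R₁ / 8)) +
          ∫⁻ x in closedBall w (R₁ / 8), ∑' k, B k x := by
        rw [lintegral_add_left measurable_const, setLIntegral_const]
    _ ≤ _ := by
        gcongr
        rw [lintegral_tsum (fun k => (hBm k).aemeasurable)]
        apply ENNReal.tsum_le_tsum
        intro k
        exact (setLIntegral_le_lintegral _ _).trans (hBint k)

end Pool.Agent.Y298.SH.CE
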