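import Mathlib
import Pool.Agent.Y298.CE.Lay

/-!
# The filled Julia set of a Collet-Eckmann parameter has empty interior
-/

set_option autoImplicit false

open Set Filter Metric MeasureTheory

namespace Pool.Agent.Y298.SH.CE

open Pool.Agent.TH279.MD Pool.Agent.Y298.SH
open Pool.Agent.W746.LD (Univ KC exists_KC)

/-- growth of the modulus -/
theorem grow_pt {F : ℂ → ℂ} (hF : Differentiable ℂ F) {x : ℂ} {s η : ℝ} (hs : 0 < s) (hη : 0 < η)
    (hb : ∀ y ∈ ball x s, ‖F y‖ ≤ ‖F x‖ + η) : ‖deriv F x‖ ≤ 4 * η / s := by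
  -- unimodular factor
  obtain ⟨u, hu1, hu2⟩ : ∃ u : ℂ, ‖u‖ = 1 ∧ u * F x = (‖F x‖ : ℂ) := by
    by_cases h0 : F x = 0
    · exact ⟨1, by simp, by rw [h0]; simp⟩
    · have h1 : 0 < ‖F x‖ := norm_pos_iff.mpr h0
      refine ⟨(starRingEnd ℂ) (F x) / ‖F x‖, ?_, ?_⟩
      · rw [norm_div, RCLike.norm_conj, Complex.norm_real, norm_norm, div_self h1.ne']
      · rw [div_mul_eq_mul_div, mul_comm, Complex.mul_conj, Complex.normSq_eq_norm_sq]
        push_cast
        have h2 : (‖F x‖ : ℂ) ≠ 0 := by exact_mod_cast h1.ne'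
        field_simp
  set G : ℂ → ℂ := fun y => u * (F y - F x) with hG
  have hGd : Differentiable ℂ G := (hF.sub_const _).const_mul u
  have hGx : G x = 0 := by simp [hG]
  have hGre : ∀ y ∈ ball x s, (G y).re ≤ η := by
    intro y hy
    have h1 : G y = u * F y - (‖F x‖ : ℂ) := by rw [← hu2, hG]; ring
    rw [h1, Complex.sub_re, Complex.ofReal_re]
    have h2 : (u * F y).re ≤ ‖F y‖ := by
      calc (u * F y).re ≤ ‖u * F y‖ := Complex.re_le_norm _
        _ = ‖F y‖ := by rw [norm_mul, hu1, one_mul]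
    linarith [hb y hy]
  have hden : ∀ y ∈ ball x s, (2 * η : ℂ) - G y ≠ 0 := by
    intro y hy h0
    have h1 : ((2 * η : ℂ) - G y).re = 0 := by rw [h0]; simp
    rw [Complex.sub_re] at h1
    have h2 : (2 * η : ℂ).re = 2 * η := by simp
    rw [h2] at h1
    linarith [hGre y hy]
  have hle : ∀ y ∈ ball x s, ‖G y / ((2 * η : ℂ) - G y)‖ ≤ 1 := by
    intro y hy
    rw [norm_div, div_le_one (norm_pos_iff.mpr (hden y hy))]
    rw [← sq_le_sq₀ (norm_nonneg _) (norm_nonneg _), ← Complex.normSq_eq_norm_sq,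
      ← Complex.normSq_eq_norm_sq, Complex.normSq_apply, Complex.normSq_apply]
    have h1 : ((2 * η : ℂ) - G y).re = 2 * η - (G y).re := by simp
    have h2 : ((2 * η : ℂ) - G y).im = - (G y).im := by simp
    rw [h1, h2]
    nlinarith [hGre y hy]
  have hsub : closedBall x (s / 2) ⊆ ball x s := closedBall_subset_ball (by linarith)
  have hcau := Complex.norm_deriv_le_of_forall_mem_sphere_norm_le
    (f := fun y => G y / ((2 * η : ℂ) - G y)) (c := x) (R := s / 2) (C := 1) (by positivity) (by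
      apply DifferentiableOn.diffContOnCl
      rw [closure_ball x (by positivity : s / 2 ≠ 0)]
      intro y hy
      exact ((hGd y).div ((differentiableAt_const _).sub (hGd y))
        (hden y (hsub hy))).differentiableWithinAt) (by
      intro y hy
      exact hle y (hsub (sphere_subset_closedBall hy)))
  have hxs : x ∈ ball x s := mem_ball_self hs
  have hder : deriv (fun y => G y / ((2 * η : ℂ) - G y)) x = deriv G x / (2 * η) := by
    have h1 : (2 * η : ℂ) ≠ 0 := by
      have := hden x hxs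
      rwa [hGx, sub_zero] at this
    have h2 : HasDerivAt (fun y => (2 * η : ℂ) - G y) (-(deriv G x)) x := by
      simpa using (hGd x).hasDerivAt.const_sub (2 * η : ℂ)
    have h3 := ((hGd x).hasDerivAt.div h2 (hden x hxs)).deriv
    have h4 : (G / fun y => (2 * η : ℂ) - G y) = fun y => G y / ((2 * η : ℂ) - G y) := rfl
    rw [h4, hGx, zero_mul, sub_zero, sub_zero] at h3
    rw [h3]
    field_simp
  rw [hder, norm_div] at hcau
  have hdG : ‖deriv G x‖ = ‖deriv F x‖ := by
    have : deriv G x = u * deriv F x := by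
      rw [hG, deriv_const_mul _ ((hF x).sub_const _), deriv_sub_const]
    rw [this, norm_mul, hu1, one_mul]
  have h2η : ‖(2 * η : ℂ)‖ = 2 * η := by
    rw [norm_mul, Complex.norm_real, Real.norm_of_nonneg hη.le]
    norm_num
  rw [hdG, h2η, div_le_div_iff₀ (by positivity) (by positivity)] at hcau
  rw [le_div_iff₀ hs]
  linarith

/-- the inverse branch through a given point -/
theorem branch_at {c : ℂ} {y : ℂ} {r : ℝ} (hr : 0 < r) (n : ℕ)
    (hno : ∀ k < n, zz c k ∉ ball y r) : ∀ x : ℂ, (f 2 c)^[n] x = y →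
    ∃ g : ℂ → ℂ, DifferentiableOn ℂ g (ball y r) ∧ (∀ v ∈ ball y r, (f 2 c)^[n] (g v) = v) ∧
      g y = x := by
  induction n with
  | zero =>
    intro x hx
    exact ⟨fun v => v, differentiableOn_id, fun v _ => rfl, hx.symm⟩
  | succ n ih =>
    intro x hx
    rw [Function.iterate_succ_apply] at hx
    obtain ⟨g, hg1, hg2, hg3⟩ := ih (fun k hk => hno k (by omega)) _ hx
    have hgc : ∀ v ∈ ball y r, g v ≠ c := by
      intro v hv hgv
      apply hno n (by omega)
      have := hg2 v hv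
      rw [hgv] at this
      unfold zz
      rw [this]
      exact hv
    obtain ⟨h, hh1, hh2, hh3⟩ := exists_root_ball (d := 2) le_rfl hr (hg1.sub_const c)
      (fun v hv => sub_ne_zero.mpr (hgc v hv))
    have hyb : y ∈ ball y r := mem_ball_self hr
    have h1 : h y ^ 2 = x ^ 2 := by
      rw [hh2 y hyb, hg3, f_two]
      ring
    have hf : ∀ v ∈ ball y r, ∀ u : ℂ, u ^ 2 = g v - c → (f 2 c)^[n + 1] u = v := by
      intro v hv u hu
      rw [Function.iterate_succ_apply, f_two, hu, sub_add_cancel, hg2 v hv]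
    rcases sq_eq_sq_iff_eq_or_eq_neg.mp h1 with h2 | h2
    · exact ⟨h, hh1, fun v hv => hf v hv _ (hh2 v hv), h2⟩
    · refine ⟨fun v => -h v, hh1.neg, fun v hv => hf v hv _ (by rw [neg_sq]; exact hh2 v hv), ?_⟩
      change -h y = x
      rw [h2, neg_neg]

/-- subadditivity -/
theorem lint_biUnion {ι : Type*} (F : Finset ι) (A : ι → Set ℂ) (φ : ℂ → ENNReal) :
    ∫⁻ x in ⋃ w ∈ F, A w, φ x ≤ ∑ w ∈ F, ∫⁻ x in A w, φ x := by
  classical
  induction F using Finset.induction_on with
  | empty => simp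
  | insert a s ha ih =>
    rw [Finset.set_biUnion_insert, Finset.sum_insert ha]
    exact (lintegral_union_le _ _ _).trans (add_le_add le_rfl ih)

variable {C₁ lam : ℝ} {c : ℂ}

/-- **The filled Julia set has empty interior.** -/
theorem CEp.esc_dense (h : CEp C₁ lam c) (x : ℂ) {s : ℝ} (hs : 0 < s) :
    ∃ y ∈ ball x s, Esc c y := by
  by_contra hcon
  push Not at hcon
  obtain ⟨C0, c0, K⟩ := exists_KC
  obtain ⟨θ, τ, A, t, R₀, J⟩ := h.exists_Mj K
  obtain ⟨R₁, hR₁, HT⟩ := J.tree_int h K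
  have hc0 := K.pos
  set Ω : Set ℂ := {x | ∃ s > 0, ∀ y ∈ ball x s, ¬ Esc c y} with hΩ
  have hxΩ : x ∈ Ω := ⟨s, hs, hcon⟩
  have hΩo : IsOpen Ω := by
    rw [Metric.isOpen_iff]
    rintro v ⟨s, hs, hv⟩
    refine ⟨s / 2, by positivity, fun u hu => ⟨s / 2, by positivity, fun y hy => hv y ?_⟩⟩
    rw [mem_ball] at *
    linarith [dist_triangle y u v]
  have hcl : IsClosed Ωᶜ := hΩo.isClosed_compl
  have h0 : (0 : ℂ) ∈ Ωᶜ := by
    rintro ⟨s, hs, hv⟩
    obtain ⟨y, hy, hye⟩ := h.esc_zero hs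
    exact hv y hy hye
  have hne : Ωᶜ.Nonempty := ⟨0, h0⟩
  have hzΩ : ∀ k, zz c k ∉ Ω := by
    rintro k ⟨s, hs, hv⟩
    obtain ⟨y, hy, hye⟩ := h.esc_near k hs
    exact hv y hy hye
  set T : ℂ → ℝ := fun y => infDist y Ωᶜ with hT
  have hTpos : ∀ y ∈ Ω, 0 < T y := fun y hy =>
    (hcl.notMem_iff_infDist_pos hne).mp (fun h => h hy)
  have hTball : ∀ y : ℂ, ball y (T y) ⊆ Ω := by
    intro y z hz
    by_contra hzn
    have h1 : T y ≤ dist y z := infDist_le_dist_of_mem hzn
    rw [mem_ball, dist_comm] at hz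
    linarith
  have hTlip : ∀ y z : ℂ, T y ≤ T z + dist y z := fun y z => infDist_le_infDist_add_dist
  have hmemΩ : ∀ v ∈ Ω, ¬ Esc c v := by
    rintro v ⟨s, hs, hv⟩
    exact hv v (mem_ball_self hs)
  have hbd : ∀ n, ∀ y ∈ Ω, ‖(f 2 c)^[n] y‖ ≤ 2 := by
    intro n y hy
    have h1 := hmemΩ y hy
    unfold Esc at h1
    push Not at h1
    exact h1 n
  have hpre : ∀ n, ∀ u : ℂ, (f 2 c)^[n] u ∈ Ω → u ∈ Ω := by
    rintro n u ⟨s, hs, hv⟩
    have h1 := (continuous_fn 2 c n).continuousAt (x := u)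
    obtain ⟨δ, hδ, h2⟩ := Metric.continuousAt_iff.mp h1 s hs
    refine ⟨δ, hδ, fun y hy hye => ?_⟩
    apply hv _ (h2 hy)
    obtain ⟨N, hN⟩ := hye.far h.c_le 2
    exact ⟨N, by rw [← Function.iterate_add_apply]; exact hN _ (by omega)⟩
  set R' : ℝ := R₁ / 16 with hR'
  have hR'0 : 0 < R' := by positivity
  set L : Set ℂ := {w | ‖w‖ ≤ 2 ∧ T w < R'} with hL
  have hTc : Continuous T := continuous_infDist_pt _
  have hLm : MeasurableSet L :=
    (measurableSet_le measurable_norm measurable_const).inter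
      (measurableSet_lt hTc.measurable measurable_const)
  -- local bounds
  have hloc : ∀ w : ℂ, ∃ C : ENNReal, C ≠ ⊤ ∧ ∀ M, ∫⁻ x in L ∩ ball w R', SU c M x ≤ C := by
    intro w
    by_cases hA : ∃ x' : ℂ, ‖x' - w‖ ≤ R₁ / 8 ∧ Esc c x'
    · obtain ⟨x', hx'1, hx'2⟩ := hA
      obtain ⟨C, hC, H⟩ := HT w x' hx'1 hx'2
      refine ⟨C, hC, fun M => (lintegral_mono_set ?_).trans (H M)⟩
      refine inter_subset_right.trans (ball_subset_closedBall.trans (closedBall_subset_closedBall ?_))
      rw [hR']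
      linarith
    · push Not at hA
      refine ⟨0, by simp, fun M => ?_⟩
      have hemp : L ∩ ball w R' = ∅ := by
        rw [eq_empty_iff_forall_notMem]
        rintro v ⟨⟨-, hv1⟩, hv2⟩
        rw [mem_ball] at hv2
        have h1 : ball v R' ⊆ Ω := by
          intro u hu
          rw [mem_ball] at hu
          have hd : dist u w < R₁ / 8 := by
            have := dist_triangle u v w
            rw [hR'] at *
            linarith
          refine ⟨R₁ / 8 - dist u w, by linarith, fun y hy => hA y ?_⟩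
          rw [mem_ball] at hy
          rw [← dist_eq_norm]
          linarith [dist_triangle y u w]
        have h2 : R' ≤ T v := by
          rw [hT]
          beta_reduce
          rw [le_infDist hne]
          intro z hz
          by_contra hlt
          rw [not_le] at hlt
          exact hz (h1 (by rw [mem_ball, dist_comm]; exact hlt))
        linarith
      rw [hemp]
      simp
  choose CL hCL1 hCL2 using hloc
  obtain ⟨F, hF⟩ := (isCompact_closedBall (0 : ℂ) 2).elim_finite_subcover (fun w : ℂ => ball w R')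
    (fun w => isOpen_ball) (fun w _ => mem_iUnion.mpr ⟨w, mem_ball_self hR'0⟩)
  set CC : ENNReal := ∑ w ∈ F, CL w with hCC
  have hCCt : CC ≠ ⊤ := ENNReal.sum_ne_top.mpr fun w _ => hCL1 w
  have hLint : ∀ M, ∫⁻ x in L, SU c M x ≤ CC := by
    intro M
    have h1 : L ⊆ ⋃ w ∈ F, L ∩ ball w R' := by
      intro v hv
      have h2 := hF (mem_closedBall_zero_iff.mpr hv.1)
      simp only [mem_iUnion] at h2 ⊢
      obtain ⟨w, hw, hvw⟩ := h2
      exact ⟨w, hw, hv, hvw⟩
    calc ∫⁻ x in L, SU c M x ≤ ∫⁻ x in ⋃ w ∈ F, L ∩ ball w R', SU c M x := lintegral_mono_set h1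
      _ ≤ ∑ w ∈ F, ∫⁻ x in L ∩ ball w R', SU c M x := lint_biUnion F _ _
      _ ≤ _ := Finset.sum_le_sum fun w _ => hCL2 w M
  have hvol : ∀ ε : ENNReal, ε ≠ 0 → ∃ n, volume ((f 2 c)^[n] ⁻¹' L) < ε := by
    intro ε hε
    by_contra hcon2
    push Not at hcon2
    have h1 : ∀ M : ℕ, (M : ENNReal) * ε ≤ CC := by
      intro M
      calc (M : ENNReal) * ε = ∑ n ∈ Finset.range M, ε := by simp
        _ ≤ ∑ n ∈ Finset.range M, volume ((f 2 c)^[n] ⁻¹' L) :=
            Finset.sum_le_sum fun n _ => hcon2 n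
        _ = ∑ n ∈ Finset.range M, ∫⁻ x in L, UU 2 c n x :=
            Finset.sum_congr rfl fun n _ => vol_iter le_rfl c n hLm
        _ = ∫⁻ x in L, SU c M x := by
            unfold SU
            rw [lintegral_finsetSum (Finset.range M) (f := fun n x => UU 2 c n x)
              (fun n _ => measurable_LE_iter n measurable_const)]
        _ ≤ CC := hLint M
    have h2 : CC / ε ≠ ⊤ := ENNReal.div_ne_top hCCt hε
    obtain ⟨M, hM⟩ := ENNReal.exists_nat_gt h2
    rcases eq_or_ne ε ⊤ with rfl | hεt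
    · have h3 := h1 1
      rw [Nat.cast_one, one_mul, top_le_iff] at h3
      exact hCCt h3
    · have h3 := h1 M
      rw [← ENNReal.le_div_iff_mul_le (Or.inl hε) (Or.inl hεt)] at h3
      exact absurd h3 (not_le.mpr hM)
  -- expansion
  set b : ℝ := c0 * R' / 2 with hb
  have hb0 : 0 < b := by positivity
  have hexp : ∀ n, ∀ v ∈ Ω, R' ≤ T ((f 2 c)^[n] v) → b ≤ ‖deriv ((f 2 c)^[n]) v‖ * T v := by
    intro n v hv hvT
    have hTv := hTpos v hv
    obtain ⟨a, ha, hda⟩ := (infDist_lt_iff (s := Ωᶜ) (x := v) hne (r := 2 * T v)).mp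
      (by change T v < 2 * T v; linarith)
    set y := (f 2 c)^[n] v with hy
    have hsub : ball y R' ⊆ Ω := (ball_subset_ball hvT).trans (hTball y)
    obtain ⟨g, hg1, hg2, hg3⟩ := branch_at (c := c) (y := y) hR'0 n
      (fun k _ hk => hzΩ k (hsub hk)) v rfl
    have hu := univ_branch hg1 hg2
    have hom : ∀ w ∈ ball y R', g w ≠ a := by
      intro w hw hgw
      apply ha
      rw [← hgw]
      exact hpre n (g w) (by rw [hg2 w hw]; exact hsub hw)
    have h1 := K.komit g y R' hR'0 hu a hom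
    have h2 := branch_deriv hg1 hg2 (mem_ball_self hR'0)
    rw [hg3] at h1 h2
    rw [dist_eq_norm] at hda
    have h3 : 0 < ‖deriv g y‖ := by
      rcases (norm_nonneg (deriv g y)).eq_or_lt with h4 | h4
      · rw [← h4, mul_zero] at h2
        exact absurd h2 zero_ne_one
      · exact h4
    have h4 : 0 ≤ ‖deriv ((f 2 c)^[n]) v‖ := norm_nonneg _
    have h5 : c0 * R' ≤ ‖deriv ((f 2 c)^[n]) v‖ * ‖v - a‖ := by
      calc c0 * R' = c0 * R' * (‖deriv ((f 2 c)^[n]) v‖ * ‖deriv g y‖) := by rw [h2, mul_one]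
        _ = ‖deriv ((f 2 c)^[n]) v‖ * (c0 * R' * ‖deriv g y‖) := by ring
        _ ≤ _ := mul_le_mul_of_nonneg_left h1 h4
    have h6 : ‖deriv ((f 2 c)^[n]) v‖ * ‖v - a‖ ≤ ‖deriv ((f 2 c)^[n]) v‖ * (2 * T v) :=
      mul_le_mul_of_nonneg_left hda.le h4
    rw [hb]
    linarith
  -- the chain
  set η : ℝ := min 1 (b / 64) with hη
  have hη0 : 0 < η := by positivity
  have hη1 : η ≤ 1 := min_le_left _ _
  have hηb : 64 * η ≤ b := by
    have : η ≤ b / 64 := min_le_right _ _
    linarith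
  obtain ⟨N, hN⟩ := exists_nat_gt (4 / η)
  rw [div_lt_iff₀ hη0] at hN
  set t₀ : ℝ := T x / 2 with ht₀
  have ht₀0 : 0 < t₀ := by have := hTpos x hxΩ; positivity
  set ρ : ℝ := η / 16 * (t₀ / 2 ^ N) with hρ
  have hρ0 : 0 < ρ := by positivity
  obtain ⟨n, hn⟩ := hvol (volume (ball (0 : ℂ) ρ)) (measure_ball_pos _ _ hρ0).ne'
  have hfind : ∀ y : ℂ, ball y ρ ⊆ Ω → ∃ y' ∈ ball y ρ, R' ≤ T ((f 2 c)^[n] y') := by
    intro y hy
    by_contra hcon3
    push Not at hcon3
    have h1 : ball y ρ ⊆ (f 2 c)^[n] ⁻¹' L := fun y' hy' => ⟨hbd n y' (hy hy'), hcon3 y' hy'⟩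
    have h2 := measure_mono (μ := volume) h1
    rw [Complex.volume_ball] at h2
    rw [Complex.volume_ball] at hn
    exact absurd h2 (not_le.mpr hn)
  have hchain : ∀ j ≤ N, ∃ v ∈ Ω, R' ≤ T ((f 2 c)^[n] v) ∧ t₀ / 2 ^ j ≤ T v ∧
      j * (η / 2) ≤ ‖(f 2 c)^[n] v‖ := by
    intro j
    induction j with
    | zero =>
      intro _
      have h1 : ρ ≤ t₀ := by
        rw [hρ]
        have h2 : t₀ / 2 ^ N ≤ t₀ := div_le_self ht₀0.le (one_le_pow₀ (by norm_num))
        have h3 : η / 16 ≤ 1 := by linarith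
        calc η / 16 * (t₀ / 2 ^ N) ≤ 1 * t₀ := mul_le_mul h3 h2 (by positivity) (by norm_num)
          _ = t₀ := one_mul _
      have h2 : ball x ρ ⊆ Ω := (ball_subset_ball (by linarith)).trans (hTball x)
      obtain ⟨v, hv1, hv2⟩ := hfind x h2
      refine ⟨v, h2 hv1, hv2, ?_, by simp⟩
      have h3 := hTlip x v
      rw [mem_ball, dist_comm] at hv1
      rw [pow_zero, div_one]
      linarith
    | succ j ih =>
      intro hj
      obtain ⟨v, hv1, hv2, hv3, hv4⟩ := ih (by omega)
      have hTv := hTpos v hv1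
      set F : ℂ → ℂ := (f 2 c)^[n] with hF'
      have hFd : Differentiable ℂ F := differentiable_fn 2 c n
      have hE := hexp n v hv1 hv2
      obtain ⟨y, hy1, hy2⟩ : ∃ y ∈ ball v (T v / 4), ‖F v‖ + η < ‖F y‖ := by
        by_contra hcon4
        push Not at hcon4
        have h1 := grow_pt hFd (by positivity : 0 < T v / 4) hη0 hcon4
        rw [le_div_iff₀ (by positivity)] at h1
        linarith
      have hρT : ρ ≤ η * T v / 16 := by
        rw [hρ]
        have h1 : t₀ / 2 ^ N ≤ T v := by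
          refine le_trans ?_ hv3
          apply div_le_div_of_nonneg_left ht₀0.le (by positivity)
          exact pow_le_pow_right₀ (by norm_num) (by omega)
        calc η / 16 * (t₀ / 2 ^ N) ≤ η / 16 * T v := by gcongr
          _ = _ := by ring
      have hρT8 : ρ ≤ T v / 8 := by
        refine hρT.trans ?_
        nlinarith
      rw [mem_ball] at hy1
      have hyb : ball y ρ ⊆ ball v (T v / 2) := by
        intro z hz
        rw [mem_ball] at *
        linarith [dist_triangle z y v]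
      have hhalf : ball v (T v / 2) ⊆ Ω := (ball_subset_ball (by linarith)).trans (hTball v)
      obtain ⟨y', hy'1, hy'2⟩ := hfind y (hyb.trans hhalf)
      have hlip : ‖F y' - F y‖ ≤ 8 / T v * ‖y' - y‖ := by
        have hconv : Convex ℝ (ball v (T v / 2)) := convex_ball _ _
        refine hconv.norm_image_sub_le_of_norm_deriv_le (𝕜 := ℂ) (f := F) (C := 8 / T v) ?_ ?_ ?_ ?_
        · intro z _
          exact hFd z
        · intro z hz
          have h1 := cauchy_iter (d := 2) (c := c) (x := z) (s := T v / 2) (by positivity) (n := n)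
            (fun u hu => hbd n u (hTball v (by
              rw [mem_ball] at *
              linarith [dist_triangle u z v])))
          have h2 : 4 / (T v / 2) = 8 / T v := by field_simp; norm_num
          rwa [h2] at h1
        · exact hyb (mem_ball_self hρ0)
        · exact hyb hy'1
      have hy'd : ‖y' - y‖ ≤ ρ := by
        rw [mem_ball, dist_eq_norm] at hy'1
        exact hy'1.le
      have h3 : ‖F y' - F y‖ ≤ η / 2 := by
        refine hlip.trans ?_
        calc 8 / T v * ‖y' - y‖ ≤ 8 / T v * (η * T v / 16) := by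
              gcongr
              exact hy'd.trans hρT
          _ = η / 2 := by field_simp; norm_num
      have h4 : ‖F y‖ ≤ ‖F y'‖ + ‖F y' - F y‖ := by
        calc ‖F y‖ = ‖F y' - (F y' - F y)‖ := by congr 1; ring
          _ ≤ _ := norm_sub_le _ _
      refine ⟨y', hhalf (hyb hy'1), hy'2, ?_, ?_⟩
      · have h5 := hTlip v y'
        have h6 := hyb hy'1
        rw [mem_ball, dist_comm] at h6
        rw [pow_succ, ← div_div]
        linarith
      · push_cast
        linarith
  obtain ⟨v, hv1, -, -, hv4⟩ := hchain N le_rfl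
  have h5 := hbd n v hv1
  linarith

end Pool.Agent.Y298.SH.CE
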