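import Mathlib
import Pool.Agent.Y298.CE.Hole

/-!
# The truncated iterates at a Collet-Eckmann parameter
-/

set_option autoImplicit false

open Set Filter Metric MeasureTheory

namespace Pool.Agent.Y298.SH.CE

open Pool.Agent.TH279.MD Pool.Agent.Y298.SH
open Pool.Agent.W746.LD (Univ KC exists_KC)

variable {C₁ lam : ℝ} {c : ℂ}

theorem CEp.psi_tendsto (h : CEp C₁ lam c) {δ : ℝ} (hδ : 0 < δ) (w : ℂ) :
    Tendsto (fun m => psi 2 δ c m w) atTop (nhds 0) := by
  obtain ⟨C0, c0, K⟩ := exists_KC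
  obtain ⟨θ, τ, A, t, R₀, J⟩ := h.exists_Mj K
  obtain ⟨Y, hY0, hY⟩ := J.hall
  set R : ℝ := δ ^ 2 / (2 * Y) with hR
  have hR0 : 0 < R := by positivity
  obtain ⟨x, hx, hxe⟩ := h.esc_dense w (s := R / 8) (by positivity)
  rw [mem_ball, dist_eq_norm] at hx
  have h1 := psi_le J.G K hR0 hδ h.Pd_pos (w := w) (by
    intro j _
    have h2 := hY j
    have h3 := h.Pd_pos j
    have h4 : A * θ ^ j / Pd c j ≤ Y := by rwa [div_le_iff₀ h3]
    calc A * θ ^ j / Pd c j * (2 * R) ≤ Y * (2 * R) := by gcongr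
      _ = δ ^ 2 := by rw [hR]; field_simp) hx.le
  have h2 : Tendsto (fun m => ENNReal.ofReal (C0 ^ 2) * UU 2 c m x) atTop (nhds 0) := by
    have := ENNReal.Tendsto.const_mul (ENNReal.tendsto_atTop_zero_of_tsum_ne_top
      (hxe.sum K h.bd)) (a := ENNReal.ofReal (C0 ^ 2)) (Or.inr ENNReal.ofReal_ne_top)
    simpa using this
  have h3 : Tendsto (fun m => ENNReal.ofReal (psi 2 δ c m w)) atTop (nhds 0) :=
    tendsto_of_tendsto_of_tendsto_of_le_of_le tendsto_const_nhds h2 (fun _ => bot_le) h1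
  have h4 := (ENNReal.tendsto_toReal ENNReal.zero_ne_top).comp h3
  refine h4.congr ?_
  intro m
  simp only [Function.comp]
  rw [ENNReal.toReal_ofReal (psi_nonneg hδ c m w)]

/-- Uniform decay from pointwise decay. -/
theorem psi_small_of {d : ℕ} (hd : 2 ≤ d) {c₀ : ℂ} (hc3 : ‖c₀‖ ≤ 3) {δ : ℝ} (hδ : 0 < δ)
    (hT : ∀ w, Tendsto (fun m => psi d δ c₀ m w) atTop (nhds 0)) {r : ℝ} (hr : 4 ≤ r) {ε : ℝ}
    (hε : 0 < ε) : ∃ m : ℕ, 1 ≤ m ∧ ∀ w : ℂ, ‖w‖ ≤ r → psi d δ c₀ m w ≤ ε := by
  have h1 : ∀ w : ℂ, ∃ m : ℕ, 1 ≤ m ∧ psi d δ c₀ m w < 1 / 2 := by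
    intro w
    have h2 := (hT w).eventually_lt_const (by norm_num : (0 : ℝ) < 1 / 2)
    obtain ⟨m, hm1, hm2⟩ := (h2.and (eventually_ge_atTop 1)).exists
    exact ⟨m, hm2, hm1⟩
  choose mm hmm1 hmm2 using h1
  obtain ⟨t, ht⟩ := (isCompact_closedBall (0 : ℂ) r).elim_finite_subcover
    (fun x : ℂ => {w | psi d δ c₀ (mm x) w < 1 / 2})
    (fun x => isOpen_lt (continuous_psi_right hd hδ c₀ _) continuous_const)
    (fun x _ => mem_iUnion.mpr ⟨x, hmm2 x⟩)
  obtain ⟨N, hN⟩ : ∃ N : ℕ, ∀ x ∈ t, mm x ≤ N := ⟨t.sup mm, fun x hx => Finset.le_sup hx⟩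
  have hN1 : ∀ w : ℂ, ‖w‖ ≤ r → ∃ m, 1 ≤ m ∧ m ≤ N ∧ psi d δ c₀ m w < 1 / 2 := by
    intro w hw
    have h2 := ht (mem_closedBall_zero_iff.mpr hw)
    simp only [mem_iUnion] at h2
    obtain ⟨x, hx, hxw⟩ := h2
    exact ⟨mm x, hmm1 x, hN x hx, hxw⟩
  obtain ⟨A, hA0, hA⟩ : ∃ A : ℝ, 0 < A ∧ ∀ n ≤ N, ∀ w : ℂ, ‖w‖ ≤ r → psi d δ c₀ n w ≤ A := by
    have h2 : ∀ n, ∃ B : ℝ, 0 < B ∧ ∀ w : ℂ, ‖w‖ ≤ r → psi d δ c₀ n w ≤ B := by
      intro n
      obtain ⟨B, hB⟩ := (isCompact_closedBall (0 : ℂ) r).exists_bound_of_continuousOn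
        (continuous_psi_right hd hδ c₀ n).continuousOn
      refine ⟨|B| + 1, by positivity, fun w hw => ?_⟩
      have h3 := hB w (mem_closedBall_zero_iff.mpr hw)
      rw [Real.norm_eq_abs] at h3
      have h4 := le_abs_self (psi d δ c₀ n w)
      have h5 := le_abs_self B
      linarith
    choose B hB0 hB using h2
    refine ⟨∑ n ∈ Finset.range (N + 1), B n, Finset.sum_pos (fun n _ => hB0 n) (by simp), ?_⟩
    intro n hn w hw
    refine (hB n w hw).trans ?_
    exact Finset.single_le_sum (f := B) (fun n _ => (hB0 n).le)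
      (Finset.mem_range.mpr (by omega : n < N + 1))
  have key : ∀ k n : ℕ, k * N ≤ n → ∀ w : ℂ, ‖w‖ ≤ r → psi d δ c₀ n w ≤ A * (1 / 2) ^ k := by
    intro k
    induction k with
    | zero =>
      intro n
      induction n using Nat.strong_induction_on with
      | _ n ih =>
        intro _ w hw
        rw [pow_zero, mul_one]
        by_cases hn : n ≤ N
        · exact hA n hn w hw
        · obtain ⟨m, hm1, hm2, hm3⟩ := hN1 w hw
          have h2 : psi d δ c₀ n w ≤ A * psi d δ c₀ m w := by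
            rw [show n = m + (n - m) by omega, RO_iter_add]
            refine RO_iter_le hd hδ hc3 hr (fun y hy => ?_) m hw
            have := ih (n - m) (by omega) (by omega) y hy
            rwa [pow_zero, mul_one] at this
          nlinarith
    | succ k ih =>
      intro n hn w hw
      obtain ⟨m, hm1, hm2, hm3⟩ := hN1 w hw
      have hkn : k * N ≤ n - m ∧ m ≤ n := by
        have : (k + 1) * N = k * N + N := by ring
        omega
      have h2 : psi d δ c₀ n w ≤ A * (1 / 2) ^ k * psi d δ c₀ m w := by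
        rw [show n = m + (n - m) by omega, RO_iter_add]
        exact RO_iter_le hd hδ hc3 hr (fun y hy => ih (n - m) hkn.1 y hy) m hw
      have h3 : 0 < A * (1 / 2) ^ k := by positivity
      rw [pow_succ]
      nlinarith
  obtain ⟨k, hk⟩ := exists_pow_lt_of_lt_one (by positivity : 0 < ε / A)
    (by norm_num : (1 / 2 : ℝ) < 1)
  refine ⟨k * N + 1, by omega, fun w hw => ?_⟩
  refine (key k (k * N + 1) (by omega) w hw).trans ?_
  rw [lt_div_iff₀ hA0] at hk
  linarith

theorem CEp.psi_small (h : CEp C₁ lam c) {δ : ℝ} (hδ : 0 < δ) {r : ℝ} (hr : 4 ≤ r) {ε : ℝ}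
    (hε : 0 < ε) : ∃ m : ℕ, 1 ≤ m ∧ ∀ w : ℂ, ‖w‖ ≤ r → psi 2 δ c m w ≤ ε :=
  psi_small_of le_rfl (h.c_le.trans (by norm_num)) hδ (h.psi_tendsto hδ) hr hε

/-- volume of a small ball, from below -/
theorem vol_ball_ge (y : ℂ) {ρ : ℝ} (hρ : 0 ≤ ρ) :
    ENNReal.ofReal (3 * ρ ^ 2) ≤ volume (closedBall y ρ) := by
  rw [Complex.volume_closedBall, ENNReal.ofReal_mul (by norm_num), ← ENNReal.ofReal_pow hρ, mul_comm]
  gcongr
  rw [← ENNReal.ofReal_coe_nnreal, NNReal.coe_real_pi]
  exact ENNReal.ofReal_le_ofReal Real.pi_gt_three.le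

/-- **Uniform bound of the truncated Green sums near the critical point.** -/
theorem CEp.psi_sum (h : CEp C₁ lam c) : ∃ ρ₀ Γ : ℝ, 0 < ρ₀ ∧ 0 ≤ Γ ∧ ∀ δ : ℝ, 0 < δ →
    2 * δ ≤ ρ₀ → ∀ m : ℕ, ∀ y : ℂ, ‖y‖ ≤ 2 * δ → ∑ j ∈ Finset.range m, psi 2 δ c j y ≤ Γ := by
  obtain ⟨C0, c0, K⟩ := exists_KC
  obtain ⟨θ, τ, A, t, R₀, J⟩ := h.exists_Mj K
  have hP := h.Pd_pos
  have G := J.G
  have hR₀ := J.R0
  obtain ⟨X, hX⟩ := J.sum_all
  obtain ⟨Ci, hCi, HC⟩ := inv_int
  obtain ⟨x₀, hx₀, hx₀e⟩ := h.esc_zero (s := R₀ / 8) (by positivity)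
  rw [mem_ball_zero_iff] at hx₀
  set κ : ENNReal := ENNReal.ofReal (C0 ^ 4) * ∑' j, UU 2 c j x₀ with hκ
  have hκt : κ ≠ ⊤ := ENNReal.mul_ne_top ENNReal.ofReal_ne_top (hx₀e.sum K h.bd)
  have hmaj : ∀ M y, ‖y‖ ≤ R₀ / 8 → SU c M y ≤ κ * (1 + Ps c t R₀ y) := fun M =>
    majorant G K hR₀ J.t1 hP h.zz_ne (J.hsum R₀ hR₀ le_rfl) (fun k hk => J.small hP hR₀ le_rfl k hk)
      (J.heps R₀ hR₀ le_rfl) hx₀.le M
  have hC := K.one_le
  set D : ENNReal := ENNReal.ofReal (C0 ^ 2) * (κ * (1 + ENNReal.ofReal (4 + 22 * Ci) *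
    ENNReal.ofReal X)) with hD
  have hDt : D ≠ ⊤ := by
    apply ENNReal.mul_ne_top ENNReal.ofReal_ne_top
    apply ENNReal.mul_ne_top hκt
    apply ENNReal.add_ne_top.mpr
    exact ⟨ENNReal.one_ne_top, ENNReal.mul_ne_top ENNReal.ofReal_ne_top ENNReal.ofReal_ne_top⟩
  refine ⟨R₀ / 32, D.toReal, by positivity, ENNReal.toReal_nonneg, ?_⟩
  intro δ hδ hδ2 m y hy
  set ρ : ℝ := δ / 16 with hρ
  have hρ0 : 0 < ρ := by positivity
  -- comparison on a small ball
  have h1 : ∀ x ∈ closedBall y ρ, ENNReal.ofReal (∑ j ∈ Finset.range m, psi 2 δ c j y) ≤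
      ENNReal.ofReal (C0 ^ 2) * (κ * (1 + Ps c t R₀ x)) := by
    intro x hx
    rw [mem_closedBall, dist_eq_norm] at hx
    have hx2 : ‖x‖ ≤ R₀ / 8 := by
      have : ‖x‖ ≤ ‖y‖ + ‖x - y‖ := by
        calc ‖x‖ = ‖y + (x - y)‖ := by congr 1; ring
          _ ≤ _ := norm_add_le _ _
      linarith
    rw [ENNReal.ofReal_sum_of_nonneg (fun j _ => psi_nonneg hδ c j y)]
    calc ∑ j ∈ Finset.range m, ENNReal.ofReal (psi 2 δ c j y)
        ≤ ∑ j ∈ Finset.range m, ENNReal.ofReal (C0 ^ 2) * UU 2 c j x := by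
          apply Finset.sum_le_sum
          intro j _
          refine psi_le G K (R := δ / 2) (by positivity) hδ hP (w := y) ?_ (by linarith) j
          intro i hi
          rw [mem_ball, dist_eq_norm] at hi
          have h2 : ‖zz c i‖ < 3 * δ := by
            have : ‖zz c i‖ ≤ ‖y‖ + ‖zz c i - y‖ := by
              calc ‖zz c i‖ = ‖y + (zz c i - y)‖ := by congr 1; ring
                _ ≤ _ := norm_add_le _ _
            linarith
          have h3 := J.hsmall i (by linarith)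
          rw [Pd_succ] at h3
          have h4 := hP i
          have h5 : 1000 * (A * θ ^ i) ≤ 6 * δ * Pd c i := by
            refine h3.trans ?_
            have : 2 * ‖zz c i‖ ≤ 6 * δ := by linarith
            exact mul_le_mul_of_nonneg_right this h4.le
          rw [div_mul_eq_mul_div, div_le_iff₀ h4]
          nlinarith
      _ = ENNReal.ofReal (C0 ^ 2) * SU c m x := by
          unfold SU
          rw [Finset.mul_sum]
      _ ≤ _ := by
          gcongr
          exact hmaj m x hx2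
  -- integration
  have hfin : volume (closedBall y ρ) ≠ ⊤ := (isCompact_closedBall _ _).measure_lt_top.ne
  have hv0 : volume (closedBall y ρ) ≠ 0 := (measure_closedBall_pos _ _ hρ0).ne'
  have h2 : ENNReal.ofReal (∑ j ∈ Finset.range m, psi 2 δ c j y) * volume (closedBall y ρ) ≤
      D * volume (closedBall y ρ) := by
    have h3 : ∫⁻ x in closedBall y ρ, (1 + Ps c t R₀ x) ≤
        (1 + ENNReal.ofReal (4 + 22 * Ci) * ENNReal.ofReal X) * volume (closedBall y ρ) := by
      rw [lintegral_add_left measurable_const, lintegral_one, Measure.restrict_apply_univ, add_mul,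
        one_mul]
      gcongr
      unfold Ps
      rw [lintegral_tsum (fun i => (measurable_tt c t R₀ i).aemeasurable)]
      have h4 : ∀ i, ∫⁻ x in closedBall y ρ, tt c t R₀ i x ≤
          ENNReal.ofReal (4 + 22 * Ci) * ENNReal.ofReal (qq c t i / ‖zz c i‖) *
            volume (closedBall y ρ) := by
        intro i
        have hzi : 0 < ‖zz c i‖ := norm_pos_iff.mpr (h.zz_ne i)
        have hPi := hP i
        have hq0 : 0 ≤ qq c t i := by
          have := J.t1
          unfold qq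
          positivity
        unfold tt
        by_cases hi : ‖zz c i‖ < 2 * R₀
        swap
        · simp only [if_neg hi, lintegral_zero]
          exact bot_le
        simp only [if_pos hi]
        rw [lintegral_const_mul' _ _ ENNReal.ofReal_ne_top]
        by_cases hfar : 4 * δ ≤ ‖zz c i‖
        · have h5 : ∫⁻ x in closedBall y ρ, (ENNReal.ofReal ‖x - zz c i‖)⁻¹ ≤
              ENNReal.ofReal (4 / ‖zz c i‖) * volume (closedBall y ρ) := by
            rw [← setLIntegral_const]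
            apply setLIntegral_mono' measurableSet_closedBall
            intro x hx
            rw [mem_closedBall, dist_eq_norm] at hx
            have h6 : ‖zz c i‖ / 4 ≤ ‖x - zz c i‖ := by
              have h7 : ‖zz c i‖ ≤ ‖x - zz c i‖ + ‖x - y‖ + ‖y‖ := by
                calc ‖zz c i‖ = ‖-(x - zz c i) + (x - y) + y‖ := by congr 1; ring
                  _ ≤ ‖-(x - zz c i) + (x - y)‖ + ‖y‖ := norm_add_le _ _
                  _ ≤ (‖-(x - zz c i)‖ + ‖x - y‖) + ‖y‖ := by gcongr; exact norm_add_le _ _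
                  _ = _ := by rw [norm_neg]
              linarith
            rw [← ENNReal.ofReal_inv_of_pos (by linarith)]
            apply ENNReal.ofReal_le_ofReal
            rw [← one_div, div_le_div_iff₀ (by linarith) hzi]
            linarith
          calc ENNReal.ofReal (qq c t i) * ∫⁻ x in closedBall y ρ, (ENNReal.ofReal ‖x - zz c i‖)⁻¹
              ≤ ENNReal.ofReal (qq c t i) * (ENNReal.ofReal (4 / ‖zz c i‖) *
                volume (closedBall y ρ)) := by gcongr
            _ = ENNReal.ofReal (4 * (qq c t i / ‖zz c i‖)) * volume (closedBall y ρ) := by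
                rw [← mul_assoc, ← ENNReal.ofReal_mul hq0]
                congr 2
                ring
            _ ≤ _ := by
                rw [← ENNReal.ofReal_mul (by positivity)]
                gcongr
                linarith
        · rw [not_le] at hfar
          have h5 := HC (zz c i) y ρ hρ0.le
          calc ENNReal.ofReal (qq c t i) * ∫⁻ x in closedBall y ρ, (ENNReal.ofReal ‖x - zz c i‖)⁻¹
              ≤ ENNReal.ofReal (qq c t i) * ENNReal.ofReal (Ci * ρ) := by gcongr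
            _ ≤ ENNReal.ofReal (22 * Ci) * ENNReal.ofReal (qq c t i / ‖zz c i‖) *
                ENNReal.ofReal (3 * ρ ^ 2) := by
                rw [← ENNReal.ofReal_mul hq0, ← ENNReal.ofReal_mul (by positivity),
                  ← ENNReal.ofReal_mul (by positivity)]
                apply ENNReal.ofReal_le_ofReal
                have h6 : ‖zz c i‖ ≤ 64 * ρ := by
                  rw [hρ]
                  linarith
                calc qq c t i * (Ci * ρ) = (qq c t i / ‖zz c i‖) * (Ci * ρ) * ‖zz c i‖ := by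
                      field_simp
                  _ ≤ (qq c t i / ‖zz c i‖) * (Ci * ρ) * (64 * ρ) := by gcongr
                  _ ≤ _ := by
                      have h7 : 0 ≤ (qq c t i / ‖zz c i‖) * Ci * ρ ^ 2 := by positivity
                      nlinarith
            _ ≤ _ := by
                gcongr
                · linarith
                · exact vol_ball_ge y hρ0.le
      refine (ENNReal.tsum_le_tsum h4).trans ?_
      rw [ENNReal.tsum_mul_right, ENNReal.tsum_mul_left]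
      gcongr
    calc ENNReal.ofReal (∑ j ∈ Finset.range m, psi 2 δ c j y) * volume (closedBall y ρ)
        = ∫⁻ x in closedBall y ρ, ENNReal.ofReal (∑ j ∈ Finset.range m, psi 2 δ c j y) := by
          rw [setLIntegral_const]
      _ ≤ ∫⁻ x in closedBall y ρ, ENNReal.ofReal (C0 ^ 2) * (κ * (1 + Ps c t R₀ x)) :=
          setLIntegral_mono' measurableSet_closedBall h1
      _ = ENNReal.ofReal (C0 ^ 2) * (κ * ∫⁻ x in closedBall y ρ, (1 + Ps c t R₀ x)) := by
          rw [lintegral_const_mul' _ _ ENNReal.ofReal_ne_top, lintegral_const_mul' _ _ hκt]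
      _ ≤ ENNReal.ofReal (C0 ^ 2) * (κ * ((1 + ENNReal.ofReal (4 + 22 * Ci) *
            ENNReal.ofReal X) * volume (closedBall y ρ))) := by gcongr
      _ = _ := by
          rw [hD]
          ring
  have h3 : ENNReal.ofReal (∑ j ∈ Finset.range m, psi 2 δ c j y) ≤ D :=
    (ENNReal.mul_le_mul_iff_left hv0 hfin).mp h2
  exact (ENNReal.ofReal_le_iff_le_toReal hDt).mp h3

end Pool.Agent.Y298.SH.CE
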