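import Mathlib
import Pool.Agent.Y298.CE.PsiCE

/-!
# Univalent passages near the critical value
-/

set_option autoImplicit false

open Set Filter Metric MeasureTheory

namespace Pool.Agent.Y298.SH.CE

open Pool.Agent.TH279.MD Pool.Agent.Y298.SH
open Pool.Agent.W746.LD (Univ KC exists_KC)

/-- partial sums of a geometric series -/
theorem geom_part {r : ℝ} (h0 : 0 < r) (h1 : r < 1) (n : ℕ) :
    ∑ i ∈ Finset.range n, r ^ i ≤ 1 / (1 - r) := by
  have h2 : 0 < 1 - r := by linarith
  have h3 := (summable_geometric_of_lt_one h0.le h1).sum_le_tsum (Finset.range n)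
    (fun i _ => by positivity)
  rw [tsum_geometric_of_lt_one h0.le h1] at h3
  rwa [one_div]

/-- **Passage lemma.** The constants depend only on `C₁`, `lam` and `θ`. -/
theorem passage (C₁ lam θ : ℝ) (hC₁ : 1 ≤ C₁) (hlam : 1 < lam) (hθ : 1 < θ) :
    ∃ B Ca : ℝ, 1 ≤ Ca ∧ Ca ≤ B ∧ ∀ c₀ : ℂ, CEp C₁ lam c₀ → ∀ (c : ℂ) (s : ℝ) (k : ℕ), 0 < s →
      ‖c - c₀‖ ≤ s → (∀ j < k, B * θ ^ j * s * Pd c₀ j ≤ ‖zz c₀ j‖) → 
      (∀ x ∈ ball c s, ‖(f 2 c)^[k] x - zz c₀ k‖ ≤ Ca * s * Pd c₀ k) ∧
      (∀ x ∈ ball c s, Pd c₀ k / 2 ≤ ‖deriv ((f 2 c)^[k]) x‖) ∧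
      InjOn ((f 2 c)^[k]) (ball c s) := by
  set SP : ℝ := C₁ * (1 / (1 - 1 / lam)) with hSP
  have hl0 : 0 < lam := by linarith
  have hil : 0 < 1 / lam := by positivity
  have hil1 : 1 / lam < 1 := by rw [div_lt_one hl0]; exact hlam
  have hSP0 : 0 < SP := by
    have : 0 < 1 - 1 / lam := by linarith
    positivity
  set Ca : ℝ := 2 * (1 + SP) with hCa
  have hCa1 : 1 ≤ Ca := by rw [hCa]; linarith
  have hiθ : 0 < 1 / θ := by positivity
  have hiθ1 : 1 / θ < 1 := by rw [div_lt_one (by linarith)]; exact hθ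
  set Sθ : ℝ := 1 / (1 - 1 / θ) with hSθ
  have hSθ0 : 0 < Sθ := by
    have : 0 < 1 - 1 / θ := by linarith
    positivity
  set B : ℝ := Ca * (1 + 2 * Sθ) with hB
  have hB0 : 0 < B := by positivity
  refine ⟨B, Ca, hCa1, ?_, ?_⟩
  · rw [hB]
    nlinarith
  intro c₀ h c s k hs hc hk
  have hP := h.Pd_pos
  have hθ0 : 0 < θ := by linarith
  -- the sequences
  set b : ℕ → ℝ := fun i => Ca / (B * θ ^ i) with hb
  have hb0 : ∀ i, 0 < b i := fun i => by positivity
  have hbs : ∀ n, ∑ i ∈ Finset.range n, b i ≤ 1 / 2 := by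
    intro n
    have h1 : ∀ i, b i = Ca / B * (1 / θ) ^ i := by
      intro i
      rw [hb, one_div, inv_pow]
      field_simp
    simp only [h1]
    rw [← Finset.mul_sum]
    have h2 := geom_part hiθ hiθ1 n
    calc Ca / B * ∑ i ∈ Finset.range n, (1 / θ) ^ i ≤ Ca / B * Sθ := by gcongr
      _ ≤ 1 / 2 := by
          rw [hB, div_mul_eq_mul_div, div_le_div_iff₀ (by positivity) (by norm_num)]
          nlinarith
  set E : ℕ → ℝ := fun j => Real.exp (∑ i ∈ Finset.range j, b i / 2) with hE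
  have hE1 : ∀ j, 1 ≤ E j := fun j => Real.one_le_exp (Finset.sum_nonneg fun i _ => by
    have := hb0 i; positivity)
  have hE2 : ∀ j, E j ≤ 2 := by
    intro j
    have h1 : ∑ i ∈ Finset.range j, b i / 2 ≤ 1 / 4 := by
      rw [← Finset.sum_div]
      linarith [hbs j]
    have h2 : Real.exp (1 / 4) ≤ 2 := by
      have h3 := Real.exp_one_lt_d9
      have h4 : Real.exp (1 / 4) ≤ Real.exp (1 / 2) := Real.exp_le_exp.mpr (by norm_num)
      have h5 : Real.exp (1 / 2) ^ 2 = Real.exp 1 := by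
        rw [← Real.exp_nat_mul]
        norm_num
      have h6 := Real.exp_pos (1 / 2)
      nlinarith
    exact (Real.exp_le_exp.mpr h1).trans h2
  have hE3 : ∀ j, E j * (1 + b j / 2) ≤ E (j + 1) := by
    intro j
    rw [hE]
    beta_reduce
    rw [Finset.sum_range_succ, Real.exp_add]
    gcongr
    have := Real.add_one_le_exp (b j / 2)
    linarith
  set S : ℕ → ℝ := fun j => ∑ i ∈ Finset.range (j + 1), 1 / Pd c₀ i with hS
  have hS0 : ∀ j, 0 ≤ S j := fun j => Finset.sum_nonneg fun i _ => by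
    have := hP i; positivity
  have hSb : ∀ j, S j ≤ SP := by
    intro j
    have h1 : ∀ i, 1 / Pd c₀ i ≤ C₁ * (1 / lam) ^ i := by
      intro i
      have := h.exp i
      have h2 := hP i
      rw [one_div lam, inv_pow, ← div_eq_mul_inv, div_le_div_iff₀ h2 (by positivity)]
      linarith
    calc S j ≤ ∑ i ∈ Finset.range (j + 1), C₁ * (1 / lam) ^ i :=
          Finset.sum_le_sum fun i _ => h1 i
      _ = C₁ * ∑ i ∈ Finset.range (j + 1), (1 / lam) ^ i := by rw [Finset.mul_sum]
      _ ≤ SP := by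
          rw [hSP]
          gcongr
          exact geom_part hil hil1 _
  have hcoef : ∀ j, s * (1 + S j) * E j * Pd c₀ j ≤ Ca * s * Pd c₀ j := by
    intro j
    have := hP j
    have h1 : (1 + S j) * E j ≤ (1 + SP) * 2 :=
      mul_le_mul (by linarith [hSb j]) (hE2 j) (by linarith [hE1 j]) (by linarith)
    calc s * (1 + S j) * E j * Pd c₀ j = s * Pd c₀ j * ((1 + S j) * E j) := by ring
      _ ≤ s * Pd c₀ j * ((1 + SP) * 2) := by gcongr
      _ = _ := by rw [hCa]; ring
  have hdelta : ∀ j < k, Ca * s * Pd c₀ j ≤ b j * ‖zz c₀ j‖ := by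
    intro j hj
    have h1 := hk j hj
    rw [hb]
    beta_reduce
    rw [div_mul_eq_mul_div, le_div_iff₀ (by positivity)]
    have hCa0 : 0 < Ca := by linarith
    calc Ca * s * Pd c₀ j * (B * θ ^ j) = Ca * (B * θ ^ j * s * Pd c₀ j) := by ring
      _ ≤ _ := by gcongr
  -- closeness
  have I1 : ∀ x ∈ ball c s, ∀ j ≤ k, ‖(f 2 c)^[j] x - zz c₀ j‖ ≤ s * (1 + S j) * E j * Pd c₀ j := by
    intro x hx j
    induction j with
    | zero =>
      intro _
      have h1 : S 0 = 1 := by rw [hS]; simp [Pd_zero]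
      have h2 : E 0 = 1 := by rw [hE]; simp
      rw [h1, h2, Pd_zero, Function.iterate_zero, id_eq, zz_zero]
      rw [mem_ball, dist_eq_norm] at hx
      calc ‖x - c₀‖ = ‖(x - c) + (c - c₀)‖ := by congr 1; ring
        _ ≤ ‖x - c‖ + ‖c - c₀‖ := norm_add_le _ _
        _ ≤ _ := by linarith
    | succ j ih =>
      intro hj
      have ih' := ih (by omega)
      have h1 : ‖(f 2 c)^[j] x - zz c₀ j‖ ≤ b j * ‖zz c₀ j‖ :=
        ih'.trans ((hcoef j).trans (hdelta j (by omega)))
      rw [Function.iterate_succ_apply', f_two, zz_succ]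
      set u := (f 2 c)^[j] x
      set z := zz c₀ j
      have h2 : u ^ 2 + c - (z ^ 2 + c₀) = (u - z) * (2 * z + (u - z)) + (c - c₀) := by ring
      have h3 : ‖2 * z + (u - z)‖ ≤ 2 * ‖z‖ * (1 + b j / 2) := by
        calc ‖2 * z + (u - z)‖ ≤ ‖2 * z‖ + ‖u - z‖ := norm_add_le _ _
          _ ≤ 2 * ‖z‖ + b j * ‖z‖ := by
              rw [norm_mul]
              have : ‖(2 : ℂ)‖ = 2 := by norm_num
              rw [this]
              gcongr
          _ = _ := by ring
      have hPj := hP j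
      have hPj1 := hP (j + 1)
      have hz0 := norm_nonneg z
      calc ‖u ^ 2 + c - (z ^ 2 + c₀)‖ ≤ ‖u - z‖ * ‖2 * z + (u - z)‖ + ‖c - c₀‖ := by
            rw [h2]
            exact (norm_add_le _ _).trans (by rw [norm_mul])
        _ ≤ (s * (1 + S j) * E j * Pd c₀ j) * (2 * ‖z‖ * (1 + b j / 2)) + s := by
            have hbj := hb0 j
            have hEj := hE1 j
            have hSj := hS0 j
            gcongr
        _ = s * (1 + S j) * (E j * (1 + b j / 2)) * Pd c₀ (j + 1) + s := by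
            rw [Pd_succ]
            ring
        _ ≤ s * (1 + S j) * E (j + 1) * Pd c₀ (j + 1) +
            s * (1 / Pd c₀ (j + 1)) * E (j + 1) * Pd c₀ (j + 1) := by
            have hSj := hS0 j
            have h4 : s ≤ s * (1 / Pd c₀ (j + 1)) * E (j + 1) * Pd c₀ (j + 1) := by
              have h5 : s * (1 / Pd c₀ (j + 1)) * E (j + 1) * Pd c₀ (j + 1) = s * E (j + 1) := by
                field_simp
              rw [h5]
              nlinarith [hE1 (j + 1)]
            have h6 := hE3 j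
            gcongr
        _ = s * (1 + S (j + 1)) * E (j + 1) * Pd c₀ (j + 1) := by
            have h7 : S (j + 1) = S j + 1 / Pd c₀ (j + 1) := by
              rw [hS]
              beta_reduce
              rw [Finset.sum_range_succ]
            rw [h7]
            ring
  have I1' : ∀ x ∈ ball c s, ∀ j < k, ‖(f 2 c)^[j] x - zz c₀ j‖ ≤ b j * ‖zz c₀ j‖ :=
    fun x hx j hj => (I1 x hx j hj.le).trans ((hcoef j).trans (hdelta j hj))
  -- derivatives
  have I2 : ∀ x ∈ ball c s, ∀ j ≤ k, (1 - ∑ i ∈ Finset.range j, b i) * Pd c₀ j ≤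
      ‖deriv ((f 2 c)^[j]) x‖ := by
    intro x hx j
    induction j with
    | zero =>
      intro _
      simp [Pd_zero]
    | succ j ih =>
      intro hj
      have ih' := ih (by omega)
      have h1 := I1' x hx j (by omega)
      rw [add_comm j 1, deriv_iter_add, Function.iterate_one, deriv_f, norm_mul, norm_mul,
        add_comm 1 j, Finset.sum_range_succ, Pd_succ]
      set u := (f 2 c)^[j] x
      set z := zz c₀ j
      have h2 : ‖z‖ * (1 - b j) ≤ ‖u‖ := by
        have h3 : ‖z‖ ≤ ‖u‖ + ‖u - z‖ := by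
          calc ‖z‖ = ‖u - (u - z)‖ := by congr 1; ring
            _ ≤ _ := norm_sub_le _ _
        linarith
      have hs1 := hbs (j + 1)
      rw [Finset.sum_range_succ] at hs1
      have hs2 : 0 ≤ ∑ i ∈ Finset.range j, b i := Finset.sum_nonneg fun i _ => (hb0 i).le
      have hbj := hb0 j
      set SS := ∑ i ∈ Finset.range j, b i
      have hPj := hP j
      have hz0 := norm_nonneg z
      have e2 : ‖((2 : ℕ) : ℂ)‖ * ‖u ^ (2 - 1)‖ = 2 * ‖u‖ := by norm_num
      rw [e2]
      have h4 : 0 ≤ 1 - b j := by linarith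
      have h5 : 0 ≤ 1 - SS := by linarith
      calc (1 - (SS + b j)) * (2 * ‖z‖ * Pd c₀ j)
          ≤ ((1 - SS) * (1 - b j)) * (2 * ‖z‖ * Pd c₀ j) := by
            gcongr
            nlinarith
        _ = (2 * (‖z‖ * (1 - b j))) * ((1 - SS) * Pd c₀ j) := by ring
        _ ≤ (2 * ‖u‖) * ‖deriv ((f 2 c)^[j]) x‖ := by
            apply mul_le_mul (by linarith) ih' (by positivity) (by positivity)
  -- injectivity
  have I3 : ∀ x ∈ ball c s, ∀ y ∈ ball c s, ∀ j ≤ k,
      (1 - ∑ i ∈ Finset.range j, b i) * Pd c₀ j * ‖x - y‖ ≤ ‖(f 2 c)^[j] x - (f 2 c)^[j] y‖ := by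
    intro x hx y hy j
    induction j with
    | zero =>
      intro _
      simp [Pd_zero]
    | succ j ih =>
      intro hj
      have ih' := ih (by omega)
      have h1 := I1' x hx j (by omega)
      have h1' := I1' y hy j (by omega)
      rw [Function.iterate_succ_apply', Function.iterate_succ_apply', f_two, f_two, Pd_succ,
        Finset.sum_range_succ]
      set u := (f 2 c)^[j] x
      set v := (f 2 c)^[j] y
      set z := zz c₀ j
      have h2 : 2 * ‖z‖ * (1 - b j) ≤ ‖u + v‖ := by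
        have h3 : 2 * ‖z‖ ≤ ‖u + v‖ + (‖u - z‖ + ‖v - z‖) := by
          calc 2 * ‖z‖ = ‖2 * z‖ := by rw [norm_mul]; norm_num
            _ = ‖(u + v) - ((u - z) + (v - z))‖ := by congr 1; ring
            _ ≤ ‖u + v‖ + ‖(u - z) + (v - z)‖ := norm_sub_le _ _
            _ ≤ _ := by gcongr; exact norm_add_le _ _
        linarith
      have hs1 := hbs (j + 1)
      rw [Finset.sum_range_succ] at hs1
      have hs2 : 0 ≤ ∑ i ∈ Finset.range j, b i := Finset.sum_nonneg fun i _ => (hb0 i).le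
      have hbj := hb0 j
      set SS := ∑ i ∈ Finset.range j, b i
      have hPj := hP j
      have hz0 := norm_nonneg z
      have hxy := norm_nonneg (x - y)
      have h4 : 0 ≤ 1 - b j := by linarith
      have h5 : 0 ≤ 1 - SS := by linarith
      have h6 : u ^ 2 + c - (v ^ 2 + c) = (u + v) * (u - v) := by ring
      rw [h6, norm_mul]
      calc (1 - (SS + b j)) * (2 * ‖z‖ * Pd c₀ j) * ‖x - y‖
          ≤ ((1 - SS) * (1 - b j)) * (2 * ‖z‖ * Pd c₀ j) * ‖x - y‖ := by
            gcongr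
            nlinarith
        _ = (2 * ‖z‖ * (1 - b j)) * ((1 - SS) * Pd c₀ j * ‖x - y‖) := by ring
        _ ≤ ‖u + v‖ * ‖u - v‖ := by
            apply mul_le_mul h2 ih' (by positivity) (by positivity)
  refine ⟨fun x hx => (I1 x hx k le_rfl).trans (hcoef k), ?_, ?_⟩
  · intro x hx
    refine le_trans ?_ (I2 x hx k le_rfl)
    have := hbs k
    have := hP k
    nlinarith
  · intro x hx y hy hxy
    have h1 := I3 x hx y hy k le_rfl
    rw [hxy, sub_self, norm_zero] at h1
    by_contra hne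
    have h2 : 0 < ‖x - y‖ := norm_pos_iff.mpr (sub_ne_zero.mpr hne)
    have h3 : 0 < (1 - ∑ i ∈ Finset.range k, b i) * Pd c₀ k * ‖x - y‖ := by
      have := hbs k
      have := hP k
      have : 0 < 1 - ∑ i ∈ Finset.range k, b i := by linarith
      positivity
    linarith

end Pool.Agent.Y298.SH.CE
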