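import Mathlib
import Pool.Agent.Y298.CE.Pass
import Pool.Agent.Y298.SH.Final

/-!
# Areas of the filled Julia set near the critical value and near the critical point
-/

set_option autoImplicit false

open Set Filter Metric MeasureTheory

namespace Pool.Agent.Y298.SH.CE

open Pool.Agent.TH279.MD Pool.Agent.Y298.SH
open Pool.Agent.W746.LD (Univ KC exists_KC)
open Pool.Agent.H713R2.AR (KK)

theorem KK_iff (c z : ℂ) : z ∈ KK 2 c ↔ f 2 c z ∈ KK 2 c := by
  unfold KK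
  rw [mem_setOf_eq, mem_setOf_eq, not_iff_not]
  have h1 : ∀ k, (fun z : ℂ => z ^ 2 + c)^[k] (f 2 c z) = (fun z : ℂ => z ^ 2 + c)^[k + 1] z := by
    intro k
    rw [Function.iterate_succ_apply]
    rfl
  simp only [h1]
  exact (tendsto_add_atTop_iff_nat (f := fun k => (fun z : ℂ => z ^ 2 + c)^[k] z) 1).symm

theorem KK_iter (c z : ℂ) (n : ℕ) : z ∈ KK 2 c ↔ (f 2 c)^[n] z ∈ KK 2 c := by
  induction n with
  | zero => rfl
  | succ n ih => rw [ih, KK_iff, ← Function.iterate_succ_apply' (f 2 c)]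

theorem KK_pre (c : ℂ) : f 2 c ⁻¹' KK 2 c = KK 2 c := by
  ext z
  exact (KK_iff c z).symm

theorem isCompact_KK {c : ℂ} (hc : ‖c‖ ≤ 2) : IsCompact (KK 2 c) := by
  have h0 := Pool.Agent.H713R2.AR.iInter_EE (d := 2) le_rfl hc
  unfold KK
  rw [← h0]
  refine (Pool.Agent.H713R2.AR.isCompact_EE (d := 2) le_rfl hc 0).of_isClosed_subset
    (isClosed_iInter fun j => (Pool.Agent.H713R2.AR.isCompact_EE (d := 2) le_rfl hc j).isClosed)
    (iInter_subset _ 0)

/-- The area of the filled Julia set inside a ball. -/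
noncomputable def va (c v : ℂ) (s : ℝ) : ℝ := (volume (KK 2 c ∩ ball v s)).toReal

/-- The total area. -/
noncomputable def VA (c : ℂ) : ℝ := (volume (KK 2 c)).toReal

theorem vol_ne {c : ℂ} (hc : ‖c‖ ≤ 2) (S : Set ℂ) : volume (KK 2 c ∩ S) ≠ ⊤ :=
  ne_top_of_le_ne_top (isCompact_KK hc).measure_lt_top.ne (measure_mono inter_subset_left)

theorem va_le {c : ℂ} (hc : ‖c‖ ≤ 2) (v : ℂ) (s : ℝ) : va c v s ≤ VA c :=
  ENNReal.toReal_mono (isCompact_KK hc).measure_lt_top.ne (measure_mono inter_subset_left)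

theorem va_nonneg (c v : ℂ) (s : ℝ) : 0 ≤ va c v s := ENNReal.toReal_nonneg

theorem VA_nonneg (c : ℂ) : 0 ≤ VA c := ENNReal.toReal_nonneg

/-- area under a univalent passage -/
theorem va_pass {c : ℂ} (hc : ‖c‖ ≤ 2) {s P T : ℝ} {k : ℕ} (hP : 0 < P)
    (hinj : InjOn ((f 2 c)^[k]) (ball c s))
    (hder : ∀ x ∈ ball c s, P / 2 ≤ ‖deriv ((f 2 c)^[k]) x‖)
    (hsub : ∀ x ∈ ball c s, ‖(f 2 c)^[k] x‖ < T) : va c c s ≤ 4 / P ^ 2 * va c 0 T := by
  set E := KK 2 c ∩ ball c s with hE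
  have hEm : MeasurableSet E := (isCompact_KK hc).measurableSet.inter measurableSet_ball
  have h1 := Pool.Agent.TH136.Tip.lintegral_holo (differentiable_fn 2 c k) hEm
    (hinj.mono inter_subset_right) (fun _ => 1)
  simp only [mul_one, lintegral_one, Measure.restrict_apply_univ] at h1
  have h2 : (f 2 c)^[k] '' E ⊆ KK 2 c ∩ ball 0 T := by
    rintro _ ⟨z, hz, rfl⟩
    refine ⟨(KK_iter c z k).mp hz.1, ?_⟩
    rw [mem_ball_zero_iff]
    exact hsub z hz.2
  have h3 : ENNReal.ofReal ((P / 2) ^ 2) * volume E ≤ volume (KK 2 c ∩ ball 0 T) := by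
    calc ENNReal.ofReal ((P / 2) ^ 2) * volume E = ∫⁻ z in E, ENNReal.ofReal ((P / 2) ^ 2) := by
          rw [setLIntegral_const]
      _ ≤ ∫⁻ z in E, ENNReal.ofReal (‖deriv ((f 2 c)^[k]) z‖ ^ 2) := by
          apply setLIntegral_mono' hEm
          intro z hz
          apply ENNReal.ofReal_le_ofReal
          exact pow_le_pow_left₀ (by positivity) (hder z hz.2) 2
      _ = volume ((f 2 c)^[k] '' E) := h1
      _ ≤ _ := measure_mono h2
  have h4 := ENNReal.toReal_mono (vol_ne hc _) h3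
  rw [ENNReal.toReal_mul, ENNReal.toReal_ofReal (by positivity)] at h4
  unfold va
  rw [div_mul_eq_mul_div, le_div_iff₀ (by positivity)]
  linarith

/-- The integral of the Cauchy kernel over the filled Julia set near the critical value. -/
noncomputable def II (c : ℂ) (ρ : ℝ) : ENNReal :=
  ∫⁻ w in KK 2 c ∩ ball c ρ, ENNReal.ofReal (1 / (2 * ‖w - c‖))

theorem II_bound : ∃ C : ℝ, 0 < C ∧ ∀ c : ℂ, ‖c‖ ≤ 2 → ∀ ρ : ℝ,
    II c ρ ≤ ENNReal.ofReal (C * √(va c c ρ)) := by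
  obtain ⟨C, hC, H⟩ := Pool.Agent.TH279.MD.area_rpow 1 one_pos (by norm_num)
  refine ⟨C, hC, ?_⟩
  intro c hc ρ
  have hm : MeasurableSet (KK 2 c ∩ ball c ρ) :=
    (isCompact_KK hc).measurableSet.inter measurableSet_ball
  have h1 := H c (KK 2 c ∩ ball c ρ) (va c c ρ) hm (va_nonneg c c ρ) (by
    unfold va
    rw [ENNReal.ofReal_toReal (vol_ne hc _)])
  have h2 : (1 : ℝ) - 1 / 2 = 1 / 2 := by norm_num
  rw [h2, ← Real.sqrt_eq_rpow] at h1
  refine le_trans (lintegral_mono fun w => ENNReal.ofReal_le_ofReal ?_) h1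
  beta_reduce
  rw [Real.rpow_one]
  rcases (norm_nonneg (w - c)).eq_or_lt with h3 | h3
  · rw [← h3]; simp
  · rw [div_le_div_iff₀ (by positivity) h3]
    linarith

theorem II_ne {c : ℂ} (hc : ‖c‖ ≤ 2) (ρ : ℝ) : II c ρ ≠ ⊤ := by
  obtain ⟨C, _, H⟩ := II_bound
  exact ne_top_of_le_ne_top ENNReal.ofReal_ne_top (H c hc ρ)

theorem II_mono {c : ℂ} {ρ ρ' : ℝ} (h : ρ ≤ ρ') : II c ρ ≤ II c ρ' :=
  lintegral_mono_set (inter_subset_inter_right _ (ball_subset_ball h))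

theorem II_eq {c : ℂ} (hc : ‖c‖ ≤ 2) {t : ℝ} (ht : 0 < t) :
    II c (t ^ 2) = volume (KK 2 c ∩ ball 0 t) := by
  have hm : MeasurableSet (KK 2 c ∩ ball c (t ^ 2)) :=
    (isCompact_KK hc).measurableSet.inter measurableSet_ball
  have h1 := dualE (d := 2) le_rfl c hm (ψ := fun _ => 1) measurable_const
  rw [lintegral_one, Measure.restrict_apply_univ] at h1
  have h2 : f 2 c ⁻¹' (KK 2 c ∩ ball c (t ^ 2)) = KK 2 c ∩ ball 0 t := by
    rw [preimage_inter, KK_pre]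
    congr 1
    ext y
    rw [mem_preimage, mem_ball, mem_ball, dist_eq_norm, dist_zero_right, f_two,
      add_sub_cancel_right, norm_pow]
    exact pow_lt_pow_iff_left₀ (norm_nonneg _) ht.le (by norm_num)
  rw [h2] at h1
  rw [h1]
  unfold II
  apply lintegral_congr
  intro w
  rw [LE_two (h := rt 2 (w - c)) (rt_pow le_rfl _)]
  have h3 : ‖rt 2 (w - c)‖ ^ 2 = ‖w - c‖ := by rw [← norm_pow, rt_pow le_rfl]
  rw [h3, one_add_one_eq_two, ← ENNReal.ofReal_ofNat, ← ENNReal.ofReal_mul (by norm_num)]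
  congr 1
  rcases (norm_nonneg (w - c)).eq_or_lt with h4 | h4
  · rw [← h4]; simp
  · field_simp
    norm_num

theorem II_half {c : ℂ} (hc : ‖c‖ ≤ 2) {ρ : ℝ} (hρ : 0 < ρ) :
    (II c ρ).toReal ≤ (II c (ρ / 2)).toReal + va c c ρ / ρ := by
  have hm : MeasurableSet (KK 2 c) := (isCompact_KK hc).measurableSet
  have h1 : II c ρ ≤ II c (ρ / 2) + ENNReal.ofReal (1 / ρ) * volume (KK 2 c ∩ ball c ρ) := by
    have h2 : KK 2 c ∩ ball c ρ ⊆ (KK 2 c ∩ ball c (ρ / 2)) ∪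
        (KK 2 c ∩ ball c ρ) \ ball c (ρ / 2) := by
      rintro w ⟨hw1, hw2⟩
      by_cases h : w ∈ ball c (ρ / 2)
      · exact Or.inl ⟨hw1, h⟩
      · exact Or.inr ⟨⟨hw1, hw2⟩, h⟩
    refine (lintegral_mono_set h2).trans ((lintegral_union_le _ _ _).trans ?_)
    refine add_le_add le_rfl ?_
    calc ∫⁻ w in (KK 2 c ∩ ball c ρ) \ ball c (ρ / 2), ENNReal.ofReal (1 / (2 * ‖w - c‖))
        ≤ ∫⁻ w in (KK 2 c ∩ ball c ρ) \ ball c (ρ / 2), ENNReal.ofReal (1 / ρ) := by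
          apply setLIntegral_mono' ((hm.inter measurableSet_ball).diff measurableSet_ball)
          rintro w ⟨_, hw⟩
          apply ENNReal.ofReal_le_ofReal
          rw [mem_ball, dist_eq_norm, not_lt] at hw
          rw [div_le_div_iff₀ (by linarith) hρ]
          linarith
      _ = ENNReal.ofReal (1 / ρ) * volume ((KK 2 c ∩ ball c ρ) \ ball c (ρ / 2)) :=
          setLIntegral_const _ _
      _ ≤ _ := by
          gcongr
          exact diff_subset
  have h3 := ENNReal.toReal_mono (ENNReal.add_ne_top.mpr ⟨II_ne hc _,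
    ENNReal.mul_ne_top ENNReal.ofReal_ne_top (vol_ne hc _)⟩) h1
  rw [ENNReal.toReal_add (II_ne hc _) (ENNReal.mul_ne_top ENNReal.ofReal_ne_top (vol_ne hc _)),
    ENNReal.toReal_mul, ENNReal.toReal_ofReal (by positivity)] at h3
  unfold va
  calc (II c ρ).toReal ≤ _ := h3
    _ = _ := by ring

/-- **The abstract recursion.** -/
theorem recur {μ I : ℝ → ℝ} {A η s₁ e' CG Cb : ℝ} (hμ0 : ∀ s, 0 ≤ μ s) (hI0 : ∀ s, 0 ≤ I s)
    (hI : Monotone I) (hμA : ∀ s, μ s ≤ A) (hη : 0 < η) (he' : 0 < e') (he'1 : e' ≤ 1 / 2)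
    (hs₁ : s₁ ≤ 1) (hCG : CG * (1 - (1 / 2 : ℝ) ^ e') = 1) (hCb : 0 < Cb)
    (hhalf : ∀ ρ, 0 < ρ → I ρ ≤ I (ρ / 2) + μ ρ / ρ)
    (hrec : ∀ s, η ≤ s → s ≤ s₁ → (∃ P T : ℝ, 0 < P ∧ 0 < T ∧ η ≤ T ^ 2 ∧ T ^ 2 ≤ s₁ ∧
      μ s ≤ 4 / P ^ 2 * I (T ^ 2) ∧ 8 * CG * T ≤ P ^ 2 * s ^ (3 / 2 : ℝ) ∧
      8 * (1 + CG) ≤ P ^ 2 * s ^ (1 + e')) ∨ μ s ≤ Cb * A * s ^ (3 / 2 : ℝ)) :
    ∀ ρ, η ≤ ρ → ρ ≤ s₁ → I ρ ≤ I η + CG * (Cb * A * ρ ^ (1 / 2 : ℝ) + I η * ρ ^ e') := by
  set X := I η with hX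
  set Y := Cb * A with hY
  have hA0 : 0 ≤ A := (hμ0 0).trans (hμA 0)
  have hX0 : 0 ≤ X := hI0 η
  have hY0 : 0 ≤ Y := by positivity
  have hg0 : (0 : ℝ) < (1 / 2 : ℝ) ^ e' := by positivity
  have hg1 : (1 / 2 : ℝ) ^ e' < 1 := Real.rpow_lt_one (by norm_num) (by norm_num) he'
  have hCG0 : 0 < CG := by
    have h1 : 0 < 1 - (1 / 2 : ℝ) ^ e' := by linarith
    by_contra hcon
    have : CG * (1 - (1 / 2 : ℝ) ^ e') ≤ 0 := mul_nonpos_of_nonpos_of_nonneg (not_lt.mp hcon) h1.le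
    linarith
  set G : ℝ → ℝ := fun ρ => Y * ρ ^ (1 / 2 : ℝ) + X * ρ ^ e' with hG
  have hG0 : ∀ ρ, 0 ≤ ρ → 0 ≤ G ρ := fun ρ hρ => by
    rw [hG]
    beta_reduce
    positivity
  have hGhalf : ∀ ρ, 0 ≤ ρ → G (ρ / 2) ≤ (1 / 2 : ℝ) ^ e' * G ρ := by
    intro ρ hρ
    rw [hG]
    beta_reduce
    have e1 : ρ / 2 = (1 / 2) * ρ := by ring
    rw [e1, Real.mul_rpow (by norm_num) hρ, Real.mul_rpow (by norm_num) hρ]
    have e2 : (1 / 2 : ℝ) ^ (1 / 2 : ℝ) ≤ (1 / 2 : ℝ) ^ e' :=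
      Real.rpow_le_rpow_of_exponent_ge (by norm_num) (by norm_num) he'1
    calc Y * ((1 / 2 : ℝ) ^ (1 / 2 : ℝ) * ρ ^ (1 / 2 : ℝ)) + X * ((1 / 2 : ℝ) ^ e' * ρ ^ e')
        ≤ Y * ((1 / 2 : ℝ) ^ e' * ρ ^ (1 / 2 : ℝ)) + X * ((1 / 2 : ℝ) ^ e' * ρ ^ e') := by gcongr
      _ = _ := by ring
  have hH : ∀ ρ, 0 < ρ → ρ * G ρ = Y * ρ ^ (3 / 2 : ℝ) + X * ρ ^ (1 + e') := by
    intro ρ hρ
    rw [hG]
    beta_reduce
    have e1 : ρ ^ (3 / 2 : ℝ) = ρ * ρ ^ (1 / 2 : ℝ) := by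
      rw [show (3 / 2 : ℝ) = 1 + 1 / 2 by norm_num, Real.rpow_add hρ, Real.rpow_one]
    rw [e1, Real.rpow_add hρ, Real.rpow_one]
    ring
  -- from the areas to the integrals
  have stepA : ∀ F : ℝ, 0 ≤ F → (∀ s, η ≤ s → s ≤ s₁ → μ s ≤ F * (s * G s)) →
      ∀ n : ℕ, ∀ ρ, η ≤ ρ → ρ ≤ s₁ → ρ < 2 ^ n * η → I ρ ≤ X + F * (CG * G ρ) := by
    intro F hF hμF n
    induction n with
    | zero =>
      intro ρ h1 _ h2
      rw [pow_zero, one_mul] at h2
      linarith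
    | succ n ih =>
      intro ρ h1 h2 h3
      have hρ : 0 < ρ := hη.trans_le h1
      have h4 := hhalf ρ hρ
      have h5 : μ ρ / ρ ≤ F * G ρ := by
        rw [div_le_iff₀ hρ]
        refine (hμF ρ h1 h2).trans (le_of_eq ?_)
        ring
      have h6 : I (ρ / 2) ≤ X + F * (CG * ((1 / 2 : ℝ) ^ e' * G ρ)) := by
        have hGρ := hG0 ρ hρ.le
        by_cases h7 : ρ / 2 ≤ η
        · have := hI h7
          have h8 : 0 ≤ F * (CG * ((1 / 2 : ℝ) ^ e' * G ρ)) := by positivity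
          linarith
        · rw [not_le] at h7
          refine (ih (ρ / 2) h7.le (by linarith) (by rw [pow_succ] at h3; linarith)).trans ?_
          gcongr
          exact hGhalf ρ hρ.le
      calc I ρ ≤ (X + F * (CG * ((1 / 2 : ℝ) ^ e' * G ρ))) + F * G ρ := by linarith
        _ = X + F * (CG * G ρ) + F * G ρ * (1 - CG * (1 - (1 / 2 : ℝ) ^ e')) := by ring
        _ = _ := by rw [hCG]; ring
  have stepA' : ∀ F : ℝ, 0 ≤ F → (∀ s, η ≤ s → s ≤ s₁ → μ s ≤ F * (s * G s)) →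
      ∀ ρ, η ≤ ρ → ρ ≤ s₁ → I ρ ≤ X + F * (CG * G ρ) := by
    intro F hF hμF ρ h1 h2
    obtain ⟨n, hn⟩ := pow_unbounded_of_one_lt (ρ / η) (one_lt_two : (1 : ℝ) < 2)
    rw [div_lt_iff₀ hη] at hn
    exact stepA F hF hμF n ρ h1 h2 hn
  -- degenerate case
  rcases hY0.eq_or_lt with hYz | hYpos
  · -- `A = 0`
    have hAz : A = 0 := by
      rw [hY] at hYz
      rcases mul_eq_zero.mp hYz.symm with h | h
      · exact absurd h hCb.ne'
      · exact h
    have hμz : ∀ s, μ s ≤ 0 := fun s => by rw [← hAz]; exact hμA s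
    intro ρ h1 h2
    have h3 := stepA' 0 le_rfl (fun s _ _ => by rw [zero_mul]; exact hμz s) ρ h1 h2
    have h4 := hG0 ρ (hη.le.trans h1)
    rw [zero_mul, add_zero] at h3
    have h5 : 0 ≤ CG * G ρ := by positivity
    exact h3.trans (by linarith)
  -- the contraction
  set M : ℝ := A / (η * G η) with hM
  have hGη : 0 < G η := by
    rw [hG]
    beta_reduce
    have : 0 ≤ X * η ^ e' := by positivity
    have : 0 < Y * η ^ (1 / 2 : ℝ) := by positivity
    linarith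
  have hM0 : 0 ≤ M := by positivity
  have hGmono : ∀ s, η ≤ s → η * G η ≤ s * G s := by
    intro s hs
    have hs0 : 0 < s := hη.trans_le hs
    have h1 : G η ≤ G s := by
      rw [hG]
      beta_reduce
      gcongr
    exact mul_le_mul hs h1 hGη.le hs0.le
  have stepB : ∀ n : ℕ, ∀ s, η ≤ s → s ≤ s₁ → μ s ≤ (1 + M / 2 ^ n) * (s * G s) := by
    intro n
    induction n with
    | zero =>
      intro s hs1 hs2
      have h1 := hGmono s hs1
      have h2 : A = M * (η * G η) := by rw [hM]; field_simp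
      have h3 : 0 < η * G η := by positivity
      calc μ s ≤ A := hμA s
        _ = M * (η * G η) := h2
        _ ≤ M * (s * G s) := by gcongr
        _ ≤ _ := by
            rw [pow_zero, div_one]
            have : 0 ≤ s * G s := h3.le.trans h1
            linarith
    | succ n ih =>
      intro s hs1 hs2
      have hs0 : 0 < s := hη.trans_le hs1
      set F : ℝ := 1 + M / 2 ^ n with hF
      have hF1 : 1 ≤ F := by
        rw [hF]
        have : 0 ≤ M / 2 ^ n := by positivity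
        linarith
      have hsG : 0 ≤ s * G s := mul_nonneg hs0.le (hG0 s hs0.le)
      have hF' : F / 2 ≤ 1 + M / 2 ^ (n + 1) := by
        rw [hF, pow_succ, ← div_div]
        linarith
      rcases hrec s hs1 hs2 with ⟨P, T, hP, hT, hT1, hT2, h1, h2, h3⟩ | h1
      · have h4 := stepA' F (by linarith) ih (T ^ 2) hT1 hT2
        have hT01 : T ≤ 1 := by nlinarith
        have e1 : (T ^ 2) ^ (1 / 2 : ℝ) = T := by
          rw [← Real.sqrt_eq_rpow, Real.sqrt_sq hT.le]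
        have e2 : (T ^ 2) ^ e' ≤ 1 := Real.rpow_le_one (by positivity) (by nlinarith) he'.le
        have h5 : G (T ^ 2) ≤ Y * T + X := by
          rw [hG]
          beta_reduce
          rw [e1]
          have : X * (T ^ 2) ^ e' ≤ X * 1 := by gcongr
          linarith
        have h6 : μ s ≤ 4 / P ^ 2 * (X + F * (CG * (Y * T + X))) := by
          refine h1.trans ?_
          gcongr
          refine h4.trans ?_
          gcongr
        have h7 : 4 * (X + F * (CG * (Y * T + X))) ≤ F / 2 * (P ^ 2 * (s * G s)) := by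
          rw [hH s hs0]
          have h8 : Y * (8 * CG * T) ≤ Y * (P ^ 2 * s ^ (3 / 2 : ℝ)) := by gcongr
          have h9 : X * (8 * (1 + CG)) ≤ X * (P ^ 2 * s ^ (1 + e')) := by gcongr
          have h10 : X ≤ F * X := by nlinarith
          have h11 : 0 ≤ F := by linarith
          have h12 := mul_le_mul_of_nonneg_left h8 h11
          have h13 := mul_le_mul_of_nonneg_left h9 h11
          nlinarith
        calc μ s ≤ 4 / P ^ 2 * (X + F * (CG * (Y * T + X))) := h6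
          _ = (4 * (X + F * (CG * (Y * T + X)))) / P ^ 2 := by ring
          _ ≤ (F / 2 * (P ^ 2 * (s * G s))) / P ^ 2 := by gcongr
          _ = F / 2 * (s * G s) := by field_simp
          _ ≤ _ := by gcongr
      · calc μ s ≤ Y * s ^ (3 / 2 : ℝ) := h1
          _ ≤ s * G s := by
              rw [hH s hs0]
              have : 0 ≤ X * s ^ (1 + e') := by positivity
              linarith
          _ = 1 * (s * G s) := (one_mul _).symm
          _ ≤ _ := by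
              gcongr
              have : 0 ≤ M / 2 ^ (n + 1) := by positivity
              linarith
  have hfin : ∀ s, η ≤ s → s ≤ s₁ → μ s ≤ 1 * (s * G s) := by
    intro s hs1 hs2
    have h1 : Tendsto (fun n : ℕ => (1 + M / 2 ^ n) * (s * G s)) atTop (nhds ((1 + 0) * (s * G s))) := by
      apply Tendsto.mul_const
      apply Tendsto.const_add
      have h2 : Tendsto (fun n : ℕ => M * (1 / 2 : ℝ) ^ n) atTop (nhds (M * 0)) :=
        (tendsto_pow_atTop_nhds_zero_of_lt_one (by norm_num) (by norm_num)).const_mul M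
      rw [mul_zero] at h2
      refine h2.congr fun n => ?_
      rw [one_div, inv_pow]
      rfl
    rw [add_zero] at h1
    exact ge_of_tendsto' h1 fun n => stepB n s hs1 hs2
  intro ρ h1 h2
  have h3 := stepA' 1 (by norm_num) hfin ρ h1 h2
  rw [one_mul] at h3
  exact h3

end Pool.Agent.Y298.SH.CE
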