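import Mathlib
import Pool.Agent.Y298.CE.Area

/-!
# The area of the filled Julia set near the critical point
-/

set_option autoImplicit false

open Set Filter Metric MeasureTheory

namespace Pool.Agent.Y298.SH.CE

open Pool.Agent.TH279.MD Pool.Agent.Y298.SH
open Pool.Agent.W746.LD (Univ KC exists_KC)
open Pool.Agent.H713R2.AR (KK)

variable {C₁ lam : ℝ} {c₁ : ℂ}

theorem CEp.Pd_le (h : CEp C₁ lam c₁) (k : ℕ) : Pd c₁ k ≤ 4 ^ k := by
  induction k with
  | zero => rw [Pd_zero, pow_zero]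
  | succ k ih =>
    rw [Pd_succ, pow_succ]
    have h1 := h.bd k
    have h2 := (h.Pd_pos k).le
    calc 2 * ‖zz c₁ k‖ * Pd c₁ k ≤ 2 * 2 * 4 ^ k := by gcongr
      _ = _ := by ring

/-- The first time a disk of radius `s` comes close to the critical point. -/
theorem CEp.first (h : CEp C₁ lam c₁) {B θ : ℝ} (hB : 1 ≤ B) (hθ : 1 ≤ θ) (hθ2 : θ ≤ 2) {s : ℝ}
    (hs : 0 < s) (hs1 : s ≤ 1) :
    ∃ k : ℕ, (∀ j < k, B * θ ^ j * s * Pd c₁ j ≤ ‖zz c₁ j‖) ∧
      ‖zz c₁ k‖ < B * θ ^ k * s * Pd c₁ k ∧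
      lam ^ (k + 1) ≤ 2 * C₁ * B * θ ^ k * (s * Pd c₁ k ^ 2) ∧
      1 ≤ 2 * C₁ * B * 32 ^ k * s ∧ lam ^ k * s ≤ 2 * C₁ * lam := by
  have hl := h.lam1
  have hC1 := h.C1
  have hθ0 : 0 < θ := by linarith
  have hex : ∃ k : ℕ, ‖zz c₁ k‖ < B * θ ^ k * s * Pd c₁ k := by
    obtain ⟨k, hk⟩ := pow_unbounded_of_one_lt (2 * C₁ / s) hl
    refine ⟨k, (h.bd k).trans_lt ?_⟩
    have h1 := h.exp k
    have h2 := h.Pd_pos k
    rw [div_lt_iff₀ hs] at hk
    have h3 : 2 * C₁ < C₁ * Pd c₁ k * s := by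
      calc 2 * C₁ < lam ^ k * s := hk
        _ ≤ _ := mul_le_mul_of_nonneg_right h1 hs.le
    have h4 : 2 < Pd c₁ k * s := by
      by_contra hcon
      rw [not_lt] at hcon
      nlinarith
    have h5 : 1 ≤ B * θ ^ k := by
      have := one_le_pow₀ (n := k) hθ
      nlinarith
    nlinarith [mul_pos h2 hs]
  classical
  set k := Nat.find hex with hkdef
  have hk : ‖zz c₁ k‖ < B * θ ^ k * s * Pd c₁ k := Nat.find_spec hex
  have hlt : ∀ j < k, B * θ ^ j * s * Pd c₁ j ≤ ‖zz c₁ j‖ := fun j hj =>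
    not_lt.mp (Nat.find_min hex hj)
  have hP := h.Pd_pos k
  have h3 : lam ^ (k + 1) ≤ 2 * C₁ * B * θ ^ k * (s * Pd c₁ k ^ 2) := by
    have h1 := h.exp (k + 1)
    rw [Pd_succ] at h1
    calc lam ^ (k + 1) ≤ C₁ * (2 * ‖zz c₁ k‖ * Pd c₁ k) := h1
      _ ≤ C₁ * (2 * (B * θ ^ k * s * Pd c₁ k) * Pd c₁ k) := by gcongr
      _ = _ := by ring
  refine ⟨k, hlt, hk, h3, ?_, ?_⟩
  · have h4 : (1 : ℝ) ≤ lam ^ (k + 1) := one_le_pow₀ hl.le
    refine h4.trans (h3.trans ?_)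
    have h5 := h.Pd_le k
    calc 2 * C₁ * B * θ ^ k * (s * Pd c₁ k ^ 2) ≤ 2 * C₁ * B * 2 ^ k * (s * (4 ^ k) ^ 2) := by gcongr
      _ = 2 * C₁ * B * (2 * 4 ^ 2) ^ k * s := by
          rw [mul_pow, ← pow_mul, ← pow_mul, mul_comm 2 k]
          ring
      _ = _ := by norm_num
  · rcases Nat.eq_zero_or_pos k with h0 | h0
    · rw [h0, pow_zero, one_mul]
      nlinarith
    · obtain ⟨j, hj⟩ : ∃ j, k = j + 1 := ⟨k - 1, by omega⟩
      have h5 := hlt j (by omega)
      have h6 := h.exp j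
      have h7 := h.Pd_pos j
      have h8 : s * Pd c₁ j ≤ 2 := by
        refine le_trans ?_ (h5.trans (h.bd j))
        have h9 : 1 ≤ B * θ ^ j := by
          have := one_le_pow₀ (n := j) hθ
          nlinarith
        nlinarith [mul_pos h7 hs]
      rw [hj, pow_succ]
      calc lam ^ j * lam * s = lam * (s * lam ^ j) := by ring
        _ ≤ lam * (s * (C₁ * Pd c₁ j)) := by gcongr
        _ = lam * C₁ * (s * Pd c₁ j) := by ring
        _ ≤ lam * C₁ * 2 := by gcongr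
        _ = _ := by ring

/-- **The area of the filled Julia set near the critical point.** -/
theorem crit_area (C₁ lam θ : ℝ) (hC₁ : 1 ≤ C₁) (hlam : 1 < lam) (hθ : 1 < θ) (hθ2 : θ ≤ 2)
    (hθ4 : θ ^ 4 ≤ lam) :
    ∃ B s₁ D : ℝ, 1 ≤ B ∧ 0 < s₁ ∧ s₁ ≤ 1 ∧ 0 < D ∧ ∀ c₁ : ℂ, CEp C₁ lam c₁ → ∀ c : ℂ, c ≠ c₁ →
      ‖c‖ ≤ 2 → ‖c - c₁‖ ≤ s₁ →
      ∃ k : ℕ, ‖zz c₁ k‖ < B * θ ^ k * ‖c - c₁‖ * Pd c₁ k ∧
        lam ^ k * ‖c - c₁‖ ≤ 2 * C₁ * lam ∧
        ∀ ρ : ℝ, ‖c - c₁‖ ≤ ρ → ρ ≤ s₁ →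
          (II c ρ).toReal ≤ D * (VA c * ρ ^ (1 / 2 : ℝ) + √(VA c) / Pd c₁ k) := by
  obtain ⟨B, Ca, hCa1, hCaB, hpass⟩ := passage C₁ lam θ hC₁ hlam hθ
  obtain ⟨CI, hCI, hII⟩ := II_bound
  have hB : 1 ≤ B := hCa1.trans hCaB
  have hB0 : 0 < B := by linarith
  have hC₁0 : 0 < C₁ := by linarith
  have hθ0 : 0 < θ := by linarith
  have hlam0 : 0 < lam := by linarith
  -- the exponent
  set e' : ℝ := Real.log θ / Real.log 32 with he'
  have hlog32 : 0 < Real.log 32 := Real.log_pos (by norm_num)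
  have hlogθ : 0 < Real.log θ := Real.log_pos hθ
  have he'0 : 0 < e' := by positivity
  have hlog2 : 0 < Real.log 2 := Real.log_pos (by norm_num)
  have h32 : Real.log 32 = 5 * Real.log 2 := by
    rw [show (32 : ℝ) = 2 ^ 5 by norm_num, Real.log_pow]
    norm_num
  have he'1 : e' ≤ 1 / 2 := by
    rw [he', div_le_iff₀ hlog32, h32]
    have : Real.log θ ≤ Real.log 2 := Real.log_le_log hθ0 hθ2
    linarith
  have he'θ : (32 : ℝ) ^ e' = θ := by
    rw [Real.rpow_def_of_pos (by norm_num), he', mul_div_cancel₀ _ hlog32.ne', Real.exp_log hθ0]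
  set CG : ℝ := 1 / (1 - (1 / 2 : ℝ) ^ e') with hCG
  have hg1 : (1 / 2 : ℝ) ^ e' < 1 := Real.rpow_lt_one (by norm_num) (by norm_num) he'0
  have hg2 : 0 < 1 - (1 / 2 : ℝ) ^ e' := by linarith
  have hCG0 : 0 < CG := by positivity
  have hCG1 : CG * (1 - (1 / 2 : ℝ) ^ e') = 1 := by rw [hCG]; field_simp
  -- the threshold
  set W : ℝ := 2 * C₁ * B with hW
  have hW0 : 0 < W := by positivity
  have hW1 : 1 ≤ W := by rw [hW]; nlinarith
  set N : ℝ := 8 * (1 + CG) * W ^ 2 + (16 * CG * B) ^ 2 * W + C₁ with hN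
  obtain ⟨k₁, hk₁⟩ := pow_unbounded_of_one_lt N hθ
  set s₁ : ℝ := 1 / (W * 32 ^ k₁) with hs₁
  have hs₁0 : 0 < s₁ := by positivity
  have h32k : (1 : ℝ) ≤ 32 ^ k₁ := one_le_pow₀ (by norm_num)
  have hs₁1 : s₁ ≤ 1 := by
    rw [hs₁, div_le_one (by positivity)]
    nlinarith
  set Cb : ℝ := 16 * B ^ 2 * √(2 * C₁ * lam) / s₁ with hCb
  have hCb0 : 0 < Cb := by positivity
  set D : ℝ := (1 + CG) * (2 * CI) + CG * Cb with hD
  refine ⟨B, s₁, D, hB, hs₁0, hs₁1, by positivity, ?_⟩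
  intro c₁ h c hcc hc hce
  have he0 : 0 < ‖c - c₁‖ := norm_pos_iff.mpr (sub_ne_zero.mpr hcc)
  set η := ‖c - c₁‖ with hη
  have hA0 := VA_nonneg c
  -- the passage for the radius `s`
  have hva : ∀ s : ℝ, η ≤ s → s ≤ 1 → ∀ k : ℕ, (∀ j < k, B * θ ^ j * s * Pd c₁ j ≤ ‖zz c₁ j‖) →
      ‖zz c₁ k‖ < B * θ ^ k * s * Pd c₁ k → ∀ T : ℝ, T = 2 * (B * θ ^ k * s * Pd c₁ k) →
      va c c s ≤ 4 / Pd c₁ k ^ 2 * va c 0 T := by
    intro s hs1 hs2 k hk1 hk2 T hT
    have hs0 : 0 < s := he0.trans_le hs1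
    obtain ⟨hp1, hp2, hp3⟩ := hpass c₁ h c s k hs0 hs1 hk1
    refine va_pass hc (h.Pd_pos k) hp3 hp2 ?_
    intro x hx
    have h1 := hp1 x hx
    have h2 := h.Pd_pos k
    have h3 : Ca * s * Pd c₁ k ≤ B * θ ^ k * s * Pd c₁ k := by
      have h4 : Ca ≤ B * θ ^ k := by
        have := one_le_pow₀ (n := k) hθ.le
        nlinarith
      gcongr
    calc ‖(f 2 c)^[k] x‖ = ‖((f 2 c)^[k] x - zz c₁ k) + zz c₁ k‖ := by congr 1; ring
      _ ≤ ‖(f 2 c)^[k] x - zz c₁ k‖ + ‖zz c₁ k‖ := norm_add_le _ _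
      _ < T := by rw [hT]; linarith
  obtain ⟨k, hk1, hk2, hk3, hk4, hk5⟩ := h.first hB hθ.le hθ2 he0 (hce.trans hs₁1)
  refine ⟨k, hk2, hk5, ?_⟩
  intro ρ hρ1 hρ2
  -- the recursion
  have hrec := recur (μ := fun s => va c c s) (I := fun ρ => (II c ρ).toReal) (A := VA c) (η := η)
    (s₁ := s₁) (e' := e') (CG := CG) (Cb := Cb) (fun s => va_nonneg c c s)
    (fun s => ENNReal.toReal_nonneg)
    (fun a b hab => ENNReal.toReal_mono (II_ne hc _) (II_mono hab))
    (fun s => va_le hc c s) he0 he'0 he'1 hs₁1 hCG1 hCb0 (fun ρ hρ => II_half hc hρ) ?_ ρ hρ1 hρ2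
  · -- conclusion
    beta_reduce at hrec
    have hρ0 : 0 < ρ := he0.trans_le hρ1
    have hρe : ρ ^ e' ≤ 1 := Real.rpow_le_one hρ0.le (hρ2.trans hs₁1) he'0.le
    have hX0 : 0 ≤ (II c η).toReal := ENNReal.toReal_nonneg
    have hP := h.Pd_pos k
    have hX : (II c η).toReal ≤ 2 * CI * (√(VA c) / Pd c₁ k) := by
      have h1 := ENNReal.toReal_mono ENNReal.ofReal_ne_top (hII c hc η)
      rw [ENNReal.toReal_ofReal (by positivity)] at h1
      have h2 := hva η le_rfl (hce.trans hs₁1) k hk1 hk2 _ rfl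
      have h3 : va c c η ≤ 4 / Pd c₁ k ^ 2 * VA c := h2.trans (by
        gcongr
        exact va_le hc _ _)
      have h4 : √(va c c η) ≤ 2 / Pd c₁ k * √(VA c) := by
        have h5 : √(4 / Pd c₁ k ^ 2 * VA c) = 2 / Pd c₁ k * √(VA c) := by
          rw [Real.sqrt_mul (by positivity), show (4 : ℝ) / Pd c₁ k ^ 2 = (2 / Pd c₁ k) ^ 2 by
            rw [div_pow]; norm_num, Real.sqrt_sq (by positivity)]
        rw [← h5]
        exact Real.sqrt_le_sqrt h3
      calc (II c η).toReal ≤ CI * √(va c c η) := h1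
        _ ≤ CI * (2 / Pd c₁ k * √(VA c)) := by gcongr
        _ = _ := by ring
    have hρh : 0 ≤ ρ ^ (1 / 2 : ℝ) := by positivity
    have hY0 : 0 ≤ √(VA c) / Pd c₁ k := by positivity
    have hZ0 : 0 ≤ VA c * ρ ^ (1 / 2 : ℝ) := by positivity
    calc (II c ρ).toReal ≤ (II c η).toReal + CG * (Cb * VA c * ρ ^ (1 / 2 : ℝ) +
          (II c η).toReal * ρ ^ e') := hrec
      _ ≤ (II c η).toReal + CG * (Cb * VA c * ρ ^ (1 / 2 : ℝ) + (II c η).toReal * 1) := by gcongr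
      _ = (1 + CG) * (II c η).toReal + CG * Cb * (VA c * ρ ^ (1 / 2 : ℝ)) := by ring
      _ ≤ (1 + CG) * (2 * CI * (√(VA c) / Pd c₁ k)) + CG * Cb * (VA c * ρ ^ (1 / 2 : ℝ)) := by
          gcongr
      _ ≤ D * (VA c * ρ ^ (1 / 2 : ℝ) + √(VA c) / Pd c₁ k) := by
          rw [hD]
          have h1 : 0 ≤ CG * Cb * (√(VA c) / Pd c₁ k) := by positivity
          have h2 : 0 ≤ (1 + CG) * (2 * CI) * (VA c * ρ ^ (1 / 2 : ℝ)) := by positivity
          linarith
  · -- verification of the hypotheses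
    intro s hs1 hs2
    have hs0 : 0 < s := he0.trans_le hs1
    have hs1' : s ≤ 1 := hs2.trans hs₁1
    obtain ⟨n, hn1, hn2, hn3, hn4, hn5⟩ := h.first hB hθ.le hθ2 hs0 hs1'
    set P := Pd c₁ n with hP
    have hP0 : 0 < P := h.Pd_pos n
    have hnk : k₁ ≤ n := by
      by_contra hcon
      rw [not_le] at hcon
      have h1 : (32 : ℝ) ^ n < 32 ^ k₁ := pow_lt_pow_right₀ (by norm_num) hcon
      have h2 : W * 32 ^ n * s ≤ W * 32 ^ n * s₁ := by gcongr
      have h3 : W * 32 ^ n * s₁ < 1 := by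
        rw [hs₁, mul_one_div, div_lt_one (by positivity)]
        gcongr
      rw [← hW] at hn4
      linarith
    set x := θ ^ n with hx
    have hx1 : 1 ≤ x := one_le_pow₀ hθ.le
    have hx0 : 0 < x := by linarith
    have hxN : N < x := hk₁.trans_le (pow_le_pow_right₀ hθ.le hnk)
    have hlx : x ^ 4 ≤ lam ^ n := by
      rw [hx, ← pow_mul, mul_comm n 4, pow_mul]
      gcongr
    have hlx' : x ^ 4 ≤ lam ^ (n + 1) := hlx.trans (pow_le_pow_right₀ hlam.le (by omega))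
    -- lower bound for `s P ^ 2`
    have hsP : x ^ 3 ≤ W * (s * P ^ 2) := by
      have h1 : x ^ 3 * x ≤ W * (s * P ^ 2) * x := by
        calc x ^ 3 * x = x ^ 4 := by ring
          _ ≤ lam ^ (n + 1) := hlx'
          _ ≤ 2 * C₁ * B * x * (s * P ^ 2) := hn3
          _ = _ := by rw [hW]; ring
      exact le_of_mul_le_mul_right h1 hx0
    have hsP0 : 0 < s * P ^ 2 := by positivity
    set T : ℝ := 2 * (B * x * s * P) with hT
    have hT0 : 0 < T := by positivity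
    have h1 := hva s hs1 hs1' n hn1 hn2 T rfl
    have e32 : s ^ (3 / 2 : ℝ) = s * √s := by
      rw [show (3 / 2 : ℝ) = 1 + 1 / 2 by norm_num, Real.rpow_add hs0, Real.rpow_one,
        Real.sqrt_eq_rpow]
    have hsq : √s * √s = s := Real.mul_self_sqrt hs0.le
    have hsq0 : 0 < √s := Real.sqrt_pos.mpr hs0
    have hT2 : T ^ 2 = 4 * B ^ 2 * x ^ 2 * s * (s * P ^ 2) := by rw [hT]; ring
    by_cases hTs : T ^ 2 ≤ s₁
    · left
      refine ⟨P, T, hP0, hT0, ?_, hTs, ?_, ?_, ?_⟩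
      · -- `η ≤ T ^ 2`
        refine hs1.trans ?_
        have h2 : C₁ * s ≤ C₁ * T ^ 2 := by
          have h3 : 2 * B * (x ^ 3) ≤ 2 * B * (W * (s * P ^ 2)) := by gcongr
          have h4 : C₁ ≤ x := by
            have : 0 ≤ 8 * (1 + CG) * W ^ 2 + (16 * CG * B) ^ 2 * W := by positivity
            linarith
          have h5 : x ≤ x ^ 3 := by
            calc x = x ^ 1 := (pow_one x).symm
              _ ≤ x ^ 3 := pow_le_pow_right₀ hx1 (by norm_num)
          have h6 : C₁ ≤ x ^ 2 * x ^ 3 := by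
            have h7 : 1 ≤ x ^ 2 := one_le_pow₀ hx1
            have h8 : 0 ≤ x ^ 3 := by positivity
            nlinarith
          have h9 : x ^ 2 * x ^ 3 ≤ x ^ 2 * (W * (s * P ^ 2)) := by gcongr
          have h10 : C₁ * T ^ 2 = s * (2 * B) * (x ^ 2 * (W * (s * P ^ 2))) := by
            rw [hT2, hW]; ring
          rw [h10]
          have h11 : C₁ ≤ x ^ 2 * (W * (s * P ^ 2)) := h6.trans h9
          have h12 : s * 1 ≤ s * (2 * B) := by gcongr; linarith
          calc C₁ * s = s * 1 * C₁ := by ring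
            _ ≤ s * (2 * B) * (x ^ 2 * (W * (s * P ^ 2))) := by gcongr
        exact le_of_mul_le_mul_left h2 hC₁0
      · refine h1.trans (le_of_eq ?_)
        beta_reduce
        rw [II_eq hc hT0]
        rfl
      · -- first smallness
        rw [e32]
        have h2 : 16 * CG * B * x ≤ P * √s := by
          rw [← pow_le_pow_iff_left₀ (by positivity) (by positivity) two_ne_zero]
          have h3 : (P * √s) ^ 2 = s * P ^ 2 := by
            calc (P * √s) ^ 2 = P ^ 2 * (√s * √s) := by ring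
              _ = _ := by rw [hsq]; ring
          rw [h3]
          have h4 : (16 * CG * B) ^ 2 * W ≤ x := by
            have : 0 ≤ 8 * (1 + CG) * W ^ 2 := by positivity
            linarith
          have h5 : W * (16 * CG * B * x) ^ 2 ≤ W * (s * P ^ 2) := by
            calc W * (16 * CG * B * x) ^ 2 = ((16 * CG * B) ^ 2 * W) * x ^ 2 := by ring
              _ ≤ x * x ^ 2 := by gcongr
              _ = x ^ 3 := by ring
              _ ≤ _ := hsP
          exact le_of_mul_le_mul_left h5 hW0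
        calc 8 * CG * T = (16 * CG * B * x) * (s * P) := by rw [hT]; ring
          _ ≤ (P * √s) * (s * P) := by gcongr
          _ = _ := by ring
      · -- second smallness
        rw [Real.rpow_add hs0, Real.rpow_one]
        have h2 : 1 / (W * x) ≤ s ^ e' := by
          have h3 : 1 / (W * 32 ^ n) ≤ s := by
            rw [div_le_iff₀ (by positivity)]
            rw [← hW] at hn4
            linarith
          have h4 : (1 / (W * 32 ^ n)) ^ e' ≤ s ^ e' :=
            Real.rpow_le_rpow (by positivity) h3 he'0.le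
          refine le_trans ?_ h4
          rw [Real.div_rpow zero_le_one (by positivity), Real.one_rpow,
            Real.mul_rpow hW0.le (by positivity)]
          have h5 : ((32 : ℝ) ^ n) ^ e' = x := by
            rw [← Real.rpow_natCast, ← Real.rpow_mul (by norm_num), mul_comm,
              Real.rpow_mul (by norm_num), he'θ, Real.rpow_natCast]
          rw [h5]
          have h6 : W ^ e' ≤ W := by
            calc W ^ e' ≤ W ^ (1 : ℝ) := Real.rpow_le_rpow_of_exponent_le hW1 (by linarith)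
              _ = W := Real.rpow_one W
          gcongr
        have h3 : 8 * (1 + CG) * W ^ 2 ≤ x := by
          have : 0 ≤ (16 * CG * B) ^ 2 * W := by positivity
          linarith
        have h4 : x ^ 3 / W ≤ s * P ^ 2 := by
          rw [div_le_iff₀ hW0]
          linarith
        have h5 : x ^ 3 / W * (1 / (W * x)) = x ^ 2 / W ^ 2 := by field_simp
        calc 8 * (1 + CG) ≤ x / W ^ 2 := by rw [le_div_iff₀ (by positivity)]; exact h3
          _ ≤ x ^ 2 / W ^ 2 := by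
              gcongr
              nlinarith
          _ = x ^ 3 / W * (1 / (W * x)) := h5.symm
          _ ≤ (s * P ^ 2) * s ^ e' := by gcongr
          _ = _ := by ring
    · right
      rw [not_le] at hTs
      have h2 : va c c s ≤ 4 / P ^ 2 * VA c := h1.trans (by
        gcongr
        exact va_le hc _ _)
      refine h2.trans ?_
      have h3 : 4 / P ^ 2 ≤ Cb * s ^ (3 / 2 : ℝ) := by
        rw [e32, hCb, div_le_iff₀ (by positivity), div_mul_eq_mul_div, div_mul_eq_mul_div,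
          le_div_iff₀ hs₁0]
        have h4 : x ^ 2 * √s ≤ √(2 * C₁ * lam) := by
          apply Real.le_sqrt_of_sq_le
          calc (x ^ 2 * √s) ^ 2 = x ^ 4 * (√s * √s) := by ring
            _ = x ^ 4 * s := by rw [hsq]
            _ ≤ lam ^ n * s := by gcongr
            _ ≤ _ := hn5
        calc 4 * s₁ ≤ 4 * T ^ 2 := by gcongr
          _ = 16 * B ^ 2 * x ^ 2 * (√s * √s) * (s * P ^ 2) := by rw [hT2, hsq]; ring
          _ = 16 * B ^ 2 * (x ^ 2 * √s) * (s * √s) * P ^ 2 := by ring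
          _ ≤ 16 * B ^ 2 * √(2 * C₁ * lam) * (s * √s) * P ^ 2 := by gcongr
      calc 4 / P ^ 2 * VA c ≤ (Cb * s ^ (3 / 2 : ℝ)) * VA c := by gcongr
        _ = _ := by ring

end Pool.Agent.Y298.SH.CE
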