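import Mathlib
import Pool.Agent.Y298.CE.Ver

/-!
# The area of the filled Julia set near a Collet-Eckmann parameter
-/

set_option autoImplicit false

open Set Filter Metric MeasureTheory

namespace Pool.Agent.Y298.SH.CE

open Pool.Agent.TH279.MD Pool.Agent.Y298.SH
open Pool.Agent.W746.LD (Univ KC exists_KC)
open Pool.Agent.H713R2.AR (KK)

variable {C₁ lam : ℝ} {c₀ : ℂ}

/-- one step of the decomposition -/
theorem split_oneK {δ : ℝ} (hδ : 0 < δ) {c : ℂ} (hc : ‖c‖ ≤ 2)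
    {φ : ℂ → ℝ} (hφ : Continuous φ) (h0 : ∀ y, 0 ≤ φ y) :
    ∫⁻ y in KK 2 c, ENNReal.ofReal (φ y) ≤
      (∫⁻ y in KK 2 c ∩ ball 0 (2 * δ), ENNReal.ofReal (φ y)) +
      ∫⁻ w in KK 2 c, ENNReal.ofReal (RO 2 δ c φ w) := by
  have hm : Measurable fun y => ENNReal.ofReal (φ y) := ENNReal.measurable_ofReal.comp hφ.measurable
  have hm2 : Measurable fun y => ENNReal.ofReal (chi δ y * φ y) :=
    ENNReal.measurable_ofReal.comp ((continuous_chi δ).mul hφ).measurable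
  have hK : MeasurableSet (KK 2 c) := (isCompact_KK hc).measurableSet
  have e1 : ∀ y, ENNReal.ofReal (φ y) ≤ (ball (0 : ℂ) (2 * δ)).indicator
      (fun y => ENNReal.ofReal (φ y)) y + ENNReal.ofReal (chi δ y * φ y) := by
    intro y
    by_cases hy : y ∈ ball (0 : ℂ) (2 * δ)
    · rw [indicator_of_mem hy]
      exact le_add_of_nonneg_right bot_le
    · rw [mem_ball_zero_iff, not_lt] at hy
      rw [chi_one hδ hy, one_mul]
      exact le_add_of_nonneg_left bot_le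
  calc ∫⁻ y in KK 2 c, ENNReal.ofReal (φ y)
      ≤ ∫⁻ y in KK 2 c, ((ball (0 : ℂ) (2 * δ)).indicator
          (fun y => ENNReal.ofReal (φ y)) y + ENNReal.ofReal (chi δ y * φ y)) :=
        lintegral_mono e1
    _ = (∫⁻ y in KK 2 c, (ball (0 : ℂ) (2 * δ)).indicator
          (fun y => ENNReal.ofReal (φ y)) y) +
          ∫⁻ y in KK 2 c, ENNReal.ofReal (chi δ y * φ y) :=
        lintegral_add_left (hm.indicator measurableSet_ball) _
    _ = _ := by
        congr 1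
        · rw [setLIntegral_indicator measurableSet_ball, inter_comm]
        · have h1 := dualE (d := 2) le_rfl c hK hm2
          rw [KK_pre] at h1
          rw [h1]
          apply lintegral_congr
          intro w
          exact LE_ofReal (d := 2) le_rfl hδ h0 w

/-- the decomposition according to the last passage near the critical point -/
theorem splitK {δ : ℝ} (hδ : 0 < δ) {c : ℂ} (hc : ‖c‖ ≤ 2) (k j : ℕ) :
    ∫⁻ y in KK 2 c, ENNReal.ofReal (psi 2 δ c j y) ≤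
      (∫⁻ w in KK 2 c, ENNReal.ofReal (psi 2 δ c (j + k) w)) +
      ∑ i ∈ Finset.range k, ∫⁻ y in KK 2 c ∩ ball 0 (2 * δ),
        ENNReal.ofReal (psi 2 δ c (j + i) y) := by
  induction k generalizing j with
  | zero => simp
  | succ k ih =>
    have h1 := split_oneK hδ hc (continuous_psi_right (d := 2) le_rfl hδ c j) (psi_nonneg hδ c j)
    rw [← psi_succ] at h1
    have h2 := ih (j + 1)
    rw [Finset.sum_range_succ', add_zero]
    calc ∫⁻ y in KK 2 c, ENNReal.ofReal (psi 2 δ c j y)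
        ≤ _ := h1
      _ ≤ (∫⁻ y in KK 2 c ∩ ball 0 (2 * δ), ENNReal.ofReal (psi 2 δ c j y)) +
          ((∫⁻ w in KK 2 c, ENNReal.ofReal (psi 2 δ c (j + 1 + k) w)) +
          ∑ i ∈ Finset.range k, ∫⁻ y in KK 2 c ∩ ball 0 (2 * δ),
            ENNReal.ofReal (psi 2 δ c (j + 1 + i) y)) := add_le_add le_rfl h2
      _ = _ := by
        have e1 : ∀ i, j + 1 + i = j + (i + 1) := fun i => by ring
        simp only [e1]
        ring

/-- the estimate of the area -/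
theorem vol_splitK {δ : ℝ} (hδ : 0 < δ) {c : ℂ} (hc : ‖c‖ ≤ 2) {m : ℕ} {ε Γ : ℝ}
    (hε0 : 0 ≤ ε) (hΓ0 : 0 ≤ Γ)
    (hε : ∀ w : ℂ, ‖w‖ ≤ 4 → psi 2 δ c m w ≤ ε)
    (hΓ : ∀ y : ℂ, ‖y‖ ≤ 2 * δ → ∑ j ∈ Finset.range m, psi 2 δ c j y ≤ Γ) :
    VA c ≤ ε * VA c + Γ * va c 0 (2 * δ) := by
  have hK : MeasurableSet (KK 2 c) := (isCompact_KK hc).measurableSet
  have h1 := splitK hδ hc m 0
  have e0 : ∫⁻ y in KK 2 c, ENNReal.ofReal (psi 2 δ c 0 y) = volume (KK 2 c) := by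
    have : ∀ y, ENNReal.ofReal (psi 2 δ c 0 y) = 1 := by
      intro y
      show ENNReal.ofReal 1 = 1
      exact ENNReal.ofReal_one
    simp only [this]
    rw [lintegral_one, Measure.restrict_apply_univ]
  rw [e0] at h1
  simp only [zero_add] at h1
  have h2 : volume (KK 2 c) ≤ ENNReal.ofReal ε * volume (KK 2 c) +
      ENNReal.ofReal Γ * volume (KK 2 c ∩ ball 0 (2 * δ)) := by
    refine h1.trans (add_le_add ?_ ?_)
    · rw [← setLIntegral_const]
      apply setLIntegral_mono' hK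
      intro w hw
      have hw' := (KK_sub (d := 2) le_rfl (by linarith : ‖c‖ ≤ 3) le_rfl 0).trans
        (SL_sub (d := 2) le_rfl (by linarith : ‖c‖ ≤ 3) (le_rfl : (4 : ℝ) ≤ 4) 0) hw
      exact ENNReal.ofReal_le_ofReal (hε w (by simpa using hw'))
    · have hm3 : ∀ j ∈ Finset.range m, AEMeasurable (fun y => ENNReal.ofReal (psi 2 δ c j y))
          (volume.restrict (KK 2 c ∩ ball 0 (2 * δ))) := fun j _ =>
        (ENNReal.measurable_ofReal.comp
          (continuous_psi_right (d := 2) le_rfl hδ c j).measurable).aemeasurable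
      rw [← lintegral_finsetSum' _ hm3, ← setLIntegral_const]
      apply setLIntegral_mono' (hK.inter measurableSet_ball)
      rintro y ⟨_, hy⟩
      rw [mem_ball_zero_iff] at hy
      rw [← ENNReal.ofReal_sum_of_nonneg (fun j _ => psi_nonneg hδ c j y)]
      exact ENNReal.ofReal_le_ofReal (hΓ y hy.le)
  have hfin : volume (KK 2 c) ≠ ⊤ := (isCompact_KK hc).measure_lt_top.ne
  have h3 := ENNReal.toReal_mono (ENNReal.add_ne_top.mpr
    ⟨ENNReal.mul_ne_top ENNReal.ofReal_ne_top hfin,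
      ENNReal.mul_ne_top ENNReal.ofReal_ne_top (vol_ne hc _)⟩) h2
  rw [ENNReal.toReal_add (ENNReal.mul_ne_top ENNReal.ofReal_ne_top hfin)
    (ENNReal.mul_ne_top ENNReal.ofReal_ne_top (vol_ne hc _)), ENNReal.toReal_mul,
    ENNReal.toReal_mul, ENNReal.toReal_ofReal hε0, ENNReal.toReal_ofReal hΓ0] at h3
  exact h3

/-- **The area, locally.** -/
theorem CEp.local_area (h : CEp C₁ lam c₀) {θ : ℝ} (hθ : 1 < θ) (hθ2 : θ ≤ 2)
    (hθ4 : θ ^ 4 ≤ lam) :
    ∃ B C ε : ℝ, 1 ≤ B ∧ 0 < C ∧ 0 < ε ∧ ε ≤ 1 ∧ ∀ c₁ : ℂ, CEp C₁ lam c₁ → ∀ c : ℂ, c ≠ c₁ →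
      ‖c‖ ≤ 2 → ‖c - c₁‖ ≤ ε → ‖c - c₀‖ ≤ ε →
      ∃ k : ℕ, ‖zz c₁ k‖ < B * θ ^ k * ‖c - c₁‖ * Pd c₁ k ∧
        lam ^ k * ‖c - c₁‖ ≤ 2 * C₁ * lam ∧ VA c ≤ C / Pd c₁ k ^ 2 := by
  obtain ⟨B, s₁, D, hB, hs₁, hs₁1, hD, hcrit⟩ := crit_area C₁ lam θ h.C1 h.lam1 hθ hθ2 hθ4
  obtain ⟨ρ₀, Γ, hρ₀, hΓ0, hΓ⟩ := h.psi_sum
  set G : ℝ := Γ + 1 with hG
  have hG0 : 0 < G := by positivity
  -- δ
  obtain ⟨δ, hδ, hδ1, hδ2, hδ3⟩ : ∃ δ : ℝ, 0 < δ ∧ 2 * δ ≤ ρ₀ ∧ (2 * δ) ^ 2 ≤ s₁ ∧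
      G * D * (2 * δ) ≤ 3 / 8 := by
    set Δ := min 1 (min ρ₀ (min s₁ (3 / (8 * (G * D))))) with hΔ
    have hΔ0 : 0 < Δ := by positivity
    have hΔ1 : Δ ≤ 1 := min_le_left _ _
    refine ⟨Δ / 2, by positivity, ?_, ?_, ?_⟩
    · rw [mul_div_cancel₀ Δ two_ne_zero]
      exact (min_le_right _ _).trans (min_le_left _ _)
    · rw [mul_div_cancel₀ Δ two_ne_zero]
      have h1 : Δ ≤ s₁ := (min_le_right _ _).trans ((min_le_right _ _).trans (min_le_left _ _))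
      nlinarith
    · rw [mul_div_cancel₀ Δ two_ne_zero]
      have h2 : Δ ≤ 3 / (8 * (G * D)) :=
        (min_le_right _ _).trans ((min_le_right _ _).trans (min_le_right _ _))
      rw [le_div_iff₀ (by positivity)] at h2
      linarith
  -- m₀
  obtain ⟨m₀, hm₀, hpsi⟩ := h.psi_small hδ (r := 4) le_rfl (ε := 1 / 16) (by norm_num)
  obtain ⟨ρ₁, hρ₁, hpert1⟩ := tube (c₀ := c₀) (continuous_psi (d := 2) le_rfl hδ m₀)
    (isCompact_closedBall (0 : ℂ) 4) (b := 1 / 8) (fun w hw => by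
      have := hpsi w (mem_closedBall_zero_iff.mp hw)
      show psi 2 δ c₀ m₀ w < 1 / 8
      linarith)
  obtain ⟨ρ₂, hρ₂, hpert2⟩ := tube (c₀ := c₀)
    (F := fun p : ℂ × ℂ => ∑ j ∈ Finset.range m₀, psi 2 δ p.1 j p.2)
    (continuous_finsetSum _ fun j _ => continuous_psi (d := 2) le_rfl hδ j)
    (isCompact_closedBall (0 : ℂ) (2 * δ)) (b := G) (fun w hw => by
      have := hΓ δ hδ hδ1 m₀ w (mem_closedBall_zero_iff.mp hw)
      show ∑ j ∈ Finset.range m₀, psi 2 δ c₀ j w < G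
      linarith)
  set ε : ℝ := min (min 1 (min ρ₁ ρ₂)) ((2 * δ) ^ 2) with hε
  have hε0 : 0 < ε := by positivity
  refine ⟨B, (2 * G * D) ^ 2, ε, hB, by positivity, hε0,
    (min_le_left _ _).trans (min_le_left _ _), ?_⟩
  intro c₁ hc₁ c hcc hc hce hce'
  have he2 : ‖c - c₀‖ ≤ ρ₁ :=
    hce'.trans ((min_le_left _ _).trans ((min_le_right _ _).trans (min_le_left _ _)))
  have he3 : ‖c - c₀‖ ≤ ρ₂ :=
    hce'.trans ((min_le_left _ _).trans ((min_le_right _ _).trans (min_le_right _ _)))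
  have he4 : ‖c - c₁‖ ≤ (2 * δ) ^ 2 := hce.trans (min_le_right _ _)
  obtain ⟨k, hk1, hk2, hk3⟩ := hcrit c₁ hc₁ c hcc hc (he4.trans hδ2)
  refine ⟨k, hk1, hk2, ?_⟩
  have hP := hc₁.Pd_pos k
  have h1 := hk3 ((2 * δ) ^ 2) he4 hδ2
  rw [II_eq hc (by positivity)] at h1
  have h2 : (volume (KK 2 c ∩ ball 0 (2 * δ))).toReal = va c 0 (2 * δ) := rfl
  have h3 : ((2 * δ) ^ 2) ^ (1 / 2 : ℝ) = 2 * δ := by
    rw [← Real.sqrt_eq_rpow, Real.sqrt_sq (by positivity)]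
  rw [h2, h3] at h1
  have h4 := vol_splitK hδ hc (m := m₀) (ε := 1 / 8) (Γ := G) (by norm_num) hG0.le
    (fun w hw => hpert1 c he2 w (mem_closedBall_zero_iff.mpr hw))
    (fun y hy => hpert2 c he3 y (mem_closedBall_zero_iff.mpr hy))
  set A := VA c with hA
  have hA0 : 0 ≤ A := VA_nonneg c
  set P := Pd c₁ k
  have h5 : A ≤ 2 * G * D * (√A / P) := by
    have h6 : G * va c 0 (2 * δ) ≤ G * (D * (A * (2 * δ) + √A / P)) := by gcongr
    have h7 : G * (D * (A * (2 * δ) + √A / P)) = (G * D * (2 * δ)) * A + G * D * (√A / P) := by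
      ring
    have h8 : (G * D * (2 * δ)) * A ≤ 3 / 8 * A := by gcongr
    linarith
  have hsq : √A * √A = A := Real.mul_self_sqrt hA0
  have hs0 : 0 ≤ √A := Real.sqrt_nonneg A
  rcases hs0.eq_or_lt with h0 | h0
  · have : A = 0 := by rw [← hsq, ← h0, mul_zero]
    rw [this]
    positivity
  · have h6 : √A ≤ 2 * G * D / P := by
      have h7 : √A * √A ≤ (2 * G * D / P) * √A := by
        rw [hsq]
        refine h5.trans (le_of_eq ?_)
        ring
      exact le_of_mul_le_mul_right h7 h0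
    calc A = √A ^ 2 := by rw [sq, hsq]
      _ ≤ (2 * G * D / P) ^ 2 := by gcongr
      _ = _ := by rw [div_pow]

end Pool.Agent.Y298.SH.CE
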