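import Mathlib
import Pool.Agent.Y298.CE.Cen

/-!
# Density of hyperbolicity near Collet-Eckmann parameters
-/

set_option autoImplicit false

open Set Filter Metric MeasureTheory

namespace Pool.Agent.Y298.SH.CE

open Pool.Agent.TH279.MD Pool.Agent.Y298.SH
open Pool.Agent.H713R2 Pool.Agent.H712R2 Pool.Agent.H713R2.AR Pool.Agent.H548R3.MB

variable {C₁ lam C₂ β σ : ℝ} {c₀ : ℂ}

/-- The recurrence condition. -/
def Rec (C₂ β : ℝ) (c : ℂ) : Prop := ∀ n, 1 ≤ C₂ * (‖zz c n‖ * Pd c n ^ β)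

/-- Membership in the class. -/
theorem cep_of_mem (hC₁ : 1 ≤ C₁) (hlam : 1 < lam) (hM : c₀ ∈ N62a1eb23.multibrotSet 2)
    (hexp : ∀ n, lam ^ n ≤ C₁ * ‖deriv ((f 2 c₀)^[n]) c₀‖) : CEp C₁ lam c₀ := by
  refine ⟨fun j => ?_, hC₁, hlam, hexp⟩
  have h1 := (Pool.Agent.H712R2.mem_multibrot_iff le_rfl c₀).mp hM (j + 1)
  have h2 : Pool.Agent.H712R2.P 2 (j + 1) c₀ = (f 2 c₀)^[j] c₀ := by
    rw [P_eq, Function.iterate_succ_apply]
    congr 1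
    unfold f
    rw [zero_pow (by omega), zero_add]
  rw [h2] at h1
  exact h1

/-- The class of parameters is compact. -/
theorem isCompact_CEp (C₁ lam : ℝ) : IsCompact {c₀ : ℂ | CEp C₁ lam c₀} := by
  by_cases hdM : 1 ≤ C₁ ∧ 1 < lam
  · obtain ⟨hC, hl⟩ := hdM
    have h1 : {c₀ : ℂ | CEp C₁ lam c₀} = {c₀ : ℂ | (∀ j : ℕ, ‖(f 2 c₀)^[j] c₀‖ ≤ 2) ∧
        ∀ j : ℕ, lam ^ j ≤ C₁ * ‖deriv ((f 2 c₀)^[j]) c₀‖} := by
      ext c
      exact ⟨fun h => ⟨h.bd, h.exp⟩, fun h => ⟨h.1, hC, hl, h.2⟩⟩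
    have hc : ∀ j : ℕ, Continuous fun c : ℂ => (f 2 c)^[j] c := fun j =>
      (contDiff_iter 2 j).continuous.comp (continuous_id.prodMk continuous_id)
    have hc' : ∀ j : ℕ, Continuous fun c : ℂ => deriv ((f 2 c)^[j]) c := fun j =>
      (contDiff_deriv 2 j).continuous.comp (continuous_id.prodMk continuous_id)
    have hcl : IsClosed {c₀ : ℂ | CEp C₁ lam c₀} := by
      rw [h1, setOf_and, setOf_forall, setOf_forall]
      refine IsClosed.inter (isClosed_iInter fun j => ?_) (isClosed_iInter fun j => ?_)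
      · exact isClosed_le (hc j).norm continuous_const
      · exact isClosed_le continuous_const (continuous_const.mul (hc' j).norm)
    refine (isCompact_closedBall (0 : ℂ) 2).of_isClosed_subset hcl ?_
    intro c hc
    rw [mem_closedBall_zero_iff]
    exact hc.bd 0
  · have h1 : {c₀ : ℂ | CEp C₁ lam c₀} = ∅ := by
      ext c
      simp only [mem_setOf_eq, mem_empty_iff_false, iff_false]
      exact fun h => hdM ⟨h.C1, h.lam1⟩
    rw [h1]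
    exact isCompact_empty

/-- **The area, locally, in terms of the distance.** -/
theorem CEp.local_dist (h : CEp C₁ lam c₀) (hC₂ : 0 < C₂) (hβ : 0 ≤ β) (hσ0 : 0 ≤ σ)
    (hσ : σ * (1 + β) < 2) :
    ∃ C ε : ℝ, 0 < C ∧ 0 < ε ∧ ∀ c₁ : ℂ, CEp C₁ lam c₁ → Rec C₂ β c₁ → ∀ c : ℂ, c ≠ c₁ →
      ‖c‖ ≤ 2 → ‖c - c₁‖ ≤ ε → ‖c - c₀‖ ≤ ε → VA c ≤ C * ‖c - c₁‖ ^ σ := by
  have hl := h.lam1
  have hl0 : 0 < lam := by linarith
  have hC1 := h.C1
  have hloglam : 0 < Real.log lam := Real.log_pos hl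
  have hlog2 : 0 < Real.log 2 := Real.log_pos (by norm_num)
  -- the exponent `ω`
  set ω : ℝ := min (1 / 4) (min (Real.log 2 / Real.log lam) (1 - σ * (1 + β) / 2)) with hω
  have hω0 : 0 < ω := by
    refine lt_min (by norm_num) (lt_min (by positivity) (by linarith))
  have hω1 : ω ≤ 1 / 4 := min_le_left _ _
  have hω2 : ω ≤ Real.log 2 / Real.log lam := (min_le_right _ _).trans (min_le_left _ _)
  have hω3 : ω ≤ 1 - σ * (1 + β) / 2 := (min_le_right _ _).trans (min_le_right _ _)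
  set θ : ℝ := lam ^ ω with hθ
  have hθ1 : 1 < θ := Real.one_lt_rpow hl hω0
  have hθ2 : θ ≤ 2 := by
    rw [hθ, Real.rpow_def_of_pos hl0]
    rw [le_div_iff₀ hloglam] at hω2
    calc Real.exp (Real.log lam * ω) ≤ Real.exp (Real.log 2) := Real.exp_le_exp.mpr (by linarith)
      _ = 2 := Real.exp_log (by norm_num)
  have hθ4 : θ ^ 4 ≤ lam := by
    rw [hθ, ← Real.rpow_natCast, ← Real.rpow_mul hl0.le]
    calc lam ^ (ω * ((4 : ℕ) : ℝ)) ≤ lam ^ (1 : ℝ) :=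
          Real.rpow_le_rpow_of_exponent_le hl.le (by push_cast; linarith)
      _ = lam := Real.rpow_one lam
  obtain ⟨B, C, ε, hB, hC, hε, hε1, H⟩ := h.local_area hθ1 hθ2 hθ4
  set q : ℝ := 2 / (1 + β) with hq
  have hβ1 : 0 < 1 + β := by linarith
  have hq0 : 0 < q := by positivity
  set F : ℝ := C₂ * B * (2 * C₁ * lam) ^ ω with hF
  have hB0 : 0 < B := by linarith
  have hC₁0 : 0 < C₁ := by linarith
  have hF0 : 0 < F := by positivity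
  refine ⟨C * F ^ q, ε, by positivity, hε, ?_⟩
  intro c₁ hc₁ hrec c hcc hc hce hce'
  obtain ⟨k, hk1, hk2, hk3⟩ := H c₁ hc₁ c hcc hc hce hce'
  have he0 : 0 < ‖c - c₁‖ := norm_pos_iff.mpr (sub_ne_zero.mpr hcc)
  set e := ‖c - c₁‖ with he
  set P := Pd c₁ k with hP
  have hP0 : 0 < P := hc₁.Pd_pos k
  -- bound of `θ ^ k`
  have h1 : θ ^ k ≤ (2 * C₁ * lam) ^ ω * e ^ (-ω) := by
    have h2 : θ ^ k = (lam ^ k) ^ ω := by
      rw [hθ, ← Real.rpow_natCast, ← Real.rpow_natCast, ← Real.rpow_mul hl0.le,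
        ← Real.rpow_mul hl0.le, mul_comm]
    have h3 : lam ^ k ≤ 2 * C₁ * lam / e := by rwa [le_div_iff₀ he0]
    rw [h2]
    calc (lam ^ k) ^ ω ≤ (2 * C₁ * lam / e) ^ ω := Real.rpow_le_rpow (by positivity) h3 hω0.le
      _ = _ := by
          rw [Real.div_rpow (by positivity) he0.le, Real.rpow_neg he0.le]
          rfl
  -- bound of `P`
  have h2 : 1 ≤ F * e ^ (1 - ω) * P ^ (1 + β) := by
    have h3 := hrec k
    have hPβ : 0 < P ^ β := Real.rpow_pos_of_pos hP0 β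
    calc 1 ≤ C₂ * (‖zz c₁ k‖ * P ^ β) := h3
      _ ≤ C₂ * ((B * θ ^ k * e * P) * P ^ β) := by gcongr
      _ ≤ C₂ * ((B * ((2 * C₁ * lam) ^ ω * e ^ (-ω)) * e * P) * P ^ β) := by gcongr
      _ = F * (e ^ (-ω) * e) * (P * P ^ β) := by rw [hF]; ring
      _ = _ := by
          rw [Real.rpow_add hP0, Real.rpow_one, sub_eq_add_neg, Real.rpow_add he0, Real.rpow_one]
          ring
  have h3 : 1 / P ^ 2 ≤ (F * e ^ (1 - ω)) ^ q := by
    have h4 : (1 / P ^ 2 : ℝ) = (1 / P ^ (1 + β)) ^ q := by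
      rw [Real.div_rpow zero_le_one (by positivity), Real.one_rpow, ← Real.rpow_mul hP0.le, hq,
        mul_div_cancel₀ _ hβ1.ne', Real.rpow_two]
    rw [h4]
    apply Real.rpow_le_rpow (by positivity) _ hq0.le
    rw [div_le_iff₀ (by positivity)]
    exact h2
  have h4 : (e ^ (1 - ω)) ^ q ≤ e ^ σ := by
    rw [← Real.rpow_mul he0.le]
    apply Real.rpow_le_rpow_of_exponent_ge he0 (hce.trans hε1)
    rw [hq, mul_div_assoc', le_div_iff₀ hβ1]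
    linarith
  calc VA c ≤ C / P ^ 2 := hk3
    _ = C * (1 / P ^ 2) := by ring
    _ ≤ C * (F * e ^ (1 - ω)) ^ q := by gcongr
    _ = C * (F ^ q * (e ^ (1 - ω)) ^ q) := by rw [Real.mul_rpow hF0.le (by positivity)]
    _ ≤ C * (F ^ q * e ^ σ) := by gcongr
    _ = _ := by ring

/-- **The area, uniformly.** -/
theorem area_uniform (C₁ lam : ℝ) (hC₂ : 0 < C₂) (hβ : 0 ≤ β) (hσ0 : 0 ≤ σ)
    (hσ : σ * (1 + β) < 2) :
    ∃ C : ℝ, 0 < C ∧ ∀ c₁ : ℂ, CEp C₁ lam c₁ → Rec C₂ β c₁ →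
      ∀ c ∈ N62a1eb23.multibrotSet 2, c ≠ c₁ → VA c ≤ C * ‖c - c₁‖ ^ σ := by
  -- local constants
  have hloc : ∀ c₀ : ℂ, ∃ C ε : ℝ, 0 < C ∧ 0 < ε ∧ (CEp C₁ lam c₀ → ∀ c₁ : ℂ, CEp C₁ lam c₁ →
      Rec C₂ β c₁ → ∀ c : ℂ, c ≠ c₁ → ‖c‖ ≤ 2 → ‖c - c₁‖ ≤ ε → ‖c - c₀‖ ≤ ε →
      VA c ≤ C * ‖c - c₁‖ ^ σ) := by
    intro c₀
    by_cases h : CEp C₁ lam c₀
    · obtain ⟨C, ε, hC, hε, H⟩ := h.local_dist hC₂ hβ hσ0 hσ
      exact ⟨C, ε, hC, hε, fun _ => H⟩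
    · exact ⟨1, 1, one_pos, one_pos, fun h' => absurd h' h⟩
  choose CC εε hCC hεε H using hloc
  obtain ⟨t, htS, ht⟩ := (isCompact_CEp C₁ lam).elim_nhds_subcover (fun c₀ => ball c₀ (εε c₀ / 2))
    (fun c₀ _ => ball_mem_nhds c₀ (by have := hεε c₀; positivity))
  obtain ⟨ε, hε0, hε⟩ : ∃ ε : ℝ, 0 < ε ∧ ∀ c₀ ∈ t, ε ≤ εε c₀ / 2 := by
    by_cases hne : t.Nonempty
    · exact ⟨t.inf' hne (fun c₀ => εε c₀ / 2), (Finset.lt_inf'_iff hne).mpr fun c₀ _ => by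
        have := hεε c₀; positivity, fun c₀ hc₀ => Finset.inf'_le _ hc₀⟩
    · rw [Finset.not_nonempty_iff_eq_empty] at hne
      exact ⟨1, one_pos, fun c₀ hc₀ => by rw [hne] at hc₀; simp at hc₀⟩
  set Cs : ℝ := ∑ c₀ ∈ t, CC c₀ with hCs
  have hCs0 : 0 ≤ Cs := Finset.sum_nonneg fun c₀ _ => (hCC c₀).le
  have hCsle : ∀ c₀ ∈ t, CC c₀ ≤ Cs := fun c₀ hc₀ =>
    Finset.single_le_sum (f := CC) (fun c₀ _ => (hCC c₀).le) hc₀
  set V₀ : ℝ := (volume (closedBall (0 : ℂ) 4)).toReal with hV₀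
  have hV₀0 : 0 ≤ V₀ := ENNReal.toReal_nonneg
  have hV₀fin : volume (closedBall (0 : ℂ) 4) ≠ ⊤ := (isCompact_closedBall _ _).measure_lt_top.ne
  have hKsub : ∀ c : ℂ, ‖c‖ ≤ 3 → KK 2 c ⊆ closedBall 0 4 := by
    intro c hc
    exact (KK_sub (d := 2) le_rfl hc le_rfl 0).trans (SL_sub (d := 2) le_rfl hc le_rfl 0)
  have hεσ : 0 < ε ^ σ := by positivity
  refine ⟨Cs + V₀ / ε ^ σ + 1, by positivity, ?_⟩
  intro c₁ hc₁ hrec c hc hcc
  have hc2 : ‖c‖ ≤ 2 := norm_le_two le_rfl hc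
  have hpe : 0 ≤ ‖c - c₁‖ ^ σ := by positivity
  rcases le_or_gt ‖c - c₁‖ ε with hce | hce
  · have h1 := ht hc₁
    rw [mem_iUnion₂] at h1
    obtain ⟨c₀, hc₀t, hc₀⟩ := h1
    rw [mem_ball, dist_eq_norm] at hc₀
    have hεc := hε c₀ hc₀t
    have hpos := hεε c₀
    have e1 : ‖c - c₁‖ ≤ εε c₀ := by linarith
    have e2 : ‖c - c₀‖ ≤ εε c₀ := by
      calc ‖c - c₀‖ = ‖(c - c₁) + (c₁ - c₀)‖ := by congr 1; ring
        _ ≤ ‖c - c₁‖ + ‖c₁ - c₀‖ := norm_add_le _ _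
        _ ≤ εε c₀ := by linarith
    have h2 := H c₀ (htS c₀ hc₀t) c₁ hc₁ hrec c hcc hc2 e1 e2
    refine h2.trans (mul_le_mul_of_nonneg_right ?_ hpe)
    have h3 := hCsle c₀ hc₀t
    have : 0 ≤ V₀ / ε ^ σ := by positivity
    linarith
  · have h1 : VA c ≤ V₀ := ENNReal.toReal_mono hV₀fin (measure_mono (hKsub c (by linarith)))
    have h2 : ε ^ σ ≤ ‖c - c₁‖ ^ σ := Real.rpow_le_rpow hε0.le hce.le hσ0
    have h3 : V₀ ≤ V₀ / ε ^ σ * ‖c - c₁‖ ^ σ := by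
      calc V₀ = V₀ / ε ^ σ * ε ^ σ := by field_simp
        _ ≤ _ := by gcongr
    have h4 : V₀ / ε ^ σ * ‖c - c₁‖ ^ σ ≤ (Cs + V₀ / ε ^ σ + 1) * ‖c - c₁‖ ^ σ :=
      mul_le_mul_of_nonneg_right (by linarith) hpe
    linarith

/-- **The three upper bounds, uniformly.** -/
theorem upper (C₁ lam : ℝ) (hC₂ : 0 < C₂) (hβ : 0 ≤ β) (hσ0 : 0 ≤ σ)
    (hσ : σ * (1 + β) < 2) :
    ∃ C : ℝ, 0 < C ∧ ∀ c₁ : ℂ, CEp C₁ lam c₁ → Rec C₂ β c₁ →
      ∀ c ∈ N62a1eb23.multibrotSet 2, c ≠ c₁ →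
      volume (KK 2 c) ≤ ENNReal.ofReal (C * ‖c - c₁‖ ^ σ) ∧
      (∃ c' : ℂ, ‖c' - c‖ ≤ C * ‖c - c₁‖ ^ σ ∧ ∃ p : ℕ, 1 ≤ p ∧
        (fun z : ℂ => z ^ 2 + c')^[p] 0 = 0 ∧
        N62a1eb23.IsAttractingCycle (fun z : ℂ => z ^ 2 + c') p 0) ∧
      (∃ c' : ℂ, ‖c' - c‖ ≤ C * ‖c - c₁‖ ^ σ ∧ c' ∉ N62a1eb23.multibrotSet 2) ∧
      (∀ V : Set ℂ, IsOpen V → IsPreconnected V →
        ((∀ c' ∈ V, ¬ ∃ m z, N62a1eb23.IsAttractingCycle (fun z : ℂ => z ^ 2 + c') m z) ∨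
          V ⊆ N62a1eb23.multibrotSet 2) →
        ∀ γ : ℂ → ℂ, DifferentiableOn ℂ γ (ball 0 1) → (∀ t ∈ ball (0 : ℂ) 1, γ t ∈ V) →
          γ 0 = c → ‖deriv γ 0‖ ≤ C * ‖c - c₁‖ ^ σ) := by
  obtain ⟨C, hC, H⟩ := area_uniform C₁ lam hC₂ hβ hσ0 hσ
  refine ⟨C + 1, by positivity, ?_⟩
  intro c₁ hc₁ hrec c hc hcc
  have h1 := H c₁ hc₁ hrec c hc hcc
  have he0 : 0 < ‖c - c₁‖ := norm_pos_iff.mpr (sub_ne_zero.mpr hcc)
  have hes : 0 < ‖c - c₁‖ ^ σ := Real.rpow_pos_of_pos he0 σ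
  have hc2 : ‖c‖ ≤ 2 := norm_le_two le_rfl hc
  have h2 : VA c < (C + 1) * ‖c - c₁‖ ^ σ := by
    rw [add_mul, one_mul]
    linarith
  refine ⟨?_, ?_, escape_near (by positivity) h2, ?_⟩
  · have hfin : volume (KK 2 c) ≠ ⊤ := (isCompact_KK hc2).measure_lt_top.ne
    rw [← ENNReal.ofReal_toReal hfin]
    exact ENNReal.ofReal_le_ofReal h2.le
  · obtain ⟨c', hc', p, hp, hp0⟩ := centre_near hc (by positivity) h2
    exact ⟨c', hc', p, hp, hp0, att_of_centre le_rfl hp hp0⟩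
  · intro V hV hVc hno γ hγ hγV hγc
    have hVM : V ⊆ N62a1eb23.multibrotSet 2 := by
      rcases hno with h | h
      · exact open_subset le_rfl hV hVc (hγV 0 (mem_ball_self one_pos)) (by rw [hγc]; exact hc) h
      · exact h
    have h3 := disc_area hγ (fun t ht => hVM (hγV t ht))
    rw [hγc] at h3
    linarith

/-- Collet-Eckmann parameters satisfy a recurrence condition with an exponent smaller than one. -/
theorem CEp.recB (h : CEp C₁ lam c₀) : Rec (2 * C₁) (1 - Real.log lam / Real.log 4) c₀ := by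
  intro n
  have hl := h.lam1
  have hl0 : 0 < lam := by linarith
  have hC1 := h.C1
  have hP := h.Pd_pos n
  have h4 : 0 < Real.log 4 := Real.log_pos (by norm_num)
  have hll : 0 < Real.log lam := Real.log_pos hl
  have h1 := h.exp (n + 1)
  rw [Pd_succ] at h1
  have h2 : Pd c₀ n ^ (Real.log lam / Real.log 4) ≤ lam ^ n := by
    calc Pd c₀ n ^ (Real.log lam / Real.log 4) ≤ ((4 : ℝ) ^ n) ^ (Real.log lam / Real.log 4) :=
          Real.rpow_le_rpow hP.le (h.Pd_le n) (by positivity)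
      _ = (4 ^ (Real.log lam / Real.log 4)) ^ n := by
          rw [← Real.rpow_natCast, ← Real.rpow_natCast, ← Real.rpow_mul (by norm_num),
            ← Real.rpow_mul (by norm_num), mul_comm]
      _ = lam ^ n := by
          congr 1
          rw [Real.rpow_def_of_pos (by norm_num), mul_div_cancel₀ _ h4.ne', Real.exp_log hl0]
  have hPp : 0 < Pd c₀ n ^ (Real.log lam / Real.log 4) := Real.rpow_pos_of_pos hP _
  rw [Real.rpow_sub hP, Real.rpow_one]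
  have h3 : lam ^ n ≤ C₁ * (2 * ‖zz c₀ n‖ * Pd c₀ n) :=
    (pow_le_pow_right₀ hl.le (by omega)).trans h1
  rw [mul_div_assoc', mul_div_assoc', le_div_iff₀ hPp, one_mul]
  linarith

/-- nonempty classes have `lam ≤ 4` -/
theorem CEp.lam_le (h : CEp C₁ lam c₀) : lam ≤ 4 := by
  by_contra hcon
  rw [not_le] at hcon
  have h1 : 1 < lam / 4 := by rw [lt_div_iff₀ (by norm_num)]; linarith
  obtain ⟨n, hn⟩ := pow_unbounded_of_one_lt C₁ h1
  have h2 := h.exp n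
  have h3 := h.Pd_le n
  have hC1 := h.C1
  rw [div_pow, lt_div_iff₀ (by positivity)] at hn
  have h4 : C₁ * Pd c₀ n ≤ C₁ * 4 ^ n := by gcongr
  linarith

end Pool.Agent.Y298.SH.CE
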